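import Pool.Agent.Work.MP_1233f5_ag.Y.StmtsF

/-! MP_1233f5_ag, block Y: the closed form of `bnd3` in the second row. -/

set_option autoImplicit false

namespace Pool.Agent.Work.MP_1233f5_ag.Y

open Finset
open Pool.Agent.Work.MP_1233f5_ag.V (vm ML theta)
open Pool.Agent.Work.MP_1233f5_ag.Sec (Fk wd ct ee ff hh IsSec IsDeg swd brk)

namespace CF3bX

theorem two_choose (n : ℕ) : 2 * (n + 1).choose 2 = (n + 1) * n := by
  induction n with
  | zero => rfl
  | succ n ih =>
    have h : (n + 1 + 1).choose 2 = (n + 1).choose 1 + (n + 1).choose 2 :=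
      Nat.choose_succ_succ _ _
    rw [h, Nat.choose_one_right, mul_add, ih]
    ring

theorem quad (b j : ℕ) (hj : 1 ≤ j) (h : 3 ≤ b + j) :
    5 * b + 2 * j + 6 + ((j + 1).choose 2 + 2) ≤ (b + j + 3 + 1).choose 2 := by
  have h1 := two_choose j
  have h2 := two_choose (b + j + 3)
  have h3 : (j + 1) * j + (10 * b + 4 * j + 16) ≤ (b + j + 3 + 1) * (b + j + 3) := by
    rcases Nat.lt_or_ge j 2 with hj2 | hj2
    · have : j = 1 := by omega
      subst this
      nlinarith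
    · nlinarith [Nat.mul_le_mul_left b hj2, Nat.zero_le (b * b)]
  omega

theorem theta_lo (b d : ℕ) (hd : 5 ≤ d) (hb : b + 3 ≤ d) :
    2 * d + 2 + 3 * b ≤ theta d (2 * d + b) := by
  obtain ⟨j, hj⟩ : ∃ j, d = b + j + 2 := ⟨d - b - 2, by omega⟩
  have hj1 : 1 ≤ j := by omega
  have hq := quad b j hj1 (by omega)
  have hd2 : b + j + 3 + 1 = d + 2 := by omega
  rw [hd2] at hq
  rcases Nat.lt_or_ge (b + 3) d with h | h
  · have hk : (2 * d + b) / (d - 1) = 2 :=
      Nat.div_eq_of_lt_le (by omega) (by omega)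
    unfold theta
    rw [hk]
    have h2 : (2 + 1) * (d - 1) - (2 * d + b) + 2 = j + 1 := by omega
    rw [h2]
    omega
  · have hk : (2 * d + b) / (d - 1) = 3 :=
      Nat.div_eq_of_lt_le (by omega) (by omega)
    unfold theta
    rw [hk]
    have h2 : (3 + 1) * (d - 1) - (2 * d + b) + 3 = d + 2 := by omega
    have h3 : (d + 3).choose 3 = (d + 2).choose 2 + (d + 2).choose 3 :=
      Nat.choose_succ_succ _ _
    have hj2 : j = 1 := by omega
    rw [hj2] at hq
    have h4 : (1 + 1 : ℕ).choose 2 = 1 := rfl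
    rw [h4] at hq
    rw [h2, h3]
    omega

theorem start (d : ℕ) (hd : 5 ≤ d) : bnd3 d (2 * d - 1) = 2 * d - 1 := by
  obtain ⟨T, hT⟩ : ∃ T, 2 * d - 1 = T + 1 := ⟨2 * d - 2, by omega⟩
  rw [hT]
  have h1 : bnd3 d (T + 1) = theta d (T + 1) := by
    rw [bnd3, if_pos hT.symm]
  rw [h1]
  have hk : (T + 1) / (d - 1) = 2 := Nat.div_eq_of_lt_le (by omega) (by omega)
  unfold theta
  rw [hk]
  have h2 : (2 + 1) * (d - 1) - (T + 1) + 2 = d := by omega
  rw [h2]
  obtain ⟨e, rfl⟩ : ∃ e, d = e + 1 := ⟨d - 1, by omega⟩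
  have h3 := two_choose (e + 2)
  have h4 := two_choose e
  have h5 : e + 2 + 1 = e + 1 + 2 := by ring
  rw [h5] at h3
  have h6 : (e + 1 + 2) * (e + 2) = (e + 1) * e + (4 * e + 6) := by ring
  rw [h6] at h3
  omega

theorem lower (d : ℕ) (hd : 5 ≤ d) (b : ℕ) (hb : b + 3 ≤ d) :
    2 * d + 2 + 3 * b ≤ bnd3 d (2 * d + b) := by
  induction b with
  | zero =>
    obtain ⟨T, hT⟩ : ∃ T, 2 * d - 1 = T := ⟨_, rfl⟩
    have h1 : 2 * d + 0 = T + 1 := by omega
    have h2 := theta_lo 0 d hd hb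
    have h3 := start d hd
    rw [hT] at h3
    rw [h1] at h2 ⊢
    have h4 : ¬ T + 1 = 2 * d - 1 := by omega
    rw [bnd3, if_neg h4, h3]
    have h5 : 2 ≤ (T + 1) / (d - 1) := (Nat.le_div_iff_mul_le (by omega)).2 (by omega)
    refine le_min h2 ?_
    omega
  | succ b ih =>
    have h1 := ih (by omega)
    have h2 := theta_lo (b + 1) d hd hb
    have h3 : 2 * d + (b + 1) = (2 * d + b) + 1 := by ring
    rw [h3] at h2 ⊢
    have h4 : ¬ (2 * d + b) + 1 = 2 * d - 1 := by omega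
    rw [bnd3, if_neg h4]
    have h5 : 2 ≤ ((2 * d + b) + 1) / (d - 1) :=
      (Nat.le_div_iff_mul_le (by omega)).2 (by omega)
    refine le_min h2 ?_
    omega

end CF3bX

theorem prf_CF3b : S_CF3b := by
  intro b d hd hb
  rcases Nat.lt_or_ge d 5 with h | h
  · have hd4 : d = 4 := by omega
    subst hd4
    have hb1 : b = 0 ∨ b = 1 := by omega
    rcases hb1 with rfl | rfl
    · decide
    · decide
  · exact (min_le_left _ _).trans (CF3bX.lower d h b hb)

end Pool.Agent.Work.MP_1233f5_ag.Y
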