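import Pool.Agent.Work.MP_1233f5_ag.Y.Defs

/-! MP_1233f5_ag, block Y: statements of the items, part L (sections, Lemma L). -/

set_option autoImplicit false

namespace Pool.Agent.Work.MP_1233f5_ag.Y

open Finset
open Pool.Agent.Work.MP_1233f5_ag.Sec (Fk wd ct ee ff hh IsSec IsDeg swd brk)

/-! ### representations -/

/-- generation by invariants and by vectors antisymmetric in two points. -/
def S_Rep1 : Prop :=
  ∀ (K : Type) [Field K] [CharZero K] (α : Type) [Fintype α] [DecidableEq α] (H : Type)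
    [AddCommGroup H] [Module K H] (ρ : Equiv.Perm α →* Module.End K H) (P : Finset α)
    (Z B : Submodule K H), (∀ σ, Sup P σ → ∀ z ∈ Z, ρ σ z ∈ Z) →
    (∀ σ, Sup P σ → ∀ z ∈ B, ρ σ z ∈ B) →
    (∀ z ∈ Z, (∀ σ, Sup P σ → ρ σ z = z) → z ∈ B) →
    (∀ u ∈ P, ∀ v ∈ P, u ≠ v → ∀ z ∈ Z, ρ (Equiv.swap u v) z = -z → z ∈ B) → Z ≤ B

/-- generation by vectors invariant under the stabilizers of subsets and by vectors antisymmetric
in three points. -/
def S_Rep2 : Prop :=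
  ∀ (K : Type) [Field K] [CharZero K] (α : Type) [Fintype α] [DecidableEq α] (H : Type)
    [AddCommGroup H] [Module K H] (ρ : Equiv.Perm α →* Module.End K H) (P : Finset α)
    (Z B : Submodule K H), (∀ σ, Sup P σ → ∀ z ∈ Z, ρ σ z ∈ Z) →
    (∀ σ, Sup P σ → ∀ z ∈ B, ρ σ z ∈ B) →
    (∀ Y ⊆ P, ∀ z ∈ Z, (∀ σ, StY P Y σ → ρ σ z = z) → z ∈ B) →
    (∀ Q ⊆ P, Q.card = 3 → ∀ z ∈ Z,
      (∀ σ, Sup Q σ → ρ σ z = ((Equiv.Perm.sign σ : ℤ) : K) • z) → z ∈ B) → Z ≤ B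

/-- one bracket suffices. -/
def S_F3 : Prop :=
  ∀ (K : Type) [Field K] [CharZero K] (α : Type) [Fintype α] [DecidableEq α] (H : Type)
    [AddCommGroup H] [Module K H] (ρ : Equiv.Perm α →* Module.End K H) (P : Finset α) (h : H)
    (u v : α), u ∈ P → v ∈ P → u ≠ v → ρ (Equiv.swap u v) h = -h →
    (∀ l ∈ P, l ≠ u → l ≠ v → h = ρ (Equiv.swap u l) h + ρ (Equiv.swap v l) h) →
    ∀ Q ⊆ P, Q.card = 3 → asym ρ Q h = 0

/-! ### sections -/

/-- the action of the permutations on sections. -/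
def S_SAct : Prop :=
  ∀ (K : Type) [Field K] [CharZero K] (α : Type) [Fintype α] [DecidableEq α] (r q : ℕ)
    (R : Finset α) (σ : Equiv.Perm α), ∀ s ∈ Sc K r q R, sact K α σ s ∈ Sc K r q (im σ R)

/-- the Plücker relation. -/
def S_Plk : Prop :=
  ∀ (K : Type) [Field K] (α : Type) [DecidableEq α] (u v l : α) (n : Finset α)
    (x : Finset α → Fk K), u ≠ v → u ≠ l → v ≠ l → u ∉ n → v ∉ n → l ∉ n →
    swd (insert l n) (brk u v x) + swd (insert u n) (brk v l x) + swd (insert v n) (brk l u x) = 0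

/-- sections antisymmetric in two points are multiples of the bracket. -/
def S_Div : Prop :=
  ∀ (K : Type) [Field K] [CharZero K] (α : Type) [Fintype α] [DecidableEq α] (r q : ℕ)
    (R : Finset α) (u v : α), u ∈ R → v ∈ R → u ≠ v → ∀ s ∈ Sc K r q R,
    sact K α (Equiv.swap u v) s = -s → ∃ x ∈ Sc K r q ((R.erase u).erase v), s = brk u v x

/-- sections antisymmetric in three points vanish. -/
def S_Tri : Prop :=
  ∀ (K : Type) [Field K] [CharZero K] (α : Type) [Fintype α] [DecidableEq α] (r q : ℕ)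
    (R Q : Finset α), Q.card = 3 → ∀ s ∈ Sc K r q R, asym (sact K α) Q s = 0

/-- sections invariant under the stabilizer of `Y` are determined by the value at `Y`. -/
def S_Det : Prop :=
  ∀ (K : Type) [Field K] [CharZero K] (α : Type) [Fintype α] [DecidableEq α] (r q : ℕ)
    (R Y : Finset α), Y ⊆ R → ∀ s ∈ Sc K r q R, (∀ σ, StY R Y σ → sact K α σ s = s) →
    s Y = 0 → s = 0

/-- many points: every section is a combination of multiples of brackets. -/
def S_Brs : Prop :=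
  ∀ (K : Type) [Field K] [CharZero K] (α : Type) [Fintype α] [DecidableEq α] (r q : ℕ)
    (R : Finset α), q * r < R.card + q * (q - 1) →
    Sc K r q R ≤ Submodule.span K {s | ∃ u v : α, u ∈ R ∧ v ∈ R ∧ u ≠ v ∧
      ∃ x ∈ Sc K r q ((R.erase u).erase v), s = brk u v x}

/-- existence of sections with given value at `Y`. -/
def S_Exist : Prop :=
  ∀ (K : Type) [Field K] [CharZero K] (α : Type) [Fintype α] [DecidableEq α] (r q : ℕ)
    (R Y : Finset α), Y ⊆ R → q * r ≤ R.card + q * (q - 1) → ∀ ε : Fk K, IsDeg r q ε →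
    hh K r ε = (2 * (Y.card : K) - R.card) • ε → ∃ s ∈ Sc K r q R, s Y = ε

/-- many points: every section is a combination of products with `r`-sets. -/
def S_Wsp : Prop :=
  ∀ (K : Type) [Field K] [CharZero K] (α : Type) [Fintype α] [DecidableEq α] (r k : ℕ)
    (R : Finset α), (k + 1) * r ≤ R.card + k * (k - 1) →
    Sc K r (k + 1) R ≤ Submodule.span K {s | ∃ g ⊆ R, g.card = r ∧
      ∃ x ∈ Sc K r k (R \ g), s = swd g x}

/-- no sections with values in `Λ^q`, `q > r + 1`. -/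
def S_Sz : Prop :=
  ∀ (K : Type) [Field K] [CharZero K] (α : Type) [DecidableEq α] (r q : ℕ)
    (R : Finset α), r + 1 < q → Sc K r q R = ⊥

/-- the stabilizer of `Y` acts transitively on the families of given types. -/
def S_Trans : Prop :=
  ∀ (α : Type) [Fintype α] [DecidableEq α] (ι : Type) (I : Finset ι) (P Y : Finset α)
    (n n' : ι → Finset α), Y ⊆ P → (∀ i ∈ I, n i ⊆ P) → (∀ i ∈ I, n' i ⊆ P) →
    (∀ i ∈ I, ∀ j ∈ I, i ≠ j → Disjoint (n i) (n j)) →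
    (∀ i ∈ I, ∀ j ∈ I, i ≠ j → Disjoint (n' i) (n' j)) →
    (∀ i ∈ I, (n i ∩ Y).card = (n' i ∩ Y).card) → (∀ i ∈ I, (n i).card = (n' i).card) →
    ∃ σ, StY P Y σ ∧ ∀ i ∈ I, im σ (n i) = n' i

/-- the linear algebra statement: exchange in `M` blocks kills everything if
`k + 1 + M ≥ r + 2`. -/
def S_LA : Prop :=
  ∀ (K : Type) [Field K] [CharZero K] (H : Type) [AddCommGroup H] [Module K H] (r k : ℕ)
    (I : Finset (ℕ × ℕ)) (f : (ℕ × ℕ → ℕ) → (Fk K →ₗ[K] H)),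
    r + 2 ≤ k + 1 + (I.image Prod.fst).card →
    (∀ j ∈ I.image Prod.fst, ∀ t : ℕ × ℕ → ℕ, (∀ i ∈ I, t i ≤ r) → (∀ i, i ∉ I → t i = 0) →
      ∀ s ≤ r, ∀ x, IsDeg r k x →
      f t (wd s x) + ∑ i ∈ sl I j, f (Function.update t i s) (wd (t i) x) = 0) →
    ∀ t : ℕ × ℕ → ℕ, (∀ i ∈ I, t i ≤ r) → (∀ i, i ∉ I → t i = 0) → ∀ x, IsDeg r (k + 1) x →
      f t x = 0

/-- the Koszul step. -/
def S_Kos : Prop :=
  ∀ (K : Type) [Field K] [CharZero K] (H : Type) [AddCommGroup H] [Module K H] (r k : ℕ)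
    (f : ℕ → (Fk K →ₗ[K] H)),
    (∀ s ≤ r, ∀ t ≤ r, ∀ x, IsDeg r k x → f t (wd s x) + f s (wd t x) = 0) →
    ∀ c : ℕ → Fk K, (∀ t ≤ r, IsDeg r (k + 1) (c t)) → ∑ t ∈ range (r + 1), wd t (c t) = 0 →
    ∑ t ∈ range (r + 1), f t (c t) = 0

/-! ### functionals -/

/-- the type of a family. -/
def tp {α : Type} [DecidableEq α] (I : Finset (ℕ × ℕ)) (Y : Finset α)
    (n : ℕ × ℕ → Finset α) : ℕ × ℕ → ℕ := fun i => if i ∈ I then (n i ∩ Y).card else 0

/-- symmetrized functionals depend only on the types and on the value of the section. -/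
def S_Phi : Prop :=
  ∀ (K : Type) [Field K] [CharZero K] (α : Type) [Fintype α] [DecidableEq α] (H : Type)
    [AddCommGroup H] [Module K H] (ρ : Equiv.Perm α →* Module.End K H) (r k : ℕ)
    (I : Finset (ℕ × ℕ)) (P Y : Finset α)
    (Φ : (ℕ × ℕ → Finset α) → ((Finset α → Fk K) →ₗ[K] H)), Adm ρ r k I P Φ → Y ⊆ P →
    ∃ φ : (ℕ × ℕ → ℕ) → (Fk K →ₗ[K] H), ∀ n, Cf r I P n → ∀ s ∈ Sc K r (k + 1) (rest I P n),
      symm ρ P Y (Φ n s) = φ (tp I Y n) (s (rest I Y n))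

/-- the same with exchange. -/
def S_Fex : Prop :=
  ∀ (K : Type) [Field K] [CharZero K] (α : Type) [Fintype α] [DecidableEq α] (H : Type)
    [AddCommGroup H] [Module K H] (ρ : Equiv.Perm α →* Module.End K H) (r k : ℕ)
    (I : Finset (ℕ × ℕ)) (P Y : Finset α)
    (Φ : (ℕ × ℕ → Finset α) → ((Finset α → Fk K) →ₗ[K] H)), Adm ρ r k I P Φ → Y ⊆ P →
    r * I.card + (k + 1) * r ≤ P.card + k * (k - 1) →
    ∃ f : (ℕ × ℕ → ℕ) → (Fk K →ₗ[K] H),
      (∀ n, Cf r I P n → ∀ s ∈ Sc K r (k + 1) (rest I P n),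
        symm ρ P Y (Φ n s) = f (tp I Y n) (s (rest I Y n))) ∧
      ∀ j ∈ I.image Prod.fst, ∀ t : ℕ × ℕ → ℕ, (∀ i ∈ I, t i ≤ r) → (∀ i, i ∉ I → t i = 0) →
        ∀ s ≤ r, ∀ x, IsDeg r k x →
        f t (wd s x) + ∑ i ∈ sl I j, f (Function.update t i s) (wd (t i) x) = 0

/-- the bracket relation for the letters of the slots. -/
def CycR {K : Type} [Field K] {α : Type} [DecidableEq α] {H : Type} [AddCommGroup H] [Module K H]
    (r k : ℕ) (I : Finset (ℕ × ℕ)) (P : Finset α)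
    (Φ : (ℕ × ℕ → Finset α) → ((Finset α → Fk K) →ₗ[K] H)) : Prop :=
  ∀ n, Cf r I P n → ∀ i ∈ I, ∀ l ∈ n i, ∀ u ∈ rest I P n, ∀ v ∈ rest I P n, u ≠ v →
    ∀ x ∈ Sc K r (k + 1) (((rest I P n).erase u).erase v),
    Φ n (brk u v x) + Φ (Function.update n i (insert u ((n i).erase l))) (brk v l x) +
      Φ (Function.update n i (insert v ((n i).erase l))) (brk l u x) = 0

/-- two rows. -/
def S_Two : Prop :=
  ∀ (K : Type) [Field K] [CharZero K] (α : Type) [Fintype α] [DecidableEq α] (H : Type)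
    [AddCommGroup H] [Module K H] (ρ : Equiv.Perm α →* Module.End K H) (r k : ℕ)
    (I : Finset (ℕ × ℕ)) (P : Finset α)
    (Φ : (ℕ × ℕ → Finset α) → ((Finset α → Fk K) →ₗ[K] H)), Adm ρ r k I P Φ →
    CycR r k I P Φ → r * I.card + (k + 1) * r < P.card + (k + 1) * k →
    ∀ n, Cf r I P n → ∀ s ∈ Sc K r (k + 1) (rest I P n), ∀ Q ⊆ P, Q.card = 3 →
      asym ρ Q (Φ n s) = 0

/-- merging a slot which is alone in its block: the functional of the other slots. -/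
def S_Mrg : Prop :=
  ∀ (K : Type) [Field K] [CharZero K] (α : Type) [Fintype α] [DecidableEq α] (H : Type)
    [AddCommGroup H] [Module K H] (ρ : Equiv.Perm α →* Module.End K H) (r k : ℕ)
    (P : Finset α) (i : ℕ × ℕ)
    (Φ : (ℕ × ℕ → Finset α) → ((Finset α → Fk K) →ₗ[K] H)), Adm ρ r k {i} P Φ →
    (k + 2) * r + 2 ≤ P.card + k * (k - 1) →
    ∃ Ψ : (Finset α → Fk K) →ₗ[K] H, ∀ n, Cf r {i} P n → ∀ s ∈ Sc K r (k + 1) (rest {i} P n),
      Φ n s = Ψ (swd (n i) s)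

/-- merging, with all slots. -/
def S_MrgA : Prop :=
  ∀ (K : Type) [Field K] [CharZero K] (α : Type) [Fintype α] [DecidableEq α] (H : Type)
    [AddCommGroup H] [Module K H] (ρ : Equiv.Perm α →* Module.End K H) (r k : ℕ)
    (I : Finset (ℕ × ℕ)) (P : Finset α) (i : ℕ × ℕ)
    (Φ : (ℕ × ℕ → Finset α) → ((Finset α → Fk K) →ₗ[K] H)), Adm ρ r k I P Φ → i ∈ I →
    sl I i.1 = {i} → r * I.card + (k + 1) * r + 2 ≤ P.card + k * (k - 1) →
    ∃ Ψ : (ℕ × ℕ → Finset α) → ((Finset α → Fk K) →ₗ[K] H), Adm ρ r (k + 1) (I.erase i) P Ψ ∧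
      ∀ n, Cf r I P n → ∀ s ∈ Sc K r (k + 1) (rest I P n), Φ n s = Ψ n (swd (n i) s)

/-- the frozen functional. -/
noncomputable def frz {K : Type} [Field K] {α : Type} [DecidableEq α] {H : Type}
    [AddCommGroup H] [Module K H] (i : ℕ × ℕ) (u v l : α) (g : Finset α)
    (Φ : (ℕ × ℕ → Finset α) → ((Finset α → Fk K) →ₗ[K] H)) :
    (ℕ × ℕ → Finset α) → (Finset α → Fk K) → H := fun n x =>
  Φ (Function.update n i (insert l g)) (brk u v x) +
    Φ (Function.update n i (insert u g)) (brk v l x) +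
    Φ (Function.update n i (insert v g)) (brk l u x)

/-- freezing a slot. -/
def S_Frz : Prop :=
  ∀ (K : Type) [Field K] [CharZero K] (α : Type) [Fintype α] [DecidableEq α] (H : Type)
    [AddCommGroup H] [Module K H] (ρ : Equiv.Perm α →* Module.End K H) (r k : ℕ)
    (I : Finset (ℕ × ℕ)) (P : Finset α) (i : ℕ × ℕ)
    (Φ : (ℕ × ℕ → Finset α) → ((Finset α → Fk K) →ₗ[K] H)), Adm ρ r k I P Φ → i ∈ I →
    ∀ (u v l : α) (g : Finset α), u ∈ P → v ∈ P → l ∈ P → g ⊆ P → u ≠ v → u ≠ l → v ≠ l →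
    u ∉ g → v ∉ g → l ∉ g → g.card + 1 = r →
    ∃ Ψ : (ℕ × ℕ → Finset α) → ((Finset α → Fk K) →ₗ[K] H),
      Adm ρ r k (I.erase i) (P \ (insert u (insert v (insert l g)))) Ψ ∧
      ∀ n x, Ψ n x = frz i u v l g Φ n x

/-- the last step: exchange and two rows. -/
def S_Fin : Prop :=
  ∀ (K : Type) [Field K] [CharZero K] (α : Type) [Fintype α] [DecidableEq α] (H : Type)
    [AddCommGroup H] [Module K H] (ρ : Equiv.Perm α →* Module.End K H) (r k : ℕ)
    (I : Finset (ℕ × ℕ)) (P : Finset α)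
    (Φ : (ℕ × ℕ → Finset α) → ((Finset α → Fk K) →ₗ[K] H)), Adm ρ r k I P Φ →
    r + 2 ≤ k + 1 + (I.image Prod.fst).card →
    r * I.card + (k + 1) * r ≤ P.card + k * (k - 1) →
    (∀ n, Cf r I P n → ∀ s ∈ Sc K r (k + 1) (rest I P n), ∀ Q ⊆ P, Q.card = 3 →
      asym ρ Q (Φ n s) = 0) →
    ∀ n, Cf r I P n → ∀ s ∈ Sc K r (k + 1) (rest I P n), Φ n s = 0

/-- Lemma L. -/
def S_LemL : Prop :=
  ∀ (K : Type) [Field K] [CharZero K] (α : Type) [Fintype α] [DecidableEq α] (H : Type)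
    [AddCommGroup H] [Module K H] (ρ : Equiv.Perm α →* Module.End K H) (r k : ℕ)
    (I : Finset (ℕ × ℕ)) (P : Finset α)
    (Φ : (ℕ × ℕ → Finset α) → ((Finset α → Fk K) →ₗ[K] H)), Adm ρ r k I P Φ →
    1 ≤ r → 1 ≤ k → r + 2 ≤ k + 1 + (I.image Prod.fst).card →
    r * I.card + (k + 1) * r + 2 * need I ≤ P.card + k * (k - 1) →
    ∀ n, Cf r I P n → ∀ s ∈ Sc K r (k + 1) (rest I P n), Φ n s = 0

/-! ### the core map -/

/-- sections over `2 a + q r` points are combinations of the sections of configurations. -/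
def S_Csp : Prop :=
  ∀ (K : Type) [Field K] [CharZero K] (α : Type) [Fintype α] [DecidableEq α] [Nonempty α]
    (r a q : ℕ) (R : Finset α), R.card = 2 * a + q * r →
    Sc K r q R = Submodule.span K {s | ∃ u v m, VC r R a q u v m ∧ s = sc a q u v m}

/-- from a function of configurations to a functional on sections. -/
def S_Core : Prop :=
  ∀ (K : Type) [Field K] [CharZero K] (α : Type) [Fintype α] [DecidableEq α] (H : Type)
    [AddCommGroup H] [Module K H] (ρ : Equiv.Perm α →* Module.End K H) (r a q : ℕ)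
    (R : Finset α) (f : (ℕ → α) → (ℕ → α) → (ℕ → Finset α) → H),
    (∀ u u' v v' m m', (∀ i < a, u i = u' i) → (∀ i < a, v i = v' i) → (∀ i < q, m i = m' i) →
      f u v m = f u' v' m') →
    (∀ σ, Sup R σ → ∀ u v m, VC r R a q u v m →
      f (fun i => σ (u i)) (fun i => σ (v i)) (fun i => im σ (m i)) = ρ σ (f u v m)) →
    (∀ i < a, ∀ u v m, VC r R a q u v m →
      f (Function.update u i (v i)) (Function.update v i (u i)) m = -f u v m) →
    (∀ i < q, ∀ j < q, i ≠ j → ∃ τ : Equiv.Perm ℕ, (∀ l, l < a ↔ τ l < a) ∧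
      ∀ u v m, VC r R a q u v m →
        f (u ∘ τ) (v ∘ τ) (m ∘ (Equiv.swap i j)) = -f u v m) →
    (∀ Q ⊆ R, Q.card = 3 → ∀ u v m, VC r R a q u v m → asym ρ Q (f u v m) = 0) →
    ∃ Φ : (Finset α → Fk K) →ₗ[K] H, ∀ u v m, VC r R a q u v m → Φ (sc a q u v m) = f u v m

end Pool.Agent.Work.MP_1233f5_ag.Y
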