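import Pool.Agent.Work.MP_1233f5_ag.Y.StmtsL

/-! MP_1233f5_ag, block Y, part L (captain helper95): common auxiliary facts. -/

set_option autoImplicit false

set_option linter.unusedSectionVars false

namespace Pool.Agent.Work.MP_1233f5_ag.Y.U

open Finset
open Pool.Agent.Work.MP_1233f5_ag.Sec (Fk wd ct ee ff hh IsSec IsDeg swd brk)

/-! ### permutations -/

section perm

variable {α : Type}

theorem inv_app (σ : Equiv.Perm α) (a : α) : σ⁻¹ (σ a) = a := σ.symm_apply_apply a

theorem app_inv (σ : Equiv.Perm α) (a : α) : σ (σ⁻¹ a) = a := σ.apply_symm_apply a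

theorem sup_one (P : Finset α) : Sup P (1 : Equiv.Perm α) := fun _ _ => rfl

theorem sup_mul {P : Finset α} {σ τ : Equiv.Perm α} (h1 : Sup P σ) (h2 : Sup P τ) :
    Sup P (σ * τ) := fun a ha => by
  rw [Equiv.Perm.mul_apply, h2 a ha, h1 a ha]

theorem sup_inv {P : Finset α} {σ : Equiv.Perm α} (h1 : Sup P σ) : Sup P σ⁻¹ := fun a ha => by
  rw [Equiv.Perm.inv_eq_iff_eq, h1 a ha]

theorem sup_mono {P P' : Finset α} (h : P ⊆ P') {σ : Equiv.Perm α} (h1 : Sup P σ) :
    Sup P' σ := fun a ha => h1 a (fun hc => ha (h hc))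

theorem sup_mem {P : Finset α} {σ : Equiv.Perm α} (h : Sup P σ) {a : α} (ha : a ∈ P) :
    σ a ∈ P := by
  by_contra hc
  have h1 := h _ hc
  rw [σ.injective h1] at hc
  exact hc ha

theorem sup_mem_iff {P : Finset α} {σ : Equiv.Perm α} (h : Sup P σ) (a : α) :
    σ a ∈ P ↔ a ∈ P := by
  refine ⟨fun h1 => ?_, sup_mem h⟩
  have h2 := sup_mem (sup_inv h) h1
  rwa [inv_app] at h2

theorem im_eq_of_fix {σ : Equiv.Perm α} {Y : Finset α} (h : ∀ a ∈ Y, σ a = a) : im σ Y = Y := by
  ext a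
  rw [mem_im]
  constructor
  · intro h1
    have h2 := h _ h1
    rw [app_inv] at h2
    rw [h2]
    exact h1
  · intro h1
    rw [Equiv.Perm.inv_eq_iff_eq.2 (h a h1).symm]
    exact h1

theorem sup_im {P : Finset α} {σ : Equiv.Perm α} (h : Sup P σ) : im σ P = P := by
  ext a
  rw [mem_im]
  exact sup_mem_iff (sup_inv h) a

theorem sup_im_disj {P Y : Finset α} {σ : Equiv.Perm α} (h : Sup P σ) (hd : Disjoint Y P) :
    im σ Y = Y := im_eq_of_fix fun _ ha => h _ (fun hc => (Finset.disjoint_left.1 hd) ha hc)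

theorem im_inv_im (σ : Equiv.Perm α) (Y : Finset α) : im σ⁻¹ (im σ Y) = Y := by
  rw [← im_mul, inv_mul_cancel, im_one]

theorem im_im_inv (σ : Equiv.Perm α) (Y : Finset α) : im σ (im σ⁻¹ Y) = Y := by
  rw [← im_mul, mul_inv_cancel, im_one]

theorem im_sub_im {σ : Equiv.Perm α} {X Y : Finset α} (h : X ⊆ Y) : im σ X ⊆ im σ Y :=
  Finset.map_subset_map.2 h

theorem im_sub {P Y : Finset α} {σ : Equiv.Perm α} (h : Sup P σ) (hY : Y ⊆ P) : im σ Y ⊆ P := by
  rw [← sup_im h]
  exact im_sub_im hY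

theorem im_disj {σ : Equiv.Perm α} {X Y : Finset α} (h : Disjoint X Y) :
    Disjoint (im σ X) (im σ Y) := (Finset.disjoint_map _).2 h

theorem im_empty (σ : Equiv.Perm α) : im σ (∅ : Finset α) = ∅ := Finset.map_empty _

theorem sty_one (P Y : Finset α) : StY P Y (1 : Equiv.Perm α) := ⟨sup_one P, im_one Y⟩

theorem sty_mul {P Y : Finset α} {σ τ : Equiv.Perm α} (h1 : StY P Y σ) (h2 : StY P Y τ) :
    StY P Y (σ * τ) := ⟨sup_mul h1.1 h2.1, by rw [im_mul, h2.2, h1.2]⟩

theorem sty_inv {P Y : Finset α} {σ : Equiv.Perm α} (h1 : StY P Y σ) : StY P Y σ⁻¹ :=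
  ⟨sup_inv h1.1, by nth_rw 1 [← h1.2]; exact im_inv_im σ Y⟩

theorem sty_mem_iff {P Y : Finset α} {σ : Equiv.Perm α} (h : StY P Y σ) (a : α) :
    σ a ∈ Y ↔ a ∈ Y := by
  nth_rw 1 [← h.2]
  rw [mem_im, inv_app]

end perm

section perm2

variable {α : Type} [DecidableEq α]

theorem sup_swap {P : Finset α} {u v : α} (hu : u ∈ P) (hv : v ∈ P) :
    Sup P (Equiv.swap u v) := fun _ ha =>
  Equiv.swap_apply_of_ne_of_ne (fun h => ha (h ▸ hu)) (fun h => ha (h ▸ hv))

theorem sty_swap {P Y : Finset α} {u v : α} (hu : u ∈ P) (hv : v ∈ P) (h : u ∈ Y ↔ v ∈ Y) :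
    StY P Y (Equiv.swap u v) := by
  refine ⟨sup_swap hu hv, ?_⟩
  ext a
  rw [mem_im, Equiv.swap_inv]
  by_cases h1 : a = u
  · rw [h1, Equiv.swap_apply_left]
    exact h.symm
  · by_cases h2 : a = v
    · rw [h2, Equiv.swap_apply_right]
      exact h
    · rw [Equiv.swap_apply_of_ne_of_ne h1 h2]

theorem im_inter (σ : Equiv.Perm α) (X Y : Finset α) : im σ (X ∩ Y) = im σ X ∩ im σ Y := by
  ext a
  simp only [mem_im, mem_inter]

theorem im_sdiff (σ : Equiv.Perm α) (X Y : Finset α) : im σ (X \ Y) = im σ X \ im σ Y := by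
  ext a
  simp only [mem_im, mem_sdiff]

theorem im_union (σ : Equiv.Perm α) (X Y : Finset α) : im σ (X ∪ Y) = im σ X ∪ im σ Y := by
  ext a
  simp only [mem_im, mem_union]

theorem im_insert (σ : Equiv.Perm α) (b : α) (Y : Finset α) :
    im σ (insert b Y) = insert (σ b) (im σ Y) := by
  ext a
  simp only [mem_im, mem_insert]
  rw [Equiv.Perm.inv_eq_iff_eq]

theorem im_erase (σ : Equiv.Perm α) (b : α) (Y : Finset α) :
    im σ (Y.erase b) = (im σ Y).erase (σ b) := by
  ext a
  simp only [mem_im, mem_erase, ne_eq]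
  rw [Equiv.Perm.inv_eq_iff_eq]

theorem im_biUnion {ι : Type} (σ : Equiv.Perm α) (I : Finset ι) (n : ι → Finset α) :
    im σ (I.biUnion n) = I.biUnion (fun i => im σ (n i)) := by
  ext a
  simp only [mem_im, mem_biUnion]

theorem sty_im_inter {P Y : Finset α} {σ : Equiv.Perm α} (h : StY P Y σ) (X : Finset α) :
    (im σ X ∩ Y).card = (X ∩ Y).card := by
  nth_rw 1 [← h.2]
  rw [← im_inter, card_im]

end perm2

/-! ### sums over permutations -/

section sums

variable {α : Type} [Fintype α] {K : Type} [Field K] {H : Type} [AddCommGroup H] [Module K H]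
  (ρ : Equiv.Perm α →* Module.End K H)

open Classical in
theorem symm_apply (P Y : Finset α) (h : H) : symm ρ P Y h =
    ∑ σ ∈ univ.filter (fun σ : Equiv.Perm α => StY P Y σ), ρ σ h := by
  unfold symm
  rw [LinearMap.sum_apply]

open Classical in
theorem asym_apply [DecidableEq α] (Q : Finset α) (h : H) : asym ρ Q h =
    ∑ σ ∈ univ.filter (fun σ : Equiv.Perm α => Sup Q σ),
      ((Equiv.Perm.sign σ : ℤ) : K) • ρ σ h := by
  have hI : ‹DecidableEq α› = fun a b => Classical.propDecidable (a = b) :=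
    Subsingleton.elim _ _
  subst hI
  unfold asym
  rw [LinearMap.sum_apply]
  rfl

theorem symm_rho {P Y : Finset α} {τ : Equiv.Perm α} (hτ : StY P Y τ) (h : H) :
    symm ρ P Y (ρ τ h) = symm ρ P Y h := by
  classical
  rw [symm_apply, symm_apply]
  refine sum_nbij' (fun σ => σ * τ) (fun σ => σ * τ⁻¹) ?_ ?_ ?_ ?_ ?_
  · intro σ hσ
    simp only [mem_filter, mem_univ, true_and] at hσ ⊢
    exact sty_mul hσ hτ
  · intro σ hσ
    simp only [mem_filter, mem_univ, true_and] at hσ ⊢
    exact sty_mul hσ (sty_inv hτ)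
  · intro σ _
    exact mul_inv_cancel_right σ τ
  · intro σ _
    exact inv_mul_cancel_right σ τ
  · intro σ _
    rw [map_mul, Module.End.mul_apply]

theorem rho_symm {P Y : Finset α} {τ : Equiv.Perm α} (hτ : StY P Y τ) (h : H) :
    ρ τ (symm ρ P Y h) = symm ρ P Y h := by
  classical
  rw [symm_apply, map_sum]
  refine sum_nbij' (fun σ => τ * σ) (fun σ => τ⁻¹ * σ) ?_ ?_ ?_ ?_ ?_
  · intro σ hσ
    simp only [mem_filter, mem_univ, true_and] at hσ ⊢
    exact sty_mul hτ hσ
  · intro σ hσ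
    simp only [mem_filter, mem_univ, true_and] at hσ ⊢
    exact sty_mul (sty_inv hτ) hσ
  · intro σ _
    exact inv_mul_cancel_left τ σ
  · intro σ _
    exact mul_inv_cancel_left τ σ
  · intro σ _
    rw [map_mul, Module.End.mul_apply]

/-- `symm` of an invariant vector. -/
theorem symm_of_inv [CharZero K] (P Y : Finset α) : ∃ N : K, N ≠ 0 ∧ ∀ h : H,
    (∀ σ, StY P Y σ → ρ σ h = h) → symm ρ P Y h = N • h := by
  classical
  refine ⟨((univ.filter (fun σ : Equiv.Perm α => StY P Y σ)).card : K), ?_, ?_⟩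
  · refine Nat.cast_ne_zero.2 (Nat.pos_iff_ne_zero.1 (card_pos.2 ⟨1, ?_⟩))
    simp only [mem_filter, mem_univ, true_and]
    exact sty_one P Y
  · intro h hh
    rw [symm_apply, sum_congr rfl (fun σ hσ => hh σ (mem_filter.1 hσ).2), sum_const,
      Nat.cast_smul_eq_nsmul]

/-- `asym` of an antisymmetric vector. -/
theorem asym_of_anti [CharZero K] [DecidableEq α] (Q : Finset α) : ∃ N : K, N ≠ 0 ∧ ∀ h : H,
    (∀ σ, Sup Q σ → ρ σ h = ((Equiv.Perm.sign σ : ℤ) : K) • h) → asym ρ Q h = N • h := by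
  classical
  refine ⟨((univ.filter (fun σ : Equiv.Perm α => Sup Q σ)).card : K), ?_, ?_⟩
  · refine Nat.cast_ne_zero.2 (Nat.pos_iff_ne_zero.1 (card_pos.2 ⟨1, ?_⟩))
    simp only [mem_filter, mem_univ, true_and]
    exact sup_one Q
  · intro h hh
    have h1 : ∀ σ : Equiv.Perm α, Sup Q σ →
        ((Equiv.Perm.sign σ : ℤ) : K) • ρ σ h = h := by
      intro σ hσ
      have h3 : ((Equiv.Perm.sign σ : ℤ) : K) * ((Equiv.Perm.sign σ : ℤ) : K) = 1 := by
        rw [← Int.cast_mul, Int.units_coe_mul_self, Int.cast_one]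
      rw [hh σ hσ, smul_smul, h3, one_smul]
    rw [asym_apply, sum_congr rfl (fun σ hσ => h1 σ (mem_filter.1 hσ).2), sum_const,
      Nat.cast_smul_eq_nsmul]

end sums


/-! ### sections -/

section sections

variable {K : Type} [Field K] {α : Type}

theorem sact_apply (σ : Equiv.Perm α) (s : Finset α → Fk K) (Y : Finset α) :
    sact K α σ s Y = s (im σ⁻¹ Y) := rfl

variable [DecidableEq α]

/-- `swd` as a linear map. -/
def swdL (g : Finset α) : (Finset α → Fk K) →ₗ[K] (Finset α → Fk K) where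
  toFun := swd g
  map_add' := fun x y => by
    funext Y
    exact map_add (wd (g ∩ Y).card) _ _
  map_smul' := fun c x => by
    funext Y
    exact map_smul (wd (g ∩ Y).card) _ _

theorem swdL_apply (g : Finset α) (x : Finset α → Fk K) : swdL g x = swd g x := rfl

/-- `brk` as a linear map. -/
noncomputable def brkL (u v : α) : (Finset α → Fk K) →ₗ[K] (Finset α → Fk K) where
  toFun := brk u v
  map_add' := fun x y => by
    funext Y
    simp only [brk, Pi.add_apply]
    split_ifs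
    · rfl
    · rw [neg_add]
    · rw [add_zero]
  map_smul' := fun c x => by
    funext Y
    simp only [brk, Pi.smul_apply, RingHom.id_apply]
    split_ifs
    · rfl
    · rw [smul_neg]
    · rw [smul_zero]

theorem brkL_apply (u v : α) (x : Finset α → Fk K) : brkL u v x = brk u v x := rfl

theorem swd_val (g : Finset α) (x : Finset α → Fk K) (Y : Finset α) :
    swd g x Y = wd (g ∩ Y).card (x (Y \ g)) := rfl

theorem swd_swd' {g g' : Finset α} (hd : Disjoint g g') (x : Finset α → Fk K) :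
    swd g (swd g' x) = -swd g' (swd g x) := by
  funext Y
  exact Sec.swd_swd hd x Y

theorem brk_swd' {g : Finset α} {u v : α} (hu : u ∉ g) (hv : v ∉ g) (x : Finset α → Fk K) :
    brk u v (swd g x) = swd g (brk u v x) := by
  funext Y
  exact Sec.brk_swd hu hv x Y

theorem brk_neg (u v : α) (x : Finset α → Fk K) : brk v u x = -brk u v x := by
  funext Y
  simp only [brk, Pi.neg_apply]
  by_cases h1 : u ∈ Y <;> by_cases h2 : v ∈ Y <;> simp [h1, h2]

theorem sact_swd (σ : Equiv.Perm α) (g : Finset α) (x : Finset α → Fk K) :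
    sact K α σ (swd g x) = swd (im σ g) (sact K α σ x) := by
  funext Y
  rw [sact_apply, swd_val, swd_val, sact_apply]
  have h1 : im σ (g ∩ im σ⁻¹ Y) = im σ g ∩ Y := by rw [im_inter, im_im_inv]
  have h2 : im σ⁻¹ (Y \ im σ g) = im σ⁻¹ Y \ g := by rw [im_sdiff, im_inv_im]
  rw [h2, ← card_im σ (g ∩ im σ⁻¹ Y), h1]

theorem sact_brk (σ : Equiv.Perm α) (u v : α) (x : Finset α → Fk K) :
    sact K α σ (brk u v x) = brk (σ u) (σ v) (sact K α σ x) := by
  funext Y
  rw [sact_apply]
  have h1 : ∀ a, a ∈ im σ⁻¹ Y ↔ σ a ∈ Y := fun a => by rw [mem_im, inv_inv]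
  have h2 : ∀ a, (im σ⁻¹ Y).erase a = im σ⁻¹ (Y.erase (σ a)) := fun a => by
    rw [im_erase, inv_app]
  simp only [brk, h1, h2, sact_apply]

theorem sact_fix {σ : Equiv.Perm α} {r q : ℕ} {R : Finset α} (hσ : ∀ a ∈ R, σ a = a)
    {x : Finset α → Fk K} (hx : x ∈ Sc K r q R) : sact K α σ x = x := by
  funext Y
  rw [sact_apply]
  by_cases hY : Y ⊆ R
  · have h1 : im σ⁻¹ Y = Y := im_eq_of_fix fun a ha => by
      rw [Equiv.Perm.inv_eq_iff_eq, hσ a (hY ha)]
    rw [h1]
  · rw [hx.1.supp Y hY, hx.1.supp]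
    intro h2
    apply hY
    have h3 : im σ (im σ⁻¹ Y) = im σ⁻¹ Y := im_eq_of_fix fun a ha => hσ a (h2 ha)
    rw [im_im_inv] at h3
    rw [h3]
    exact h2

theorem swd_mem {r k : ℕ} {R g : Finset α} {x : Finset α → Fk K} (hg : g.card = r)
    (hd : Disjoint R g) (hx : x ∈ Sc K r k R) : swd g x ∈ Sc K r (k + 1) (R ∪ g) :=
  ⟨hx.1.swd hg hd, fun Y => IsDeg.swd hg hx.2 Y⟩

theorem swd_mem' {r k : ℕ} {R g : Finset α} {x : Finset α → Fk K} (hg : g.card = r)
    (hs : g ⊆ R) (hx : x ∈ Sc K r k (R \ g)) : swd g x ∈ Sc K r (k + 1) R := by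
  have h := swd_mem hg sdiff_disjoint hx
  rwa [sdiff_union_of_subset hs] at h

theorem brk_mem {r k : ℕ} {R : Finset α} {u v : α} {x : Finset α → Fk K} (huv : u ≠ v)
    (hu : u ∉ R) (hv : v ∉ R) (hx : x ∈ Sc K r k R) :
    brk u v x ∈ Sc K r k (insert u (insert v R)) :=
  ⟨IsSec.brk huv hu hv hx.1, fun Y => IsDeg.brk hx.2 Y⟩

theorem brk_mem' {r k : ℕ} {R : Finset α} {u v : α} {x : Finset α → Fk K} (huv : u ≠ v)
    (hu : u ∈ R) (hv : v ∈ R) (hx : x ∈ Sc K r k ((R.erase u).erase v)) :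
    brk u v x ∈ Sc K r k R := by
  have h := brk_mem huv (fun h1 => (mem_erase.1 (mem_erase.1 h1).2).1 rfl)
    (fun h1 => (mem_erase.1 h1).1 rfl) hx
  rwa [insert_erase (mem_erase.2 ⟨huv.symm, hv⟩), insert_erase hu] at h

end sections

/-! ### families -/

section families

variable {α : Type} [DecidableEq α] {r : ℕ} {I : Finset (ℕ × ℕ)} {P : Finset α}
  {n : ℕ × ℕ → Finset α}

theorem mem_rest (a : α) : a ∈ rest I P n ↔ a ∈ P ∧ ∀ i ∈ I, a ∉ n i := by
  unfold rest
  rw [mem_sdiff, mem_biUnion]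
  simp only [not_exists, not_and]

theorem rest_sub : rest I P n ⊆ P := sdiff_subset

theorem rest_disj {i : ℕ × ℕ} (hi : i ∈ I) : Disjoint (rest I P n) (n i) := by
  rw [Finset.disjoint_left]
  intro a h1 h2
  exact (mem_rest a).1 h1 |>.2 i hi h2

theorem rest_inter {Y : Finset α} (hY : Y ⊆ P) : rest I Y n = rest I P n ∩ Y := by
  ext a
  rw [mem_inter, mem_rest, mem_rest]
  exact ⟨fun h => ⟨⟨hY h.1, h.2⟩, h.1⟩, fun h => ⟨h.2, h.1.2⟩⟩

theorem rest_congr {n' : ℕ × ℕ → Finset α} (h : ∀ i ∈ I, n i = n' i) :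
    rest I P n = rest I P n' := by
  ext a
  rw [mem_rest, mem_rest]
  exact ⟨fun t => ⟨t.1, fun i hi => h i hi ▸ t.2 i hi⟩,
    fun t => ⟨t.1, fun i hi => (h i hi).symm ▸ t.2 i hi⟩⟩

theorem card_rest (h : Cf r I P n) : (rest I P n).card + r * I.card = P.card := by
  unfold rest
  have h1 : (I.biUnion n).card = r * I.card := by
    rw [card_biUnion (fun i hi j hj hij => h.2 i hi j hj hij), sum_congr rfl (fun i hi => (h.1 i hi).1),
      sum_const, smul_eq_mul, mul_comm]
  have h2 : I.biUnion n ⊆ P := biUnion_subset.2 fun i hi => (h.1 i hi).2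
  rw [← h1, card_sdiff_of_subset h2]
  have := card_le_card h2
  omega

/-- the number of points of `Y` not covered. -/
theorem card_rest_Y {Y : Finset α} (h : Cf r I P n) :
    (rest I Y n).card + ∑ i ∈ I, (n i ∩ Y).card = Y.card := by
  have h1 : Y \ I.biUnion n = Y \ I.biUnion (fun i => n i ∩ Y) := by
    ext a
    simp only [mem_sdiff, mem_biUnion, mem_inter, not_exists, not_and]
    exact ⟨fun t => ⟨t.1, fun i hi hn _ => t.2 i hi hn⟩, fun t => ⟨t.1, fun i hi hn => t.2 i hi hn t.1⟩⟩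
  have h2 : I.biUnion (fun i => n i ∩ Y) ⊆ Y := biUnion_subset.2 fun i _ => inter_subset_right
  have h3 : (I.biUnion (fun i => n i ∩ Y)).card = ∑ i ∈ I, (n i ∩ Y).card :=
    card_biUnion fun i hi j hj hij => (h.2 i hi j hj hij).mono inter_subset_left inter_subset_left
  unfold rest
  rw [h1, card_sdiff_of_subset h2, ← h3]
  have := card_le_card h2
  omega

theorem cf_congr {n' : ℕ × ℕ → Finset α} (h : ∀ i ∈ I, n i = n' i) (hc : Cf r I P n) :
    Cf r I P n' :=
  ⟨fun i hi => h i hi ▸ hc.1 i hi, fun i hi j hj hij => h i hi ▸ h j hj ▸ hc.2 i hi j hj hij⟩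

theorem cf_im {σ : Equiv.Perm α} (hσ : Sup P σ) (h : Cf r I P n) :
    Cf r I P (fun i => im σ (n i)) :=
  ⟨fun i hi => ⟨by rw [card_im, (h.1 i hi).1], im_sub hσ (h.1 i hi).2⟩,
    fun i hi j hj hij => im_disj (h.2 i hi j hj hij)⟩

theorem rest_im {σ : Equiv.Perm α} (hσ : Sup P σ) :
    rest I P (fun i => im σ (n i)) = im σ (rest I P n) := by
  unfold rest
  rw [im_sdiff, im_biUnion, sup_im hσ]

theorem rest_im_Y {σ : Equiv.Perm α} {Y : Finset α} (hσ : StY P Y σ) :
    rest I Y (fun i => im σ (n i)) = im σ (rest I Y n) := by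
  unfold rest
  rw [im_sdiff, im_biUnion, hσ.2]

theorem update_im (σ : Equiv.Perm α) (i : ℕ × ℕ) (m : Finset α) :
    (fun j => im σ (Function.update n i m j)) =
      Function.update (fun j => im σ (n j)) i (im σ m) := by
  funext j
  by_cases h : j = i
  · rw [h, Function.update_self, Function.update_self]
  · rw [Function.update_of_ne h, Function.update_of_ne h]

/-- replacing one set by a set of free points. -/
theorem cf_update {i : ℕ × ℕ} {m : Finset α} (h : Cf r I P n) (hm : m ⊆ rest I P n)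
    (hc : m.card = r) : Cf r I P (Function.update n i m) := by
  have hd : ∀ j ∈ I, Disjoint m (n j) := fun j hj => (rest_disj hj).mono_left hm
  refine ⟨fun j hj => ?_, fun j hj j' hj' hjj => ?_⟩
  · by_cases hji : j = i
    · rw [hji, Function.update_self]
      exact ⟨hc, hm.trans rest_sub⟩
    · rw [Function.update_of_ne hji]
      exact h.1 j hj
  · by_cases h1 : j = i
    · have h2 : j' ≠ i := fun t => hjj (h1.trans t.symm)
      rw [h1, Function.update_self, Function.update_of_ne h2]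
      exact hd j' hj'
    · rw [Function.update_of_ne h1]
      by_cases h2 : j' = i
      · rw [h2, Function.update_self]
        exact (hd j hj).symm
      · rw [Function.update_of_ne h2]
        exact h.2 j hj j' hj' hjj

theorem rest_update {i : ℕ × ℕ} {m : Finset α} (hi : i ∈ I) (h : Cf r I P n)
    (hm : m ⊆ rest I P n) :
    rest I P (Function.update n i m) = (rest I P n \ m) ∪ n i := by
  ext a
  rw [mem_union, mem_sdiff, mem_rest, mem_rest]
  constructor
  · rintro ⟨h1, h2⟩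
    have h3 := h2 i hi
    rw [Function.update_self] at h3
    by_cases h4 : a ∈ n i
    · exact Or.inr h4
    · refine Or.inl ⟨⟨h1, fun j hj => ?_⟩, h3⟩
      by_cases hji : j = i
      · rw [hji]
        exact h4
      · have := h2 j hj
        rwa [Function.update_of_ne hji] at this
  · rintro (⟨⟨h1, h2⟩, h3⟩ | h1)
    · refine ⟨h1, fun j hj => ?_⟩
      by_cases hji : j = i
      · rw [hji, Function.update_self]
        exact h3
      · rw [Function.update_of_ne hji]
        exact h2 j hj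
    · refine ⟨(h.1 i hi).2 h1, fun j hj => ?_⟩
      by_cases hji : j = i
      · rw [hji, Function.update_self]
        intro hc
        exact (Finset.disjoint_left.1 (rest_disj hi)) (hm hc) h1
      · rw [Function.update_of_ne hji]
        exact fun hc => (Finset.disjoint_left.1 (h.2 i hi j hj (Ne.symm hji))) h1 hc

theorem cf_erase (i : ℕ × ℕ) (h : Cf r I P n) : Cf r (I.erase i) P n :=
  ⟨fun j hj => h.1 j (mem_of_mem_erase hj),
    fun j hj j' hj' => h.2 j (mem_of_mem_erase hj) j' (mem_of_mem_erase hj')⟩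

theorem rest_erase {i : ℕ × ℕ} (hi : i ∈ I) (h : Cf r I P n) :
    rest (I.erase i) P n = rest I P n ∪ n i := by
  ext a
  rw [mem_union, mem_rest, mem_rest]
  constructor
  · rintro ⟨h1, h2⟩
    by_cases h4 : a ∈ n i
    · exact Or.inr h4
    · refine Or.inl ⟨h1, fun j hj => ?_⟩
      by_cases hji : j = i
      · rw [hji]
        exact h4
      · exact h2 j (mem_erase.2 ⟨hji, hj⟩)
  · rintro (⟨h1, h2⟩ | h1)
    · exact ⟨h1, fun j hj => h2 j (mem_of_mem_erase hj)⟩
    · exact ⟨(h.1 i hi).2 h1, fun j hj hc => (Finset.disjoint_left.1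
        (h.2 i hi j (mem_of_mem_erase hj) (Ne.symm (ne_of_mem_erase hj)))) h1 hc⟩

/-- filling the slot `i`. -/
theorem cf_insert {i : ℕ × ℕ} {m : Finset α} (h : Cf r (I.erase i) P n)
    (hm : m ⊆ rest (I.erase i) P n) (hc : m.card = r) : Cf r I P (Function.update n i m) := by
  have hd : ∀ j ∈ I, j ≠ i → Disjoint m (n j) := fun j hj hji =>
    (rest_disj (mem_erase.2 ⟨hji, hj⟩)).mono_left hm
  refine ⟨fun j hj => ?_, fun j hj j' hj' hjj => ?_⟩
  · by_cases hji : j = i
    · rw [hji, Function.update_self]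
      exact ⟨hc, hm.trans rest_sub⟩
    · rw [Function.update_of_ne hji]
      exact h.1 j (mem_erase.2 ⟨hji, hj⟩)
  · by_cases h1 : j = i
    · have h2 : j' ≠ i := fun t => hjj (h1.trans t.symm)
      rw [h1, Function.update_self, Function.update_of_ne h2]
      exact hd j' hj' h2
    · rw [Function.update_of_ne h1]
      by_cases h2 : j' = i
      · rw [h2, Function.update_self]
        exact (hd j hj h1).symm
      · rw [Function.update_of_ne h2]
        exact h.2 j (mem_erase.2 ⟨h1, hj⟩) j' (mem_erase.2 ⟨h2, hj'⟩) hjj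

theorem rest_insert {i : ℕ × ℕ} {m : Finset α} (hi : i ∈ I) :
    rest I P (Function.update n i m) = rest (I.erase i) P n \ m := by
  ext a
  rw [mem_sdiff, mem_rest, mem_rest]
  constructor
  · rintro ⟨h1, h2⟩
    refine ⟨⟨h1, fun j hj => ?_⟩, ?_⟩
    · have := h2 j (mem_of_mem_erase hj)
      rwa [Function.update_of_ne (ne_of_mem_erase hj)] at this
    · have := h2 i hi
      rwa [Function.update_self] at this
  · rintro ⟨⟨h1, h2⟩, h3⟩
    refine ⟨h1, fun j hj => ?_⟩
    by_cases hji : j = i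
    · rw [hji, Function.update_self]
      exact h3
    · rw [Function.update_of_ne hji]
      exact h2 j (mem_erase.2 ⟨hji, hj⟩)

end families

end Pool.Agent.Work.MP_1233f5_ag.Y.U
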