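import Pool.Agent.Work.MP_1233f5_ag.Y.Defs

/-! MP_1233f5_ag, block Y: basic facts on the exterior algebra of sets. -/

set_option autoImplicit false
set_option linter.unusedSectionVars false

namespace Pool.Agent.Work.MP_1233f5_ag.Y

open Finset
open Pool.Agent.Work.MP_1233f5_ag.V (vm ML)

section formal
variable {K : Type} [Field K] {α : Type}

theorem ed_sq (e : Finset α) : (ed e : Lx K α) * ed e = 0 :=
  ExteriorAlgebra.ι_sq_zero _

theorem ed_mul_ed (e e' : Finset α) : (ed e : Lx K α) * ed e' = -(ed e' * ed e) := by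
  have h := ExteriorAlgebra.ι_add_mul_swap (R := K) (Finsupp.single e (1 : K))
    (Finsupp.single e' (1 : K))
  exact eq_neg_of_add_eq_zero_left h

theorem mo_zero (t : Fin 0 → Finset α) : (mo t : Lx K α) = 1 := by
  unfold mo
  rw [ExteriorAlgebra.ιMulti_zero_apply]

theorem mo_succ {p : ℕ} (t : Fin (p + 1) → Finset α) :
    (mo t : Lx K α) = ed (t 0) * mo (Fin.tail t) := by
  unfold mo
  rw [ExteriorAlgebra.ιMulti_succ_apply]
  rfl

theorem mo_cons {p : ℕ} (e : Finset α) (t : Fin p → Finset α) :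
    (mo (Fin.cons e t : Fin (p + 1) → Finset α) : Lx K α) = ed e * mo t := by
  rw [mo_succ, Fin.cons_zero, Fin.tail_cons]

theorem mo_perm {p : ℕ} (t : Fin p → Finset α) (σ : Equiv.Perm (Fin p)) :
    (mo (t ∘ σ) : Lx K α) = ((Equiv.Perm.sign σ : ℤ) : K) • mo t := by
  unfold mo
  have h := AlternatingMap.map_perm (ExteriorAlgebra.ιMulti K p (M := Finset α →₀ K))
    (fun i => Finsupp.single (t i) (1 : K)) σ
  rw [Int.cast_smul_eq_zsmul]
  exact h

theorem mo_eq_zero {p : ℕ} (t : Fin p → Finset α) (i j : Fin p) (hij : i ≠ j) (h : t i = t j) :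
    (mo t : Lx K α) = 0 := by
  unfold mo
  refine AlternatingMap.map_eq_zero_of_eq _ _ (i := i) (j := j) ?_ hij
  simp only [h]

theorem ctr_one (f : (Finset α →₀ K) →ₗ[K] K) : ctr f (1 : Lx K α) = 0 :=
  CliffordAlgebra.contractLeft_one (Q := (0 : QuadraticForm K (Finset α →₀ K))) f

theorem ctr_ed_mul (f : (Finset α →₀ K) →ₗ[K] K) (e : Finset α) (x : Lx K α) :
    ctr f (ed e * x) = f (Finsupp.single e 1) • x - ed e * ctr f x :=
  CliffordAlgebra.contractLeft_ι_mul (Q := (0 : QuadraticForm K (Finset α →₀ K))) f _ x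

theorem ctr_ctr (f g : (Finset α →₀ K) →ₗ[K] K) (x : Lx K α) :
    ctr f (ctr g x) = -ctr g (ctr f x) :=
  CliffordAlgebra.contractLeft_comm (Q := (0 : QuadraticForm K (Finset α →₀ K))) f g x

theorem ctr_self (f : (Finset α →₀ K) →ₗ[K] K) (x : Lx K α) : ctr f (ctr f x) = 0 :=
  CliffordAlgebra.contractLeft_contractLeft (Q := (0 : QuadraticForm K (Finset α →₀ K))) f x

theorem Dx_one : Dx (1 : Lx K α) = 0 := ctr_one _

theorem Dx_ed_mul (e : Finset α) (x : Lx K α) : Dx (ed e * x) = x - ed e * Dx x := by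
  unfold Dx
  rw [ctr_ed_mul]
  simp

theorem Dx_Dx (x : Lx K α) : Dx (Dx x) = 0 := ctr_self _ x

theorem act_one (σ : Equiv.Perm α) : act K α σ (1 : Lx K α) = 1 :=
  map_one (ExteriorAlgebra.map
    (Finsupp.lmapDomain K K (im σ) : (Finset α →₀ K) →ₗ[K] (Finset α →₀ K)))

theorem act_mul (σ : Equiv.Perm α) (x y : Lx K α) :
    act K α σ (x * y) = act K α σ x * act K α σ y :=
  map_mul (ExteriorAlgebra.map
    (Finsupp.lmapDomain K K (im σ) : (Finset α →₀ K) →ₗ[K] (Finset α →₀ K))) x y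

theorem act_ed (σ : Equiv.Perm α) (e : Finset α) :
    act K α σ (ed e : Lx K α) = ed (im σ e) := by
  have h : act K α σ (ed e : Lx K α) = ExteriorAlgebra.map
    (Finsupp.lmapDomain K K (im σ) : (Finset α →₀ K) →ₗ[K] (Finset α →₀ K)) (ed e) := rfl
  rw [h]
  unfold ed
  rw [ExteriorAlgebra.map_apply_ι]
  simp [Finsupp.mapDomain_single]

theorem act_mo {p : ℕ} (σ : Equiv.Perm α) (t : Fin p → Finset α) :
    act K α σ (mo t : Lx K α) = mo (fun i => im σ (t i)) := by
  induction p with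
  | zero => rw [mo_zero, mo_zero, act_one]
  | succ p ih =>
    rw [mo_succ, mo_succ, act_mul, act_ed, ih]
    rfl

/-- induction on the exterior algebra. -/
theorem Lx_induction {C : Lx K α → Prop} (h1 : C 1) (hadd : ∀ x y, C x → C y → C (x + y))
    (hsmul : ∀ (c : K) x, C x → C (c • x)) (hed : ∀ e x, C x → C (ed e * x)) (x : Lx K α) :
    C x := by
  have key : ∀ l : List (Finset α →₀ K), C ((l.map (ExteriorAlgebra.ι K)).prod) := by
    intro l
    induction l with
    | nil => simpa using h1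
    | cons v l ih =>
      rw [List.map_cons, List.prod_cons]
      induction v using Finsupp.induction_linear with
      | zero =>
        rw [map_zero, zero_mul]
        simpa using hsmul 0 _ ih
      | add v w hv hw =>
        rw [map_add, add_mul]
        exact hadd _ _ hv hw
      | single e c =>
        have h2 : ExteriorAlgebra.ι K (Finsupp.single e c) = c • (ed e : Lx K α) := by
          unfold ed
          rw [← map_smul, Finsupp.smul_single, smul_eq_mul, mul_one]
        rw [h2, smul_mul_assoc]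
        exact hsmul _ _ (hed _ _ ih)
  have hx : x ∈ Submodule.span K (Set.range fun l : List (Finset α →₀ K) =>
      ((l.map (ExteriorAlgebra.ι K)).prod)) := by
    induction x using ExteriorAlgebra.induction with
    | algebraMap r =>
      have : (algebraMap K (Lx K α)) r = r • (1 : Lx K α) := Algebra.algebraMap_eq_smul_one r
      rw [this]
      exact Submodule.smul_mem _ _ (Submodule.subset_span ⟨[], by simp⟩)
    | ι v => exact Submodule.subset_span ⟨[v], by simp⟩
    | add a b ha hb => exact Submodule.add_mem _ ha hb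
    | mul a b ha hb =>
      have h3 := Submodule.mul_mem_mul ha hb
      rw [Submodule.span_mul_span] at h3
      refine Submodule.span_mono ?_ h3
      rintro _ ⟨_, ⟨l, rfl⟩, _, ⟨l', rfl⟩, rfl⟩
      exact ⟨l ++ l', by simp⟩
  induction hx using Submodule.span_induction with
  | mem x hx =>
    obtain ⟨l, rfl⟩ := hx
    exact key l
  | zero => simpa using hsmul 0 _ h1
  | add x y _ _ hx hy => exact hadd _ _ hx hy
  | smul c x _ hx => exact hsmul _ _ hx

theorem act_Dx (σ : Equiv.Perm α) (x : Lx K α) : act K α σ (Dx x) = Dx (act K α σ x) := by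
  induction x using Lx_induction with
  | h1 => rw [Dx_one, map_zero, act_one, Dx_one]
  | hadd x y hx hy => rw [map_add, map_add, map_add, map_add, hx, hy]
  | hsmul c x hx => rw [map_smul, map_smul, map_smul, map_smul, hx]
  | hed e x hx => rw [Dx_ed_mul, map_sub, act_mul, act_mul, act_ed, Dx_ed_mul, hx]

end formal

section chains
variable {K : Type} [Field K] {α : Type} [DecidableEq α]

theorem mo_mem_Mt {d : ℕ} {P : Finset α} {p : ℕ} {t : Fin p → Finset α} (h : vm d P p t) :
    (mo t : Lx K α) ∈ Mt K d P p := Submodule.subset_span ⟨t, h, rfl⟩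

theorem vm_mono {d p : ℕ} {P P' : Finset α} (hP : P ⊆ P') {t : Fin p → Finset α}
    (h : vm d P p t) : vm d P' p t :=
  ⟨fun i => ⟨(h.1 i).1, (h.1 i).2.trans hP⟩, h.2⟩

theorem Mt_mono {d p : ℕ} {P P' : Finset α} (hP : P ⊆ P') : Mt K d P p ≤ Mt K d P' p := by
  refine Submodule.span_mono ?_
  rintro _ ⟨t, ht, rfl⟩
  exact ⟨t, vm_mono hP ht, rfl⟩

theorem one_mem_Mt (d : ℕ) (P : Finset α) : (1 : Lx K α) ∈ Mt K d P 0 := by
  rw [← mo_zero (K := K) (fun i : Fin 0 => (∅ : Finset α))]
  exact mo_mem_Mt ⟨fun i => i.elim0, fun i => i.elim0⟩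

theorem ed_mul_mem_Mt {d p : ℕ} {P P' : Finset α} {e : Finset α} (he : e.card = d)
    (heP : e ⊆ P) (hP' : P' ⊆ P) (hd : Disjoint e P') {x : Lx K α} (hx : x ∈ Mt K d P' p) :
    ed e * x ∈ Mt K d P (p + 1) := by
  induction hx using Submodule.span_induction with
  | mem x hx =>
    obtain ⟨t, ht, rfl⟩ := hx
    rw [← mo_cons]
    refine mo_mem_Mt ⟨fun i => ?_, fun i j hij => ?_⟩
    · refine Fin.cases ?_ (fun i => ?_) i
      · exact ⟨he, heP⟩
      · exact ⟨(ht.1 i).1, (ht.1 i).2.trans hP'⟩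
    · revert hij
      refine Fin.cases ?_ (fun i => ?_) i <;> refine Fin.cases ?_ (fun j => ?_) j
      · intro h; exact absurd rfl h
      · intro _
        rw [Fin.cons_zero, Fin.cons_succ]
        exact hd.mono_right (ht.1 j).2
      · intro _
        rw [Fin.cons_zero, Fin.cons_succ]
        exact (hd.mono_right (ht.1 i).2).symm
      · intro h
        rw [Fin.cons_succ, Fin.cons_succ]
        exact ht.2 i j fun h' => h (by rw [h'])
  | zero => rw [mul_zero]; exact Submodule.zero_mem _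
  | add x y _ _ hx hy => rw [mul_add]; exact Submodule.add_mem _ hx hy
  | smul c x _ hx => rw [mul_smul_comm]; exact Submodule.smul_mem _ _ hx

/-- induction on chains: the generators `mo t`, peeled off one by one. -/
theorem vm_tail {d p : ℕ} {P : Finset α} {t : Fin (p + 1) → Finset α} (h : vm d P (p + 1) t) :
    vm d (P \ t 0) p (Fin.tail t) := by
  refine ⟨fun i => ⟨(h.1 i.succ).1, ?_⟩, fun i j hij => h.2 _ _ fun h' => hij (Fin.succ_injective _ h')⟩
  intro a ha
  rw [mem_sdiff]
  refine ⟨(h.1 i.succ).2 ha, fun ha0 => ?_⟩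
  exact Finset.disjoint_left.1 (h.2 0 i.succ (Fin.succ_ne_zero i).symm) ha0 ha

theorem Mt_mul {d p p' : ℕ} {P P' : Finset α} (hd : Disjoint P P') {x y : Lx K α}
    (hx : x ∈ Mt K d P p) (hy : y ∈ Mt K d P' p') : x * y ∈ Mt K d (P ∪ P') (p + p') := by
  induction hx using Submodule.span_induction with
  | mem x hx =>
    obtain ⟨t, ht, rfl⟩ := hx
    induction p generalizing P with
    | zero =>
      rw [mo_zero, one_mul, zero_add]
      exact Mt_mono subset_union_right hy
    | succ p ih =>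
      rw [mo_succ, mul_assoc, show p + 1 + p' = (p + p') + 1 by omega]
      refine ed_mul_mem_Mt (P' := (P \ t 0) ∪ P') (ht.1 0).1
        ((ht.1 0).2.trans subset_union_left) (union_subset_union sdiff_subset (Subset.refl _)) ?_ ?_
      · rw [disjoint_union_right]
        exact ⟨disjoint_sdiff, hd.mono_left (ht.1 0).2⟩
      · exact ih (hd.mono_left sdiff_subset) (t := Fin.tail t) (vm_tail ht)
  | zero => rw [zero_mul]; exact Submodule.zero_mem _
  | add x y _ _ hx hy => rw [add_mul]; exact Submodule.add_mem _ hx hy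
  | smul c x _ hx => rw [smul_mul_assoc]; exact Submodule.smul_mem _ _ hx

/-- Leibniz rule. -/
theorem Dx_mul {d p : ℕ} {P : Finset α} {x : Lx K α} (hx : x ∈ Mt K d P p) (y : Lx K α) :
    Dx (x * y) = Dx x * y + ((-1 : K) ^ p) • (x * Dx y) := by
  induction hx using Submodule.span_induction with
  | mem x hx =>
    obtain ⟨t, ht, rfl⟩ := hx
    clear ht
    induction p with
    | zero => rw [mo_zero, one_mul, one_mul, Dx_one, zero_mul, zero_add, pow_zero, one_smul]
    | succ p ih =>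
      rw [mo_succ, mul_assoc, Dx_ed_mul, Dx_ed_mul, ih, mul_add, sub_mul, pow_succ,
        mul_smul_comm, mul_assoc, mul_assoc, mul_neg_one, neg_smul]
      abel
  | zero => rw [zero_mul, map_zero, zero_mul, zero_mul, smul_zero, add_zero]
  | add x x' _ _ hx hx' =>
    rw [add_mul, map_add, hx, hx', map_add, add_mul, add_mul, smul_add]
    abel
  | smul c x _ hx =>
    rw [smul_mul_assoc, map_smul, hx, map_smul, smul_mul_assoc, smul_mul_assoc, smul_add,
      smul_comm]

/-- graded commutativity. -/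
theorem mul_comm_graded {d p p' : ℕ} {P P' : Finset α} {x y : Lx K α}
    (hx : x ∈ Mt K d P p) (hy : y ∈ Mt K d P' p') :
    y * x = ((-1 : K) ^ (p * p')) • (x * y) := by
  have h1 : ∀ e : Finset α, y * ed e = ((-1 : K) ^ p') • (ed e * y) := by
    intro e
    clear hx
    induction hy using Submodule.span_induction with
    | mem y hy =>
      obtain ⟨t, ht, rfl⟩ := hy
      clear ht
      induction p' with
      | zero => rw [mo_zero, one_mul, mul_one, pow_zero, one_smul]
      | succ p' ih =>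
        rw [mo_succ, mul_assoc, ih, mul_smul_comm, ← mul_assoc, ed_mul_ed, pow_succ, mul_neg_one,
          neg_smul, neg_mul, smul_neg, mul_assoc]
    | zero => rw [zero_mul, mul_zero, smul_zero]
    | add y y' _ _ hy hy' => rw [add_mul, hy, hy', mul_add, smul_add]
    | smul c y _ hy => rw [smul_mul_assoc, hy, mul_smul_comm, smul_comm]
  induction hx using Submodule.span_induction with
  | mem x hx =>
    obtain ⟨t, ht, rfl⟩ := hx
    clear ht
    induction p with
    | zero => rw [mo_zero, one_mul, mul_one, zero_mul, pow_zero, one_smul]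
    | succ p ih =>
      rw [mo_succ, ← mul_assoc, h1, smul_mul_assoc, mul_assoc, ih, mul_smul_comm, smul_smul,
        ← pow_add, ← mul_assoc, show p' + p * p' = (p + 1) * p' by ring]
  | zero => rw [zero_mul, mul_zero, smul_zero]
  | add x x' _ _ hx hx' => rw [add_mul, mul_add, hx, hx', smul_add]
  | smul c x _ hx => rw [smul_mul_assoc, mul_smul_comm, hx, smul_comm]

/-- the differential of a chain. -/
theorem Dx_mem {d p : ℕ} {P : Finset α} {x : Lx K α} (hx : x ∈ Mt K d P (p + 1)) :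
    Dx x ∈ Mt K d P p := by
  induction hx using Submodule.span_induction with
  | mem x hx =>
    obtain ⟨t, ht, rfl⟩ := hx
    induction p generalizing P with
    | zero =>
      rw [mo_succ, Dx_ed_mul, mo_zero, Dx_one, mul_zero, sub_zero]
      exact one_mem_Mt d P
    | succ p ih =>
      rw [mo_succ, Dx_ed_mul]
      refine Submodule.sub_mem _ (Mt_mono sdiff_subset (mo_mem_Mt (vm_tail ht))) ?_
      exact ed_mul_mem_Mt (ht.1 0).1 (ht.1 0).2 sdiff_subset disjoint_sdiff
        (ih _ (vm_tail ht))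
  | zero => rw [map_zero]; exact Submodule.zero_mem _
  | add x y _ _ hx hy => rw [map_add]; exact Submodule.add_mem _ hx hy
  | smul c x _ hx => rw [map_smul]; exact Submodule.smul_mem _ _ hx

theorem Dx_zero_chain {d : ℕ} {P : Finset α} {x : Lx K α} (hx : x ∈ Mt K d P 0) : Dx x = 0 := by
  induction hx using Submodule.span_induction with
  | mem x hx =>
    obtain ⟨t, ht, rfl⟩ := hx
    rw [mo_zero, Dx_one]
  | zero => rw [map_zero]
  | add x y _ _ hx hy => rw [map_add, hx, hy, add_zero]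
  | smul c x _ hx => rw [map_smul, hx, smul_zero]

theorem Bd_le_Cy (d : ℕ) (P : Finset α) (p : ℕ) : Bd K d P p ≤ Cy K d P p := by
  rintro _ ⟨x, hx, rfl⟩
  exact ⟨Dx_mem hx, Dx_Dx x⟩

theorem Cy_mono {d p : ℕ} {P P' : Finset α} (hP : P ⊆ P') : Cy K d P p ≤ Cy K d P' p :=
  fun _ hx => ⟨Mt_mono hP hx.1, hx.2⟩

theorem Bd_mono {d p : ℕ} {P P' : Finset α} (hP : P ⊆ P') : Bd K d P p ≤ Bd K d P' p := by
  rintro _ ⟨x, hx, rfl⟩
  exact ⟨x, Mt_mono hP hx, rfl⟩

theorem Cy_mul {d p p' : ℕ} {P P' : Finset α} (hd : Disjoint P P') {x y : Lx K α}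
    (hx : x ∈ Cy K d P p) (hy : y ∈ Cy K d P' p') : x * y ∈ Cy K d (P ∪ P') (p + p') := by
  refine ⟨Mt_mul hd hx.1 hy.1, ?_⟩
  have h1 : Dx x = 0 := hx.2
  have h2 : Dx y = 0 := hy.2
  show Dx (x * y) = 0
  rw [Dx_mul hx.1, h1, h2, zero_mul, mul_zero, smul_zero, add_zero]

theorem Cy_mul_Bd {d p p' : ℕ} {P P' : Finset α} (hd : Disjoint P P') {x y : Lx K α}
    (hx : x ∈ Cy K d P p) (hy : y ∈ Bd K d P' p') : x * y ∈ Bd K d (P ∪ P') (p + p') := by
  obtain ⟨w, hw, rfl⟩ := hy
  refine ⟨((-1 : K) ^ p) • (x * w), Submodule.smul_mem _ _ ?_, ?_⟩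
  · exact Mt_mul (p' := p' + 1) hd hx.1 hw
  · have h1 : Dx x = 0 := hx.2
    rw [map_smul, Dx_mul hx.1, h1, zero_mul, zero_add, smul_smul, ← mul_pow, neg_one_mul, neg_neg,
      one_pow, one_smul]

theorem Bd_mul_Cy {d p p' : ℕ} {P P' : Finset α} (hd : Disjoint P P') {x y : Lx K α}
    (hx : x ∈ Bd K d P p) (hy : y ∈ Cy K d P' p') : x * y ∈ Bd K d (P ∪ P') (p + p') := by
  obtain ⟨w, hw, rfl⟩ := hx
  refine ⟨w * y, ?_, ?_⟩
  · rw [show p + p' + 1 = (p + 1) + p' by omega]
    exact Mt_mul hd hw hy.1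
  · have h1 : Dx y = 0 := hy.2
    rw [Dx_mul hw, h1, mul_zero, smul_zero, add_zero]

/-- a cycle which does not use a `d`-set is a boundary. -/
theorem cone {d p : ℕ} {P P' e : Finset α} (hP' : P' ⊆ P) (he : e ⊆ P) (hd : Disjoint e P')
    (hc : e.card = d) {x : Lx K α} (hx : x ∈ Cy K d P' p) : x ∈ Bd K d P p := by
  refine ⟨ed e * x, ed_mul_mem_Mt hc he hP' hd hx.1, ?_⟩
  have h1 : Dx x = 0 := hx.2
  rw [Dx_ed_mul, h1, mul_zero, sub_zero]

theorem act_Mt {d p : ℕ} {P : Finset α} (σ : Equiv.Perm α) {x : Lx K α}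
    (hx : x ∈ Mt K d P p) : act K α σ x ∈ Mt K d (im σ P) p := by
  induction hx using Submodule.span_induction with
  | mem x hx =>
    obtain ⟨t, ht, rfl⟩ := hx
    rw [act_mo]
    refine mo_mem_Mt ⟨fun i => ⟨by rw [card_im]; exact (ht.1 i).1, ?_⟩, fun i j hij => ?_⟩
    · exact Finset.map_subset_map.2 (ht.1 i).2
    · exact (Finset.disjoint_map _).2 (ht.2 i j hij)
  | zero => rw [map_zero]; exact Submodule.zero_mem _
  | add x y _ _ hx hy => rw [map_add]; exact Submodule.add_mem _ hx hy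
  | smul c x _ hx => rw [map_smul]; exact Submodule.smul_mem _ _ hx

theorem act_Cy {d p : ℕ} {P : Finset α} (σ : Equiv.Perm α) {x : Lx K α}
    (hx : x ∈ Cy K d P p) : act K α σ x ∈ Cy K d (im σ P) p := by
  refine ⟨act_Mt σ hx.1, ?_⟩
  have h1 : Dx x = 0 := hx.2
  show Dx (act K α σ x) = 0
  rw [← act_Dx, h1, map_zero]

theorem act_Bd {d p : ℕ} {P : Finset α} (σ : Equiv.Perm α) {x : Lx K α}
    (hx : x ∈ Bd K d P p) : act K α σ x ∈ Bd K d (im σ P) p := by
  obtain ⟨w, hw, rfl⟩ := hx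
  exact ⟨act K α σ w, act_Mt σ hw, (act_Dx σ w).symm⟩

omit [DecidableEq α] in
theorem perm_ai (σ : Equiv.Perm α) (a : α) : σ (σ⁻¹ a) = a := σ.apply_symm_apply a

theorem im_eq_self {σ : Equiv.Perm α} {Y : Finset α} (h : ∀ a ∈ Y, σ a = a) : im σ Y = Y := by
  ext a
  rw [mem_im]
  constructor
  · intro ha
    have := h _ ha
    rw [perm_ai] at this
    rwa [← this] at ha
  · intro ha
    have : σ⁻¹ a = a := by
      rw [Equiv.Perm.inv_eq_iff_eq]
      exact (h a ha).symm
    rwa [this]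

theorem im_sup {σ : Equiv.Perm α} {P : Finset α} (h : Sup P σ) : im σ P = P := by
  ext a
  rw [mem_im]
  constructor
  · intro ha
    by_contra hc
    have h1 := h a hc
    have h2 : σ⁻¹ a = a := by
      rw [Equiv.Perm.inv_eq_iff_eq]
      exact h1.symm
    rw [h2] at ha
    exact hc ha
  · intro ha
    by_contra hc
    have h1 := h _ hc
    rw [perm_ai] at h1
    rw [← h1] at hc
    exact hc ha

theorem act_eq_self {d p : ℕ} {P : Finset α} {σ : Equiv.Perm α} (h : ∀ a ∈ P, σ a = a)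
    {x : Lx K α} (hx : x ∈ Mt K d P p) : act K α σ x = x := by
  induction hx using Submodule.span_induction with
  | mem x hx =>
    obtain ⟨t, ht, rfl⟩ := hx
    rw [act_mo]
    congr 1
    funext i
    exact im_eq_self fun a ha => h a ((ht.1 i).2 ha)
  | zero => rw [map_zero]
  | add x y _ _ hx hy => rw [map_add, hx, hy]
  | smul c x _ hx => rw [map_smul, hx]

theorem act_Cy_sup {d p : ℕ} {P P' : Finset α} {σ : Equiv.Perm α} (h : Sup P σ) (hP : P ⊆ P')
    {x : Lx K α} (hx : x ∈ Cy K d P' p) : act K α σ x ∈ Cy K d P' p := by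
  have h1 := act_Cy σ hx
  rwa [im_sup fun a ha => h a fun hc => ha (hP hc)] at h1

theorem act_Bd_sup {d p : ℕ} {P P' : Finset α} {σ : Equiv.Perm α} (h : Sup P σ) (hP : P ⊆ P')
    {x : Lx K α} (hx : x ∈ Bd K d P' p) : act K α σ x ∈ Bd K d P' p := by
  have h1 := act_Bd σ hx
  rwa [im_sup fun a ha => h a fun hc => ha (hP hc)] at h1

/-- the differential of a product. -/
theorem Dx_mo {p : ℕ} (t : Fin (p + 1) → Finset α) :
    Dx (mo t : Lx K α) = ∑ i : Fin (p + 1), ((-1 : K) ^ (i : ℕ)) • mo (i.removeNth t) := by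
  induction p with
  | zero =>
    rw [mo_succ, Dx_ed_mul, mo_zero, Dx_one, mul_zero, sub_zero, Fin.sum_univ_one]
    simp [mo_zero]
  | succ p ih =>
    rw [mo_succ, Dx_ed_mul, ih, Fin.sum_univ_succ (n := p + 1)
      (f := fun i => ((-1 : K) ^ (i : ℕ)) • (mo (i.removeNth t) : Lx K α)), Finset.mul_sum,
      sub_eq_add_neg, ← Finset.sum_neg_distrib]
    congr 1
    · simp only [Fin.val_zero, pow_zero, one_smul]
      rfl
    · refine Finset.sum_congr rfl fun i _ => ?_
      rw [mul_smul_comm, Fin.val_succ, pow_succ, mul_neg_one, neg_smul]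
      congr 2
      rw [mo_succ]
      congr 1
      congr 1
      funext j
      simp [Fin.removeNth, Fin.tail, Fin.succ_succAbove_succ]

theorem im_insert (σ : Equiv.Perm α) (a : α) (Y : Finset α) :
    im σ (insert a Y) = insert (σ a) (im σ Y) := by
  unfold im
  rw [Finset.map_insert]
  rfl

theorem qn_congr {b : ℕ} {η η' : ℕ → α} {n n' : ℕ → Finset α} (h1 : ∀ i ≤ b, η i = η' i)
    (h2 : ∀ i < b, n i = n' i) : (qn b η n : Lx K α) = qn b η' n' := by
  unfold qn
  refine Finset.sum_congr rfl fun σ _ => ?_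
  congr 2
  funext i
  rw [h1 _ (Nat.le_of_lt_succ (σ i.castSucc).2), h2 _ i.2]

theorem En_congr {b : ℕ} {η η' : ℕ → α} {n n' : ℕ → Finset α} (h1 : ∀ i ≤ b, η i = η' i)
    (h2 : ∀ i ≤ b, n i = n' i) : (En b η n : Lx K α) = En b η' n' := by
  unfold En
  refine Finset.sum_congr rfl fun σ _ => ?_
  congr 2
  funext i
  rw [h1 _ (Nat.le_of_lt_succ (σ i).2), h2 _ (Nat.le_of_lt_succ i.2)]

theorem zz_congr {a : ℕ} {u u' v v' : ℕ → α} {m m' : ℕ → Finset α} (h1 : ∀ i < a, u i = u' i)
    (h2 : ∀ i < a, v i = v' i) (h3 : ∀ i < a, m i = m' i) :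
    (zz a u v m : Lx K α) = zz a u' v' m' := by
  unfold zz
  congr 1
  funext i
  rw [h1 _ i.2, h2 _ i.2, h3 _ i.2]

theorem pq_congr {L : List ℕ} {b b' : ℕ → ℕ} {η η' : ℕ → ℕ → α} {n n' : ℕ × ℕ → Finset α}
    (h0 : ∀ j ∈ L, b j = b' j) (h1 : ∀ j ∈ L, ∀ i ≤ b j, η j i = η' j i)
    (h2 : ∀ j ∈ L, ∀ i < b j, n (j, i) = n' (j, i)) :
    (pq L b η n : Lx K α) = pq L b' η' n' := by
  unfold pq
  congr 1
  refine List.map_congr_left fun j hj => ?_
  rw [← h0 j hj]
  exact qn_congr (h1 j hj) (h2 j hj)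

omit [DecidableEq α] in
theorem mb_congr {q : ℕ} {t t' : ℕ → ℕ} (h : ∀ i < q, t i = t' i) :
    (mb q t : Pool.Agent.Work.MP_1233f5_ag.Sec.Fk K) = mb q t' := by
  induction q generalizing t t' with
  | zero => rfl
  | succ q ih =>
    unfold mb
    rw [h 0 (Nat.succ_pos q), ih fun i hi => h (i + 1) (Nat.succ_lt_succ hi)]

theorem VC.card_eq {r : ℕ} {R : Finset α} {a q : ℕ} {u v : ℕ → α} {m : ℕ → Finset α}
    (h : VC r R a q u v m) : R.card = 2 * a + q * r := by
  rw [← h.cov, card_union_of_disjoint, card_union_of_disjoint, card_image_of_injOn,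
    card_image_of_injOn, card_biUnion, sum_congr rfl fun i hi => h.card i (mem_range.1 hi),
    sum_const, card_range, card_range, smul_eq_mul]
  · ring
  · intro i hi j hj hij
    exact h.dis i (mem_range.1 hi) j (mem_range.1 hj) hij
  · intro i hi j hj hij
    exact h.vinj i (mem_range.1 hi) j (mem_range.1 hj) hij
  · intro i hi j hj hij
    exact h.uinj i (mem_range.1 hi) j (mem_range.1 hj) hij
  · rw [disjoint_left]
    intro x hx hx'
    obtain ⟨i, hi, rfl⟩ := mem_image.1 hx
    obtain ⟨j, hj, h2⟩ := mem_image.1 hx'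
    exact h.uv i (mem_range.1 hi) j (mem_range.1 hj) h2.symm
  · rw [disjoint_left]
    intro x hx hx'
    obtain ⟨j, hj, h2⟩ := mem_biUnion.1 hx'
    rcases mem_union.1 hx with hx | hx
    · obtain ⟨i, hi, rfl⟩ := mem_image.1 hx
      exact h.uout i (mem_range.1 hi) j (mem_range.1 hj) h2
    · obtain ⟨i, hi, rfl⟩ := mem_image.1 hx
      exact h.vout i (mem_range.1 hi) j (mem_range.1 hj) h2

/-- the homology space. -/
abbrev Hx (K : Type) [Field K] (α : Type) [Fintype α] [DecidableEq α] (d p : ℕ) :=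
  Lx K α ⧸ Bd K d (univ : Finset α) p

theorem act_Bd_univ [Fintype α] {d p : ℕ} (σ : Equiv.Perm α) :
    Bd K d (univ : Finset α) p ≤ (Bd K d (univ : Finset α) p).comap (act K α σ) :=
  fun _ hx => act_Bd_sup (P := univ) (fun a ha => absurd (mem_univ a) ha) (Subset.refl _) hx

/-- the action on the homology space. -/
noncomputable def actQ (K : Type) [Field K] (α : Type) [Fintype α] [DecidableEq α] (d p : ℕ) :
    Equiv.Perm α →* Module.End K (Hx K α d p) where
  toFun σ := Submodule.mapQ _ _ (act K α σ) (act_Bd_univ σ)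
  map_one' := by
    apply LinearMap.ext
    intro x
    obtain ⟨x, rfl⟩ := Submodule.mkQ_surjective _ x
    rw [Submodule.mkQ_apply, Submodule.mapQ_apply, map_one]
    rfl
  map_mul' := by
    intro σ τ
    apply LinearMap.ext
    intro x
    obtain ⟨x, rfl⟩ := Submodule.mkQ_surjective _ x
    rw [Submodule.mkQ_apply, Submodule.mapQ_apply, map_mul]
    rfl

theorem actQ_mk [Fintype α] (d p : ℕ) (σ : Equiv.Perm α) (x : Lx K α) :
    actQ K α d p σ ((Bd K d (univ : Finset α) p).mkQ x) =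
      (Bd K d (univ : Finset α) p).mkQ (act K α σ x) := rfl

end chains

end Pool.Agent.Work.MP_1233f5_ag.Y
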