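import Pool.Agent.Work.MP_1233f5_ag.Y.Basic
import Pool.Agent.Work.MP_1233f5_ag.Y.StmtsL

/-! MP_1233f5_ag, block Y: statements of the items, part C (complexes of sets, cycles `q_b`,
generation theorems, exchange, the induction).  Here `d = r + 1`. -/

set_option autoImplicit false

namespace Pool.Agent.Work.MP_1233f5_ag.Y

open Finset
open Pool.Agent.Work.MP_1233f5_ag.V (vm ML theta)
open Pool.Agent.Work.MP_1233f5_ag.Sec (Fk wd ct ee ff hh IsSec IsDeg swd brk)

/-! ### the cycles `q_b` -/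

/-- `q_b` is a cycle. -/
def S_QCy : Prop :=
  ∀ (K : Type) [Field K] (α : Type) [DecidableEq α] (r b : ℕ) (P : Finset α) (η : ℕ → α)
    (n : ℕ → Finset α), BV r P b η n → (qn b η n : Lx K α) ∈ Cy K (r + 1) P b

/-- action of the permutations on `q_b` and `E_b`. -/
def S_QAct : Prop :=
  ∀ (K : Type) [Field K] (α : Type) [DecidableEq α] (b : ℕ) (η : ℕ → α) (n : ℕ → Finset α)
    (σ : Equiv.Perm α),
    act K α σ (qn b η n) = qn b (fun i => σ (η i)) (fun i => im σ (n i)) ∧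
    act K α σ (En b η n) = En b (fun i => σ (η i)) (fun i => im σ (n i))

/-- symmetry of `q_b` in the sets. -/
def S_QSw : Prop :=
  ∀ (K : Type) [Field K] (α : Type) [DecidableEq α] (b : ℕ) (η : ℕ → α) (n n' : ℕ → Finset α)
    (τ : Equiv.Perm (Fin b)), (∀ i : Fin b, n' (i : ℕ) = n ((τ i : Fin b) : ℕ)) →
    (qn b η n' : Lx K α) = qn b η n

/-- symmetry of `E_b` in the sets. -/
def S_ESw : Prop :=
  ∀ (K : Type) [Field K] (α : Type) [DecidableEq α] (b : ℕ) (η : ℕ → α) (n n' : ℕ → Finset α)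
    (τ : Equiv.Perm (Fin (b + 1))),
    (∀ i : Fin (b + 1), n' (i : ℕ) = n ((τ i : Fin (b + 1)) : ℕ)) →
    (En b η n' : Lx K α) = En b η n

/-- leave out the entry `k`. -/
def skp {β : Type} (k : ℕ) (n : ℕ → β) : ℕ → β := fun i => if i < k then n i else n (i + 1)

/-- put `m` in front. -/
def cns {β : Type} (m : β) (n : ℕ → β) : ℕ → β := fun i => if i = 0 then m else n (i - 1)

/-- the differential of `E_b`. -/
def S_ED : Prop :=
  ∀ (K : Type) [Field K] (α : Type) [DecidableEq α] (b : ℕ) (η : ℕ → α) (n : ℕ → Finset α),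
    Dx (En b η n : Lx K α) = ((-1 : K) ^ b) • ∑ k ∈ range (b + 1), qn b η (skp k n)

/-- expansion of `q_{b+1}` with respect to the last point. -/
def S_EQ : Prop :=
  ∀ (K : Type) [Field K] (α : Type) [DecidableEq α] (b : ℕ) (η : ℕ → α) (x : α)
    (n : ℕ → Finset α), (qn (b + 1) (Function.update η (b + 1) x) n : Lx K α) =
      En b η n - ∑ k ∈ range (b + 1), (qn b η (skp k n) * ed (insert x (n k)) : Lx K α)

/-- the exchange identity. -/
def S_QX : Prop :=
  ∀ (K : Type) [Field K] (α : Type) [DecidableEq α] (b : ℕ) (η : ℕ → α) (u v : α)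
    (n : ℕ → Finset α) (m : Finset α),
    (qn (b + 1) (Function.update η (b + 1) u) (Function.update n b m) : Lx K α) -
      qn (b + 1) (Function.update η (b + 1) v) (Function.update n b m) =
    -((qn b η n * (ed (insert u m) - ed (insert v m)) : Lx K α) +
      ∑ i ∈ range b, (qn b η (Function.update n i m) *
        (ed (insert u (n i)) - ed (insert v (n i))) : Lx K α))

/-- `q_2` with one more point is a combination of products of two `q_1`. -/
def S_QZ : Prop :=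
  ∀ (K : Type) [Field K] (α : Type) [Fintype α] [DecidableEq α] (η : ℕ → α) (n : ℕ → Finset α)
    (y : α), (∀ i ≤ 2, ∀ j ≤ 2, η i = η j → i = j) → (∀ i ≤ 2, η i ≠ y) →
    (∀ i ≤ 2, ∀ j ≤ 1, η i ∉ n j) → (∀ j ≤ 1, y ∉ n j) →
    asym (act K α) {η 0, η 1, η 2} ((ed (insert (η 0) (n 0)) - ed (insert (η 1) (n 0))) *
      (ed (insert (η 2) (n 1)) - ed (insert y (n 1)))) = -((2 : K) • (qn 2 η n : Lx K α))

/-! ### invariant cycles, contractions -/

/-- there are no invariant cycles. -/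
def S_Inv1 : Prop :=
  ∀ (K : Type) [Field K] [CharZero K] (α : Type) [Fintype α] [DecidableEq α] (r a : ℕ)
    (P : Finset α), 1 ≤ a → r + 1 ≤ P.card → ∀ z ∈ Cy K (r + 1) P a,
    (∀ σ, Sup P σ → act K α σ z = z) → z = 0

/-- iterated contraction with the duals of the sets `e 0, ..., e (m - 1)` (first `e 0`). -/
noncomputable def cf {K : Type} [Field K] {α : Type} : (m : ℕ) → (ℕ → Finset α) →
    (Lx K α →ₗ[K] Lx K α)
  | 0, _ => LinearMap.id
  | m + 1, e => (cf m (fun i => e (i + 1))).comp (ctr (Finsupp.lapply (e 0)))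

/-- the contractions commute with the differential up to sign. -/
def S_CfD : Prop :=
  ∀ (K : Type) [Field K] (α : Type) [DecidableEq α] (m : ℕ) (e : ℕ → Finset α) (x : Lx K α),
    Dx (cf m e x) = ((-1 : K) ^ m) • cf m e (Dx x)

/-- support of the contractions. -/
def S_CfM : Prop :=
  ∀ (K : Type) [Field K] (α : Type) [DecidableEq α] (d m j : ℕ) (P : Finset α)
    (e : ℕ → Finset α), m ≤ j → ∀ x ∈ Mt K d P j,
    cf m e x ∈ Mt K d (P \ (range m).biUnion e) (j - m)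

/-- valid data for `E_b`. -/
structure EV {α : Type} [DecidableEq α] (r : ℕ) (P : Finset α) (b : ℕ) (η : ℕ → α)
    (n : ℕ → Finset α) : Prop where
  inj : ∀ i ≤ b, ∀ j ≤ b, η i = η j → i = j
  mem : ∀ i ≤ b, η i ∈ P
  card : ∀ i ≤ b, (n i).card = r
  sub : ∀ i ≤ b, n i ⊆ P
  dis : ∀ i ≤ b, ∀ j ≤ b, i ≠ j → Disjoint (n i) (n j)
  out : ∀ i ≤ b, ∀ j ≤ b, η i ∉ n j

/-- the points of `E_b`. -/
def es {α : Type} [DecidableEq α] (b : ℕ) (η : ℕ → α) (n : ℕ → Finset α) : Finset α :=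
  (range (b + 1)).image η ∪ (range (b + 1)).biUnion n

open Classical in
/-- contraction of `E_m`. -/
def S_CfE : Prop :=
  ∀ (K : Type) [Field K] (α : Type) [DecidableEq α] (r m p : ℕ) (P : Finset α) (q : ℕ → α)
    (f f0 : ℕ → Finset α), 1 ≤ r → EV r P m q f → EV r P m q f0 →
    ∀ w ∈ Mt K (r + 1) (P \ es m q f0) p,
    cf (m + 1) (fun i => insert (q i) (f i)) (En m q f0 * w) =
      if ∃ σ : Equiv.Perm (Fin (m + 1)), ∀ i : Fin (m + 1), f0 (i : ℕ) = f ((σ i : Fin (m + 1)) : ℕ)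
      then w else 0

/-- contraction of `q_m` with `m + 1` sets. -/
def S_CfQ0 : Prop :=
  ∀ (K : Type) [Field K] (α : Type) [DecidableEq α] (r m p : ℕ) (P : Finset α) (q : ℕ → α)
    (f f0 : ℕ → Finset α), 1 ≤ r → EV r P m q f → BV r P m q f0 →
    ∀ w ∈ Mt K (r + 1) (P \ bs m q f0) p,
    cf (m + 1) (fun i => insert (q i) (f i)) (qn m q f0 * w) = 0

open Classical in
/-- contraction of `q_m` with `m` sets. -/
def S_CfQ : Prop :=
  ∀ (K : Type) [Field K] (α : Type) [DecidableEq α] (r m p : ℕ) (P : Finset α) (q : ℕ → α)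
    (f f0 : ℕ → Finset α), 1 ≤ r → BV r P m q f → BV r P m q f0 →
    ∀ w ∈ Mt K (r + 1) (P \ bs m q f0) p,
    cf m (fun i => insert (q i) (f i)) (qn m q f0 * w) =
      if ∃ σ : Equiv.Perm (Fin m), ∀ i : Fin m, f0 (i : ℕ) = f ((σ i : Fin m) : ℕ)
      then w else 0

/-! ### antisymmetric cycles -/

/-- span of the products `E_m(q; f) w`. -/
noncomputable def spE (K : Type) [Field K] {α : Type} [DecidableEq α] (r : ℕ) (P : Finset α)
    (m j : ℕ) (q : ℕ → α) (C : (R : Finset α) → (p : ℕ) → Submodule K (Lx K α)) :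
    Submodule K (Lx K α) :=
  Submodule.span K {x | ∃ f w, EV r P m q f ∧ m + 1 ≤ j ∧ w ∈ C (P \ es m q f) (j - (m + 1)) ∧
    x = En m q f * w}

/-- span of the products `q_m(q; f) w`. -/
noncomputable def spQ (K : Type) [Field K] {α : Type} [DecidableEq α] (r : ℕ) (P : Finset α)
    (m j : ℕ) (q : ℕ → α) (C : (R : Finset α) → (p : ℕ) → Submodule K (Lx K α)) :
    Submodule K (Lx K α) :=
  Submodule.span K {x | ∃ f w, BV r P m q f ∧ m ≤ j ∧ w ∈ C (P \ bs m q f) (j - m) ∧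
    x = qn m q f * w}

/-- antisymmetrized chains. -/
def S_Anti : Prop :=
  ∀ (K : Type) [Field K] [CharZero K] (α : Type) [Fintype α] [DecidableEq α] (r m j : ℕ)
    (P : Finset α) (q : ℕ → α), (∀ i ≤ m, ∀ i' ≤ m, q i = q i' → i = i') → (∀ i ≤ m, q i ∈ P) →
    ∀ z ∈ Mt K (r + 1) P j, asym (act K α) ((range (m + 1)).image q) z ∈
      spE K r P m j q (Mt K (r + 1)) ⊔ spQ K r P m j q (Mt K (r + 1))

/-- the part with all points of `Q` covered. -/
def S_RedAB : Prop :=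
  ∀ (K : Type) [Field K] [CharZero K] (α : Type) [Fintype α] [DecidableEq α] (r m j : ℕ)
    (P : Finset α) (q : ℕ → α), 1 ≤ r → (∀ i ≤ m, ∀ i' ≤ m, q i = q i' → i = i') →
    (∀ i ≤ m, q i ∈ P) → ∀ z ∈ Cy K (r + 1) P j,
    (∀ σ, Sup ((range (m + 1)).image q) σ → act K α σ z = ((Equiv.Perm.sign σ : ℤ) : K) • z) →
    ∃ y ∈ spE K r P m j q (Cy K (r + 1)), z - y ∈ spQ K r P m j q (Mt K (r + 1))

/-- the part with one uncovered point. -/
def S_RedC : Prop :=
  ∀ (K : Type) [Field K] [CharZero K] (α : Type) [Fintype α] [DecidableEq α] (r m j : ℕ)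
    (P : Finset α) (q : ℕ → α), 1 ≤ r → 1 ≤ m → (∀ i ≤ m, ∀ i' ≤ m, q i = q i' → i = i') →
    (∀ i ≤ m, q i ∈ P) → ∀ z ∈ Cy K (r + 1) P j, z ∈ spQ K r P m j q (Mt K (r + 1)) →
    z ∈ spQ K r P m j q (Cy K (r + 1))

/-- every cycle is a sum of cycles with an unused point, modulo boundaries. -/
def Gx (K : Type) [Field K] {α : Type} [DecidableEq α] (d : ℕ) (R : Finset α) (i : ℕ) : Prop :=
  Cy K d R i ≤ Bd K d R i ⊔ ⨆ x ∈ R, Cy K d (R.erase x) i

/-- replacing `E_m κ`. -/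
def S_ERep : Prop :=
  ∀ (K : Type) [Field K] (α : Type) [Fintype α] [DecidableEq α] (r m j : ℕ) (P : Finset α)
    (q : ℕ → α) (f : ℕ → Finset α), EV r P m q f → m + 1 ≤ j →
    Gx K (r + 1) (P \ es m q f) (j - (m + 1)) →
    ∀ κ ∈ Cy K (r + 1) (P \ es m q f) (j - (m + 1)), En m q f * κ ∈
      Bd K (r + 1) P j ⊔ spQ K r P m j q (Mt K (r + 1)) ⊔
        ⨆ x : α, spQ K r P (m + 1) j (Function.update q (m + 1) x) (Cy K (r + 1))

/-- reduction of antisymmetric cycles. -/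
def S_Red : Prop :=
  ∀ (K : Type) [Field K] [CharZero K] (α : Type) [Fintype α] [DecidableEq α] (r m j : ℕ)
    (P : Finset α) (q : ℕ → α), 1 ≤ r → 1 ≤ m → (∀ i ≤ m, ∀ i' ≤ m, q i = q i' → i = i') →
    (∀ i ≤ m, q i ∈ P) →
    (m + 1 ≤ j → ∀ R ⊆ P, R.card + (m + 1) * (r + 1) = P.card →
      Gx K (r + 1) R (j - (m + 1))) →
    ∀ z ∈ Cy K (r + 1) P j,
    (∀ σ, Sup ((range (m + 1)).image q) σ → act K α σ z = ((Equiv.Perm.sign σ : ℤ) : K) • z) →
    z ∈ Bd K (r + 1) P j ⊔ spQ K r P m j q (Cy K (r + 1)) ⊔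
        ⨆ x : α, spQ K r P (m + 1) j (Function.update q (m + 1) x) (Cy K (r + 1))

/-! ### generation -/

/-- facts on the products `zz`. -/
def S_Zz : Prop :=
  ∀ (K : Type) [Field K] (α : Type) [DecidableEq α] (a : ℕ) (u v : ℕ → α) (m : ℕ → Finset α),
    ((zz (a + 1) u v m : Lx K α) = (ed (insert (u 0) (m 0)) - ed (insert (v 0) (m 0))) *
      zz a (fun i => u (i + 1)) (fun i => v (i + 1)) (fun i => m (i + 1))) ∧
    (∀ σ : Equiv.Perm α, act K α σ (zz a u v m) =
      zz a (fun i => σ (u i)) (fun i => σ (v i)) (fun i => im σ (m i))) ∧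
    (∀ i < a, (zz a (Function.update u i (v i)) (Function.update v i (u i)) m : Lx K α) =
      -zz a u v m) ∧
    (∀ i < a, ∀ j < a, i ≠ j → (zz a (u ∘ Equiv.swap i j) (v ∘ Equiv.swap i j)
      (m ∘ Equiv.swap i j) : Lx K α) = -zz a u v m) ∧
    (∀ (r q : ℕ) (R : Finset α), VC r R a q u v m → a ≤ q → zz a u v m ∈ Cy K (r + 1) R a)

/-- exchange with an uncovered set. -/
def S_ZzN : Prop :=
  ∀ (K : Type) [Field K] (α : Type) [DecidableEq α] (r a : ℕ) (R : Finset α) (u v : ℕ → α)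
    (m : ℕ → Finset α), VC r R a (a + 1) u v m → ∀ i < a,
    zz a u v m + zz a u v (m ∘ Equiv.swap i a) ∈ Bd K (r + 1) R a

/-- first generation theorem. -/
def S_G1 : Prop :=
  ∀ (K : Type) [Field K] [CharZero K] (α : Type) [Fintype α] [DecidableEq α] [Nonempty α]
    (r a : ℕ) (P : Finset α), 1 ≤ r → a * (r + 2) ≤ P.card → Cy K (r + 1) P a ≤
      Bd K (r + 1) P a ⊔ Submodule.span K {x | ∃ R u v m, R ⊆ P ∧ VC r R a a u v m ∧
        x = zz a u v m}

/-- the consequence used for the reductions. -/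
def S_GH : Prop :=
  ∀ (K : Type) [Field K] [CharZero K] (α : Type) [Fintype α] [DecidableEq α] [Nonempty α]
    (r a : ℕ) (P : Finset α), 1 ≤ r → a * (r + 2) + 1 ≤ P.card → Cy K (r + 1) P a ≤
      Bd K (r + 1) P a ⊔ Submodule.span K {x | ∃ R u v m, R ⊆ P ∧ VC r R a a u v m ∧
        x = zz a u v m} → Gx K (r + 1) P a

/-- span of the products `q_b κ` with `b ≥ 2`. -/
noncomputable def spB (K : Type) [Field K] {α : Type} [DecidableEq α] (r : ℕ) (P : Finset α)
    (a : ℕ) : Submodule K (Lx K α) :=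
  Submodule.span K {x | ∃ b η n κ, 2 ≤ b ∧ b ≤ a ∧ BV r P b η n ∧
    κ ∈ Cy K (r + 1) (P \ bs b η n) (a - b) ∧ x = qn b η n * κ}

/-- second generation theorem, local form. -/
def S_G2 : Prop :=
  ∀ (K : Type) [Field K] [CharZero K] (α : Type) [Fintype α] [DecidableEq α] (r a : ℕ)
    (P Q : Finset α), 1 ≤ r → a * (r + 2) ≤ P.card → Q ⊆ P → Q.card = 3 →
    ∀ κ ∈ Cy K (r + 1) P a, asym (act K α) Q κ ∈ Bd K (r + 1) P a ⊔ spB K r P a

/-! ### products of blocks -/

/-- facts on products of blocks. -/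
def S_Pq : Prop :=
  ∀ (K : Type) [Field K] (α : Type) [DecidableEq α] (r : ℕ) (P : Finset α) (L : List ℕ)
    (b : ℕ → ℕ) (η : ℕ → ℕ → α) (n : ℕ × ℕ → Finset α),
    (LV r P L b η n → pq L b η n ∈ Cy K (r + 1) (ls L b η n) ((L.map b).sum)) ∧
    (∀ σ : Equiv.Perm α, act K α σ (pq L b η n) =
      pq L b (fun j i => σ (η j i)) (fun s => im σ (n s)))

/-- the core of a product of blocks has two rows, modulo smaller cores. -/
def S_WTwo : Prop :=
  ∀ (K : Type) [Field K] [CharZero K] (α : Type) [Fintype α] [DecidableEq α] (r p a q : ℕ)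
    (L : List ℕ) (b : ℕ → ℕ) (η : ℕ → ℕ → α) (n : ℕ × ℕ → Finset α) (R Q : Finset α)
    (u v : ℕ → α) (m : ℕ → Finset α), 1 ≤ r → (∀ a' < a, Wd K α r p a') → LV r univ L b η n →
    (L.map b).sum + a = p → Disjoint R (ls L b η n) → a ≤ q → VC r R a q u v m → Q ⊆ R →
    Q.card = 3 → asym (act K α) Q (pq L b η n * zz a u v m) ∈ Bd K (r + 1) (univ : Finset α) p

/-- exchange between a block and the core, modulo smaller cores. -/
def S_WX : Prop :=
  ∀ (K : Type) [Field K] [CharZero K] (α : Type) [Fintype α] [DecidableEq α] (r p a q : ℕ)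
    (L : List ℕ) (b : ℕ → ℕ) (η : ℕ → ℕ → α) (n : ℕ × ℕ → Finset α) (R : Finset α)
    (u v : ℕ → α) (m : ℕ → Finset α) (m0 : Finset α) (j : ℕ), (∀ a' < a, Wd K α r p a') →
    LV r univ L b η n → (L.map b).sum + a = p → j ∈ L → Disjoint R (ls L b η n) →
    Disjoint m0 R → Disjoint m0 (ls L b η n) → m0.card = r → 1 ≤ a → a ≤ q + 1 →
    VC r R a q u v m →
    (pq L b η n * zz a u v (cns m0 m) : Lx K α) + ∑ i ∈ range (b j),
      (pq L b η (Function.update n (j, i) m0) * zz a u v (cns (n (j, i)) m) : Lx K α) ∈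
        Bd K (r + 1) (univ : Finset α) p

/-- products of sections of configurations. -/
def S_SwSc : Prop :=
  ∀ (K : Type) [Field K] (α : Type) [DecidableEq α] (r a q : ℕ) (R g : Finset α)
    (u v : ℕ → α) (m : ℕ → Finset α), VC r R a q u v m → Disjoint g R →
    swd g (sc a q u v m : Finset α → Fk K) = sc a (q + 1) u v (cns g m) ∧
    (g.card = r → VC r (R ∪ g) a (q + 1) u v (cns g m))

/-- action of the permutations on the sections of configurations. -/
def S_ScAct : Prop :=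
  ∀ (K : Type) [Field K] (α : Type) [DecidableEq α] (a q : ℕ) (u v : ℕ → α)
    (m : ℕ → Finset α) (σ : Equiv.Perm α),
    sact K α σ (sc a q u v m) = sc a q (fun i => σ (u i)) (fun i => σ (v i)) (fun i => im σ (m i)) ∧
    ∀ r R, VC r R a q u v m →
      VC r (im σ R) a q (fun i => σ (u i)) (fun i => σ (v i)) (fun i => im σ (m i))

/-- the slots of the blocks in `L`. -/
def slots (L : List ℕ) (b : ℕ → ℕ) : Finset (ℕ × ℕ) :=
  L.toFinset.biUnion (fun j => (range (b j)).image (fun i => (j, i)))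

/-- the functional of a product of blocks is admissible. -/
def S_WAdm : Prop :=
  ∀ (K : Type) [Field K] [CharZero K] (α : Type) [Fintype α] [DecidableEq α] (r p a q : ℕ)
    (L : List ℕ) (b : ℕ → ℕ) (η : ℕ → ℕ → α) (P0 : Finset α), 1 ≤ r → 1 ≤ a →
    (q = a ∨ q = a + 1) → (∀ a' < a, Wd K α r p a') → L.Nodup → (∀ j ∈ L, 2 ≤ b j) →
    (∀ j ∈ L, ∀ i ≤ b j, ∀ i' ≤ b j, η j i = η j i' → i = i') →
    (∀ j ∈ L, ∀ j' ∈ L, j ≠ j' → ∀ i ≤ b j, ∀ i' ≤ b j', η j i ≠ η j' i') →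
    (∀ j ∈ L, ∀ i ≤ b j, η j i ∉ P0) → (L.map b).sum + a = p →
    P0.card = r * (slots L b).card + 2 * a + q * r →
    ∃ Φ : (ℕ × ℕ → Finset α) → ((Finset α → Fk K) →ₗ[K] Hx K α (r + 1) p),
      Adm (actQ K α (r + 1) p) r (q - 1) (slots L b) P0 Φ ∧
      ∀ n, Cf r (slots L b) P0 n → ∀ u v m, VC r (rest (slots L b) P0 n) a q u v m →
        Φ n (sc a q u v m) =
          (Bd K (r + 1) (univ : Finset α) p).mkQ (pq L b η n * zz a u v m)

/-- the induction step. -/
def S_WStep : Prop :=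
  ∀ (K : Type) [Field K] [CharZero K] (α : Type) [Fintype α] [DecidableEq α] (r p a : ℕ),
    1 ≤ r → Fintype.card α = p * (r + 1) + (2 * r + 1) → p ≤ 2 * r →
    (∀ a' < a, Wd K α r p a') → Wd K α r p a

/-! ### conclusion -/

/-- from the exterior algebra to the functions on tuples. -/
def S_Brg : Prop :=
  ∀ (K : Type) [Field K] [CharZero K] (d T p : ℕ),
    Cy K d (univ : Finset (Fin (p * d + T))) p ≤ Bd K d (univ : Finset (Fin (p * d + T))) p →
    ML K d T p

/-- the sharp vanishing at `T = 2 d - 1`. -/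
def S_MLr : Prop :=
  ∀ (K : Type) [Field K] [CharZero K] (r p : ℕ), 1 ≤ r → p ≤ 2 * r → ML K (r + 1) (2 * r + 1) p

/-- the new bound: `theta` at `T = 2 d - 1`. -/
def bnd3 (d : ℕ) : ℕ → ℕ
  | 0 => 0
  | T + 1 => if T + 1 = 2 * d - 1 then theta d (T + 1)
      else min (theta d (T + 1)) (bnd3 d T + (T + 1) / (d - 1) + 1)

/-- the multilinear vanishing theorem with the new bound. -/
def S_Main3 : Prop :=
  ∀ (K : Type) [Field K] [CharZero K] (d T p : ℕ), 3 ≤ d → p < bnd3 d T → ML K d T p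

end Pool.Agent.Work.MP_1233f5_ag.Y
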