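import Pool.Agent.Work.MP_1233f5_ag.Y.Util

/-! MP_1233f5_ag, block Y, item Frz: freezing a slot. -/

set_option autoImplicit false

namespace Pool.Agent.Work.MP_1233f5_ag.Y

open Finset
open Pool.Agent.Work.MP_1233f5_ag.Sec (Fk wd ct ee ff hh IsSec IsDeg swd brk)

namespace FrzX

variable {K : Type} [Field K] {α : Type} [DecidableEq α] {r k : ℕ} {I : Finset (ℕ × ℕ)}
  {P : Finset α} {i : ℕ × ℕ} {a b c : α} {g : Finset α}

/-- the frozen points -/
abbrev F (a b c : α) (g : Finset α) : Finset α := insert b (insert c (insert a g))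

theorem F_rot (a b c : α) (g : Finset α) : F a b c g = F b c a g := by
  ext x
  simp only [F, mem_insert]
  tauto

theorem sub_F (a b c : α) (g : Finset α) : insert a g ⊆ F a b c g := by
  intro x hx
  simp only [F, mem_insert] at hx ⊢
  tauto

/-- the situation for one of the three points -/
structure Sit (r : ℕ) (P : Finset α) (a b c : α) (g : Finset α) : Prop where
  bc : b ≠ c
  ab : a ≠ b
  ac : a ≠ c
  ma : a ∈ P
  mb : b ∈ P
  mc : c ∈ P
  mg : g ⊆ P
  na : a ∉ g
  nb : b ∉ g
  nc : c ∉ g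
  card : g.card + 1 = r

theorem Sit.rot (h : Sit r P a b c g) : Sit r P b c a g :=
  ⟨h.ac.symm, h.bc, h.ab.symm, h.mb, h.mc, h.ma, h.mg, h.nb, h.nc, h.na, h.card⟩

theorem cf_big {n : ℕ × ℕ → Finset α} (hn : Cf r (I.erase i) (P \ F a b c g) n) :
    Cf r (I.erase i) P n :=
  ⟨fun j hj => ⟨(hn.1 j hj).1, (hn.1 j hj).2.trans sdiff_subset⟩, hn.2⟩

theorem ins_sub (h : Sit r P a b c g) {n : ℕ × ℕ → Finset α}
    (hn : Cf r (I.erase i) (P \ F a b c g) n) : insert a g ⊆ rest (I.erase i) P n := by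
  intro x hx
  rw [U.mem_rest]
  refine ⟨?_, fun j hj hxj => ?_⟩
  · rcases mem_insert.1 hx with rfl | hx
    · exact h.ma
    · exact h.mg hx
  · exact (mem_sdiff.1 ((hn.1 j hj).2 hxj)).2 (sub_F a b c g hx)

theorem cf_N (h : Sit r P a b c g) {n : ℕ × ℕ → Finset α}
    (hn : Cf r (I.erase i) (P \ F a b c g) n) :
    Cf r I P (Function.update n i (insert a g)) :=
  U.cf_insert (cf_big hn) (ins_sub h hn) (by rw [card_insert_of_notMem h.na, h.card])

theorem rest_N (h : Sit r P a b c g) (hi : i ∈ I) {n : ℕ × ℕ → Finset α}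
    (hn : Cf r (I.erase i) (P \ F a b c g) n) :
    rest I P (Function.update n i (insert a g)) =
      insert b (insert c (rest (I.erase i) (P \ F a b c g) n)) := by
  rw [U.rest_insert hi]
  ext x
  have hbF : b ∈ F a b c g := by simp [F]
  have hcF : c ∈ F a b c g := by simp [F]
  have hFx : x ∈ F a b c g ↔ x = b ∨ x = c ∨ x = a ∨ x ∈ g := by simp [F]
  simp only [mem_sdiff, mem_insert, U.mem_rest]
  constructor
  · rintro ⟨⟨h1, h2⟩, h3⟩
    by_cases hxb : x = b
    · exact Or.inl hxb
    · by_cases hxc : x = c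
      · exact Or.inr (Or.inl hxc)
      · exact Or.inr (Or.inr ⟨⟨h1, by tauto⟩, h2⟩)
  · rintro (rfl | rfl | ⟨⟨h1, h2⟩, h3⟩)
    · refine ⟨⟨h.mb, fun j hj hxj => ?_⟩, ?_⟩
      · exact (mem_sdiff.1 ((hn.1 j hj).2 hxj)).2 hbF
      · rintro (h4 | h4)
        · exact h.ab h4.symm
        · exact h.nb h4
    · refine ⟨⟨h.mc, fun j hj hxj => ?_⟩, ?_⟩
      · exact (mem_sdiff.1 ((hn.1 j hj).2 hxj)).2 hcF
      · rintro (h4 | h4)
        · exact h.ac h4.symm
        · exact h.nc h4
    · exact ⟨⟨h1, h3⟩, by tauto⟩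

theorem not_mem_b {n : ℕ × ℕ → Finset α} {J : Finset (ℕ × ℕ)} :
    b ∉ rest J (P \ F a b c g) n := by
  intro h
  exact (mem_sdiff.1 (U.rest_sub h)).2 (by simp [F])

theorem not_mem_c {n : ℕ × ℕ → Finset α} {J : Finset (ℕ × ℕ)} :
    c ∉ rest J (P \ F a b c g) n := by
  intro h
  exact (mem_sdiff.1 (U.rest_sub h)).2 (by simp [F])

theorem brk_N (h : Sit r P a b c g) (hi : i ∈ I) {n : ℕ × ℕ → Finset α}
    (hn : Cf r (I.erase i) (P \ F a b c g) n) {q : ℕ} {x : Finset α → Fk K}
    (hx : x ∈ Sc K r q (rest (I.erase i) (P \ F a b c g) n)) :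
    brk b c x ∈ Sc K r q (rest I P (Function.update n i (insert a g))) := by
  rw [rest_N h hi hn]
  exact U.brk_mem h.bc not_mem_b not_mem_c hx

theorem brk_Nm (h : Sit r P a b c g) (hi : i ∈ I) {n : ℕ × ℕ → Finset α}
    (hn : Cf r (I.erase i) (P \ F a b c g) n) {m : Finset α}
    (hm : m ⊆ rest (I.erase i) (P \ F a b c g) n) {q : ℕ} {x : Finset α → Fk K}
    (hx : x ∈ Sc K r q (rest (I.erase i) (P \ F a b c g) n \ m)) :
    brk b c x ∈ Sc K r q (rest I P (Function.update n i (insert a g)) \ m) := by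
  have hb : b ∉ m := fun hb => not_mem_b (hm hb)
  have hc : c ∉ m := fun hc => not_mem_c (hm hc)
  have e : rest I P (Function.update n i (insert a g)) \ m =
      insert b (insert c (rest (I.erase i) (P \ F a b c g) n \ m)) := by
    rw [rest_N h hi hn, insert_sdiff_of_notMem _ hb, insert_sdiff_of_notMem _ hc]
  rw [e]
  exact U.brk_mem h.bc (fun h1 => not_mem_b (mem_sdiff.1 h1).1)
    (fun h1 => not_mem_c (mem_sdiff.1 h1).1) hx

section
variable [Fintype α] {H : Type} [AddCommGroup H] [Module K H]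
  {ρ : Equiv.Perm α →* Module.End K H}
  {Φ : (ℕ × ℕ → Finset α) → ((Finset α → Fk K) →ₗ[K] H)}

/-- equivariance of one term -/
theorem eqv_one (hΦ : Adm ρ r k I P Φ) (h : Sit r P a b c g) (hi : i ∈ I)
    {σ : Equiv.Perm α} (hσ : Sup (P \ F a b c g) σ) {n : ℕ × ℕ → Finset α}
    (hn : Cf r (I.erase i) (P \ F a b c g) n) {s : Finset α → Fk K}
    (hs : s ∈ Sc K r (k + 1) (rest (I.erase i) (P \ F a b c g) n)) :
    Φ (Function.update (fun j => im σ (n j)) i (insert a g)) (brk b c (sact K α σ s)) =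
      ρ σ (Φ (Function.update n i (insert a g)) (brk b c s)) := by
  have h1 := hΦ.eqv σ (U.sup_mono sdiff_subset hσ) _ (cf_N h hn) _ (brk_N h hi hn hs)
  have hF : ∀ x ∈ F a b c g, σ x = x := fun x hx => hσ x (fun hc => (mem_sdiff.1 hc).2 hx)
  have hb : σ b = b := hF b (by simp [F])
  have hc : σ c = c := hF c (by simp [F])
  have hg : im σ (insert a g) = insert a g :=
    U.im_eq_of_fix fun x hx => hF x (sub_F a b c g hx)
  rw [← h1, U.update_im, hg, U.sact_brk, hb, hc]

/-- exchange for one term -/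
theorem exch_one (hΦ : Adm ρ r k I P Φ) (h : Sit r P a b c g) (hi : i ∈ I)
    {j : ℕ} (hj : j ∈ I.image Prod.fst) {n : ℕ × ℕ → Finset α}
    (hn : Cf r (I.erase i) (P \ F a b c g) n) {m : Finset α}
    (hm : m ⊆ rest (I.erase i) (P \ F a b c g) n) (hmc : m.card = r) {x : Finset α → Fk K}
    (hx : x ∈ Sc K r k (rest (I.erase i) (P \ F a b c g) n \ m)) :
    Φ (Function.update n i (insert a g)) (brk b c (swd m x)) +
      ((∑ i' ∈ (sl I j).erase i, Φ (Function.update (Function.update n i' m) i (insert a g))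
        (brk b c (swd (n i') x))) +
      if i ∈ sl I j then Φ (Function.update n i m) (swd (insert a g) (brk b c x)) else 0) = 0 := by
  have hb : b ∉ m := fun hb => not_mem_b (hm hb)
  have hc : c ∉ m := fun hc => not_mem_c (hm hc)
  have hmN : m ⊆ rest I P (Function.update n i (insert a g)) := by
    rw [rest_N h hi hn]
    exact hm.trans ((subset_insert _ _).trans (subset_insert _ _))
  have h1 := hΦ.exch j hj _ (cf_N h hn) m hmN hmc _ (brk_Nm h hi hn hm hx)
  rw [U.brk_swd' hb hc]
  refine Eq.trans ?_ h1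
  congr 1
  have e1 : ∀ i' ∈ (sl I j).erase i,
      Φ (Function.update (Function.update n i' m) i (insert a g)) (brk b c (swd (n i') x)) =
      Φ (Function.update (Function.update n i (insert a g)) i' m)
        (swd (Function.update n i (insert a g) i') (brk b c x)) := by
    intro i' hi'
    obtain ⟨hne, hi's⟩ := mem_erase.1 hi'
    have hI : i' ∈ I.erase i := mem_erase.2 ⟨hne, (mem_filter.1 hi's).1⟩
    have hbn : b ∉ n i' := fun t => (mem_sdiff.1 ((hn.1 i' hI).2 t)).2 (by simp [F])
    have hcn : c ∉ n i' := fun t => (mem_sdiff.1 ((hn.1 i' hI).2 t)).2 (by simp [F])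
    rw [Function.update_of_ne hne, Function.update_comm hne, U.brk_swd' hbn hcn]
  rw [sum_congr rfl e1]
  split_ifs with h2
  · rw [← sum_erase_add _ _ h2, Function.update_self, Function.update_idem]
  · rw [add_zero, erase_eq_of_notMem h2]

end

end FrzX

open FrzX in
theorem prf_Frz (hPlk : S_Plk) : S_Frz := by
  intro K _ _ α _ _ H _ _ ρ r k I P i Φ hΦ hi u v l g hu hv hl hg huv hul hvl hug hvg hlg hcard
  have h1 : Sit r P l u v g :=
    ⟨huv, hul.symm, hvl.symm, hl, hu, hv, hg, hlg, hug, hvg, hcard⟩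
  have h2 : Sit r P u v l g := h1.rot
  have h3 : Sit r P v l u g := h2.rot
  have eF2 : F l u v g = F u v l g := F_rot l u v g
  have eF3 : F u v l g = F v l u g := F_rot u v l g
  refine ⟨fun n => (Φ (Function.update n i (insert l g))).comp (U.brkL u v) +
    (Φ (Function.update n i (insert u g))).comp (U.brkL v l) +
    (Φ (Function.update n i (insert v g))).comp (U.brkL l u), ⟨?_, ?_, ?_⟩, fun n x => rfl⟩
  · intro n n' hnn
    have e : ∀ X : Finset α, Φ (Function.update n i X) = Φ (Function.update n' i X) := by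
      intro X
      apply hΦ.loc
      intro j hj
      by_cases hji : j = i
      · rw [hji, Function.update_self, Function.update_self]
      · rw [Function.update_of_ne hji, Function.update_of_ne hji]
        exact hnn j (mem_erase.2 ⟨hji, hj⟩)
    simp only [e]
  · intro σ hσ n hn s hs
    have hn2 : Cf r (I.erase i) (P \ F u v l g) n := by rw [← eF2]; exact hn
    have hσ2 : Sup (P \ F u v l g) σ := by rw [← eF2]; exact hσ
    have hs2 : s ∈ Sc K r (k + 1) (rest (I.erase i) (P \ F u v l g) n) := by rw [← eF2]; exact hs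
    have hn3 : Cf r (I.erase i) (P \ F v l u g) n := by rw [← eF3]; exact hn2
    have hσ3 : Sup (P \ F v l u g) σ := by rw [← eF3]; exact hσ2
    have hs3 : s ∈ Sc K r (k + 1) (rest (I.erase i) (P \ F v l u g) n) := by
      rw [← eF3]; exact hs2
    have e1 := eqv_one hΦ h1 hi hσ hn hs
    have e2 := eqv_one hΦ h2 hi hσ2 hn2 hs2
    have e3 := eqv_one hΦ h3 hi hσ3 hn3 hs3
    simp only [LinearMap.add_apply, LinearMap.comp_apply, U.brkL_apply, map_add]
    rw [e1, e2, e3]
  · intro j hj n hn m hm hmc x hx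
    have hjI : j ∈ I.image Prod.fst := by
      obtain ⟨i', h4, h5⟩ := mem_image.1 hj
      exact mem_image.2 ⟨i', mem_of_mem_erase h4, h5⟩
    have hn2 : Cf r (I.erase i) (P \ F u v l g) n := by rw [← eF2]; exact hn
    have hm2 : m ⊆ rest (I.erase i) (P \ F u v l g) n := by rw [← eF2]; exact hm
    have hx2 : x ∈ Sc K r k (rest (I.erase i) (P \ F u v l g) n \ m) := by rw [← eF2]; exact hx
    have hn3 : Cf r (I.erase i) (P \ F v l u g) n := by rw [← eF3]; exact hn2
    have hm3 : m ⊆ rest (I.erase i) (P \ F v l u g) n := by rw [← eF3]; exact hm2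
    have hx3 : x ∈ Sc K r k (rest (I.erase i) (P \ F v l u g) n \ m) := by rw [← eF3]; exact hx2
    have e1 := exch_one hΦ h1 hi hjI hn hm hmc hx
    have e2 := exch_one hΦ h2 hi hjI hn2 hm2 hmc hx2
    have e3 := exch_one hΦ h3 hi hjI hn3 hm3 hmc hx3
    have hsl : sl (I.erase i) j = (sl I j).erase i := by
      ext q
      simp only [sl, mem_filter, mem_erase]
      tauto
    have e4 : (if i ∈ sl I j then Φ (Function.update n i m) (swd (insert l g) (brk u v x)) else 0) +
        (if i ∈ sl I j then Φ (Function.update n i m) (swd (insert u g) (brk v l x)) else 0) +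
        (if i ∈ sl I j then Φ (Function.update n i m) (swd (insert v g) (brk l u x)) else 0)
        = 0 := by
      split_ifs
      · rw [← map_add, ← map_add, hPlk K α u v l g x huv hul hvl hug hvg hlg, map_zero]
      · simp
    rw [hsl]
    simp only [LinearMap.add_apply, LinearMap.comp_apply, U.brkL_apply]
    rw [sum_add_distrib, sum_add_distrib]
    have e5 := congrArg₂ (· + ·) (congrArg₂ (· + ·) e1 e2) e3
    simp only [add_zero] at e5
    rw [← e5]
    generalize (if i ∈ sl I j then Φ (Function.update n i m) (swd (insert l g) (brk u v x))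
      else 0) = A1 at e4 ⊢
    generalize (if i ∈ sl I j then Φ (Function.update n i m) (swd (insert u g) (brk v l x))
      else 0) = A2 at e4 ⊢
    generalize (if i ∈ sl I j then Φ (Function.update n i m) (swd (insert v g) (brk l u x))
      else 0) = A3 at e4 ⊢
    have e6 : A3 = -(A1 + A2) := by
      rw [eq_neg_iff_add_eq_zero, add_comm]
      exact e4
    rw [e6]
    abel

end Pool.Agent.Work.MP_1233f5_ag.Y
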