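import Pool.Agent.Work.MP_1233f5_ag.Y.StmtsL

/-! MP_1233f5_ag, block Y, item Trans: transitivity on families of disjoint sets. -/

set_option autoImplicit false

namespace Pool.Agent.Work.MP_1233f5_ag.Y

open Finset

namespace TransX

/-- index of the block which contains the point -/
noncomputable def blk {α ι : Type} (I : Finset ι) (n : ι → Finset α) (a : α) : Option ι :=
  open Classical in if h : ∃ i ∈ I, a ∈ n i then some h.choose else none

theorem blk_eq {α ι : Type} {I : Finset ι} {n : ι → Finset α}
    (hn : ∀ i ∈ I, ∀ j ∈ I, i ≠ j → Disjoint (n i) (n j)) (a : α) (i : ι) :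
    blk I n a = some i ↔ i ∈ I ∧ a ∈ n i := by
  unfold blk
  constructor
  · intro h
    split_ifs at h with h1
    have h2 := h1.choose_spec
    rw [Option.some.inj h] at h2
    exact h2
  · rintro ⟨hi, ha⟩
    have h1 : ∃ i ∈ I, a ∈ n i := ⟨i, hi, ha⟩
    rw [dif_pos h1]
    congr 1
    by_contra h2
    exact Finset.disjoint_left.1 (hn _ h1.choose_spec.1 _ hi h2) h1.choose_spec.2 ha

theorem card_some {α ι : Type} [DecidableEq α] [DecidableEq ι] {I : Finset ι}
    {n : ι → Finset α}
    (hn : ∀ i ∈ I, ∀ j ∈ I, i ≠ j → Disjoint (n i) (n j)) (S : Finset α) (i : ι) :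
    (S.filter fun a => blk I n a = some i).card = if i ∈ I then (n i ∩ S).card else 0 := by
  split_ifs with hi
  · congr 1
    ext a
    simp only [Finset.mem_filter, blk_eq hn, Finset.mem_inter]
    tauto
  · rw [Finset.card_eq_zero, Finset.filter_eq_empty_iff]
    intro a _ h
    exact hi ((blk_eq hn a i).1 h).1

theorem card_total {α ι : Type} [DecidableEq α] [DecidableEq ι] {I : Finset ι}
    {n : ι → Finset α}
    (hn : ∀ i ∈ I, ∀ j ∈ I, i ≠ j → Disjoint (n i) (n j)) (S : Finset α) :
    S.card = (S.filter fun a => blk I n a = none).card + ∑ i ∈ I, (n i ∩ S).card := by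
  have hmaps : ∀ a ∈ S, blk I n a ∈ Finset.insertNone I := by
    intro a _
    cases h : blk I n a with
    | none => simp
    | some i =>
      rw [Finset.some_mem_insertNone]
      exact ((blk_eq hn a i).1 h).1
  rw [Finset.card_eq_sum_card_fiberwise (f := blk I n) (t := Finset.insertNone I)
      (fun a ha => by exact_mod_cast hmaps a (by exact_mod_cast ha)),
    Finset.sum_insertNone]
  congr 1
  refine Finset.sum_congr rfl fun i hi => ?_
  rw [card_some hn, if_pos hi]

theorem card_eq {α ι : Type} [DecidableEq α] [DecidableEq ι] {I : Finset ι}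
    {n n' : ι → Finset α}
    (hn : ∀ i ∈ I, ∀ j ∈ I, i ≠ j → Disjoint (n i) (n j))
    (hn' : ∀ i ∈ I, ∀ j ∈ I, i ≠ j → Disjoint (n' i) (n' j)) (S : Finset α)
    (h : ∀ i ∈ I, (n i ∩ S).card = (n' i ∩ S).card) (o : Option ι) :
    (S.filter fun a => blk I n a = o).card = (S.filter fun a => blk I n' a = o).card := by
  cases o with
  | some i =>
    rw [card_some hn, card_some hn']
    split_ifs with hi
    · exact h i hi
    · rfl
  | none =>
    have h1 := card_total hn S
    have h2 := card_total hn' S
    have h3 : ∑ i ∈ I, (n i ∩ S).card = ∑ i ∈ I, (n' i ∩ S).card :=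
      Finset.sum_congr rfl fun i hi => h i hi
    omega

/-- the labels -/
noncomputable def lab {α ι : Type} [DecidableEq α] (P Y : Finset α) (I : Finset ι)
    (n : ι → Finset α) (a : α) : α ⊕ (Bool × Option ι) :=
  if a ∈ P then Sum.inr (decide (a ∈ Y), blk I n a) else Sum.inl a

theorem lab_of_mem {α ι : Type} [DecidableEq α] {P Y : Finset α} {I : Finset ι}
    {n : ι → Finset α} {a : α} (ha : a ∈ P) :
    lab P Y I n a = Sum.inr (decide (a ∈ Y), blk I n a) := if_pos ha

theorem lab_of_not_mem {α ι : Type} [DecidableEq α] {P Y : Finset α} {I : Finset ι}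
    {n : ι → Finset α} {a : α} (ha : a ∉ P) :
    lab P Y I n a = Sum.inl a := if_neg ha

theorem lab_inl_iff {α ι : Type} [DecidableEq α] {P Y : Finset α} {I : Finset ι}
    {n : ι → Finset α} {a x : α} : lab P Y I n a = Sum.inl x ↔ a ∉ P ∧ a = x := by
  by_cases ha : a ∈ P
  · rw [lab_of_mem ha]
    constructor
    · intro h
      cases h
    · intro h
      exact absurd ha h.1
  · rw [lab_of_not_mem ha]
    constructor
    · intro h
      exact ⟨ha, Sum.inl.inj h⟩
    · intro h
      rw [h.2]

theorem lab_inr_iff {α ι : Type} [DecidableEq α] {P Y : Finset α} {I : Finset ι}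
    {n : ι → Finset α} {a : α} {b : Bool} {o : Option ι} :
    lab P Y I n a = Sum.inr (b, o) ↔ a ∈ P ∧ decide (a ∈ Y) = b ∧ blk I n a = o := by
  by_cases ha : a ∈ P
  · rw [lab_of_mem ha]
    constructor
    · intro h
      have h1 := Sum.inr.inj h
      exact ⟨ha, congrArg Prod.fst h1, congrArg Prod.snd h1⟩
    · rintro ⟨_, h1, h2⟩
      rw [h1, h2]
  · rw [lab_of_not_mem ha]
    constructor
    · intro h
      cases h
    · intro h
      exact absurd h.1 ha

end TransX

open TransX in
theorem prf_Trans : S_Trans := by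
  classical
  intro α _ _ ι I P Y n n' hY hP hP' hd hd' hc hcc
  have hS : ∀ b : Bool, ∀ i ∈ I, (n i ∩ (if b then Y else P \ Y)).card =
      (n' i ∩ (if b then Y else P \ Y)).card := by
    intro b i hi
    cases b with
    | true => simpa using hc i hi
    | false =>
      have e : ∀ m : Finset α, m ⊆ P → (m ∩ (P \ Y)).card + (m ∩ Y).card = m.card := by
        intro m hm
        have e1 : m ∩ (P \ Y) = m \ Y := by
          ext a
          simp only [Finset.mem_inter, Finset.mem_sdiff]
          exact ⟨fun h => ⟨h.1, h.2.2⟩, fun h => ⟨h.1, hm h.1, h.2⟩⟩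
        rw [e1]
        exact Finset.card_sdiff_add_card_inter m Y
      have e1 := e (n i) (hP i hi)
      have e2 := e (n' i) (hP' i hi)
      have e3 := hc i hi
      have e4 := hcc i hi
      simp only [Bool.false_eq_true, if_false]
      omega
  have hcard : ∀ c, Fintype.card {a // lab P Y I n a = c} =
      Fintype.card {b // lab P Y I n' b = c} := by
    intro c
    rw [Fintype.card_subtype, Fintype.card_subtype]
    cases c with
    | inl x =>
      congr 1
      ext a
      rw [Finset.mem_filter, Finset.mem_filter, lab_inl_iff, lab_inl_iff]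
    | inr c =>
      obtain ⟨b, o⟩ := c
      have h1 := card_eq hd hd' (if b then Y else P \ Y) (hS b) o
      have h2 : ∀ m : ι → Finset α, (Finset.univ.filter fun a => lab P Y I m a =
          Sum.inr (b, o)) = (if b then Y else P \ Y).filter fun a => blk I m a = o := by
        intro m
        ext a
        rw [Finset.mem_filter, Finset.mem_filter, lab_inr_iff]
        cases b with
        | true =>
          simp only [Finset.mem_univ, true_and, decide_eq_true_eq, if_true]
          exact ⟨fun h => h.2, fun h => ⟨hY h.1, h⟩⟩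
        | false =>
          simp only [Finset.mem_univ, true_and, decide_eq_false_iff_not, Bool.false_eq_true,
            if_false, Finset.mem_sdiff]
          tauto
      rw [h2 n, h2 n', h1]
  let e : ∀ c, {a // lab P Y I n a = c} ≃ {b // lab P Y I n' b = c} :=
    fun c => Fintype.equivOfCardEq (hcard c)
  let σ : Equiv.Perm α := Equiv.ofFiberEquiv e
  have hσ : ∀ a, lab P Y I n' (σ a) = lab P Y I n a := fun a => Equiv.ofFiberEquiv_map e a
  have hout : ∀ a, a ∉ P → σ a = a := by
    intro a ha
    have h := hσ a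
    unfold lab at h
    rw [if_neg ha] at h
    split_ifs at h with h1
    exact Sum.inl.inj h
  have hin : ∀ a, a ∈ P → σ a ∈ P ∧ (σ a ∈ Y ↔ a ∈ Y) ∧ blk I n' (σ a) = blk I n a := by
    intro a ha
    have h := hσ a
    unfold lab at h
    rw [if_pos ha] at h
    split_ifs at h with h1
    have h2 := Sum.inr.inj h
    have h3 := congrArg Prod.fst h2
    have h4 := congrArg Prod.snd h2
    refine ⟨h1, ?_, h4⟩
    simpa using h3
  have hmemP : ∀ a, σ a ∈ P ↔ a ∈ P := by
    intro a
    by_cases ha : a ∈ P
    · exact ⟨fun _ => ha, fun _ => (hin a ha).1⟩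
    · rw [hout a ha]
  refine ⟨σ, ⟨hout, ?_⟩, fun i hi => ?_⟩
  · ext b
    rw [mem_im]
    obtain ⟨a, rfl⟩ := σ.surjective b
    rw [show σ⁻¹ (σ a) = a from σ.symm_apply_apply a]
    by_cases ha : a ∈ P
    · exact (hin a ha).2.1.symm
    · rw [hout a ha]
  · ext b
    rw [mem_im]
    obtain ⟨a, rfl⟩ := σ.surjective b
    rw [show σ⁻¹ (σ a) = a from σ.symm_apply_apply a]
    by_cases ha : a ∈ P
    · have h := (hin a ha).2.2
      have h1 := blk_eq hd a i
      have h2 := blk_eq hd' (σ a) i
      rw [h, h1] at h2
      constructor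
      · intro h3
        exact (h2.1 ⟨hi, h3⟩).2
      · intro h3
        exact (h2.2 ⟨hi, h3⟩).2
    · rw [hout a ha]
      constructor
      · intro h3
        exact absurd (hP i hi h3) ha
      · intro h3
        exact absurd (hP' i hi h3) ha

end Pool.Agent.Work.MP_1233f5_ag.Y
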