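import Pool.Agent.Work.MP_1233f5_ag.Y.StmtsC

/-! MP_1233f5_ag, block Y, item Brg: from the exterior algebra to the functions on tuples. -/

set_option autoImplicit false

namespace Pool.Agent.Work.MP_1233f5_ag.Y

open Finset
open Pool.Agent.Work.MP_1233f5_ag.V (vm ML theta Alt dd rCh rcyc rVan)

namespace BrgX

section
variable {K : Type} [Field K] {α : Type}

/-- the coefficient functionals. -/
noncomputable def co : (p : ℕ) → (Fin p → Finset α) → (Lx K α →ₗ[K] K)
  | 0, _ => (ExteriorAlgebra.algebraMapInv (R := K) (M := Finset α →₀ K)).toLinearMap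
  | p + 1, t => (co p (Fin.tail t)).comp (ctr (Finsupp.lapply (t 0)))

theorem contract (f : (Finset α →₀ K) →ₗ[K] K) (p : ℕ) :
    ∀ v : Fin (p + 1) → (Finset α →₀ K),
      ctr f (ExteriorAlgebra.ιMulti K (p + 1) v) =
      ∑ i : Fin (p + 1), ((-1 : K) ^ (i : ℕ) * f (v i)) •
        ExteriorAlgebra.ιMulti K p (i.removeNth v) := by
  induction p with
  | zero =>
    intro v
    rw [ExteriorAlgebra.ιMulti_succ_apply]
    have h1 := CliffordAlgebra.contractLeft_ι_mul (Q := (0 : QuadraticForm K (Finset α →₀ K))) f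
      (v 0) (ExteriorAlgebra.ιMulti K 0 (Matrix.vecTail v))
    have h2 : CliffordAlgebra.contractLeft (Q := (0 : QuadraticForm K (Finset α →₀ K))) f
        (ExteriorAlgebra.ιMulti K 0 (Matrix.vecTail v)) = 0 := by
      rw [ExteriorAlgebra.ιMulti_zero_apply]
      exact CliffordAlgebra.contractLeft_one (Q := (0 : QuadraticForm K (Finset α →₀ K))) f
    rw [h2, mul_zero, sub_zero] at h1
    refine h1.trans ?_
    simp [ExteriorAlgebra.ιMulti_zero_apply]
  | succ p ih =>
    intro v
    rw [ExteriorAlgebra.ιMulti_succ_apply]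
    have h1 := CliffordAlgebra.contractLeft_ι_mul (Q := (0 : QuadraticForm K (Finset α →₀ K))) f
      (v 0) (ExteriorAlgebra.ιMulti K (p + 1) (Matrix.vecTail v))
    have ih' := ih (Matrix.vecTail v)
    unfold ctr at ih'
    rw [ih'] at h1
    refine h1.trans ?_
    conv_rhs => rw [Fin.sum_univ_succ]
    rw [Finset.mul_sum, sub_eq_add_neg, ← Finset.sum_neg_distrib]
    congr 1
    · simp only [Fin.val_zero, pow_zero, one_mul]
      congr 1
    · refine Finset.sum_congr rfl (fun i _ => ?_)
      rw [mul_smul_comm]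
      have h3 : ExteriorAlgebra.ιMulti K (p + 1) (i.succ.removeNth v) =
          ExteriorAlgebra.ι K (v 0) * ExteriorAlgebra.ιMulti K p (i.removeNth (Matrix.vecTail v)) := by
        rw [ExteriorAlgebra.ιMulti_succ_apply]
        congr 1
        congr 1
        funext j
        simp [Matrix.vecTail, Fin.removeNth, Fin.succ_succAbove_succ]
      rw [h3, ← neg_smul]
      congr 1
      simp only [Fin.val_succ, pow_succ, Matrix.vecTail, Function.comp_apply]
      ring

theorem co_multi (p : ℕ) : ∀ (s : Fin p → Finset α) (v : Fin p → (Finset α →₀ K)),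
    co p s (ExteriorAlgebra.ιMulti K p v) = Matrix.det (Matrix.of fun i j => (v j) (s i)) := by
  induction p with
  | zero =>
    intro s v
    rw [ExteriorAlgebra.ιMulti_zero_apply, Matrix.det_fin_zero]
    show ExteriorAlgebra.algebraMapInv (1 : Lx K α) = 1
    exact map_one _
  | succ p ih =>
    intro s v
    show co p (Fin.tail s) (ctr (Finsupp.lapply (s 0)) (ExteriorAlgebra.ιMulti K (p + 1) v)) = _
    rw [contract, map_sum, Matrix.det_succ_row_zero]
    refine Finset.sum_congr rfl (fun i _ => ?_)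
    rw [map_smul, ih, smul_eq_mul]
    rfl

theorem co_mo [DecidableEq α] {p : ℕ} (s t : Fin p → Finset α) :
    co p s (mo t : Lx K α) =
      ∑ σ : Equiv.Perm (Fin p), if t = s ∘ σ then ((Equiv.Perm.sign σ : ℤ) : K) else 0 := by
  unfold mo
  rw [co_multi, Matrix.det_apply]
  refine Finset.sum_congr rfl (fun σ _ => ?_)
  have h2 : (∏ i, (Matrix.of fun i j => (Finsupp.single (t j) (1 : K)) (s i) :
      Matrix (Fin p) (Fin p) K) (σ i) i) = if t = s ∘ σ then 1 else 0 := by
    by_cases h : t = s ∘ σ
    · rw [if_pos h]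
      refine Finset.prod_eq_one (fun i _ => ?_)
      show (Finsupp.single (t i) (1 : K)) (s (σ i)) = 1
      rw [Finsupp.single_apply]
      exact if_pos (congrFun h i)
    · rw [if_neg h]
      have h3 : ∃ i, t i ≠ s (σ i) := by
        by_contra h4
        push Not at h4
        exact h (funext h4)
      obtain ⟨i, hi⟩ := h3
      refine Finset.prod_eq_zero (Finset.mem_univ i) ?_
      show (Finsupp.single (t i) (1 : K)) (s (σ i)) = 0
      rw [Finsupp.single_apply, if_neg hi]
  rw [h2]
  split_ifs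
  · simp [Units.smul_def]
  · simp

theorem sign_sq {p : ℕ} (σ : Equiv.Perm (Fin p)) :
    ((Equiv.Perm.sign σ : ℤ) : K) * ((Equiv.Perm.sign σ : ℤ) : K) = 1 := by
  rw [← Int.cast_mul, ← Units.val_mul, Int.units_mul_self]
  simp

theorem co_Dx [Fintype α] [DecidableEq α] {p : ℕ} (t : Fin p → Finset α) (y : Lx K α) :
    co p t (Dx y) = ∑ e : Finset α, co (p + 1) (Fin.cons e t : Fin (p + 1) → Finset α) y := by
  have h1 : (Finsupp.linearCombination K (fun _ : Finset α => (1 : K))) =
      ∑ e : Finset α, (Finsupp.lapply e : (Finset α →₀ K) →ₗ[K] K) := by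
    apply Finsupp.lhom_ext'
    intro a
    ext
    simp [Finsupp.single_apply]
  have h2 : (Dx : Lx K α →ₗ[K] Lx K α) = ∑ e : Finset α, ctr (Finsupp.lapply e) := by
    unfold Dx ctr
    rw [h1, map_sum]
  rw [h2, LinearMap.sum_apply, map_sum]
  refine Finset.sum_congr rfl (fun e _ => ?_)
  show _ = co p (Fin.tail (Fin.cons e t : Fin (p + 1) → Finset α))
    (ctr (Finsupp.lapply ((Fin.cons e t : Fin (p + 1) → Finset α) 0)) y)
  rw [Fin.tail_cons, Fin.cons_zero]

theorem vm_comp {d p : ℕ} {P : Finset α} {s : Fin p → Finset α} (h : vm d P p s)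
    (σ : Equiv.Perm (Fin p)) : vm d P p (s ∘ σ) :=
  ⟨fun i => h.1 (σ i), fun _ _ hij => h.2 _ _ fun h' => hij (σ.injective h')⟩

variable [DecidableEq α]

theorem co_supp {d p : ℕ} {P : Finset α} {y : Lx K α} (hy : y ∈ Mt K d P p)
    (t : Fin p → Finset α) (ht : ¬ vm d P p t) : co p t y = 0 := by
  induction hy using Submodule.span_induction with
  | mem x hx =>
    obtain ⟨s, hs, rfl⟩ := hx
    rw [co_mo]
    refine Finset.sum_eq_zero (fun σ _ => ?_)
    rw [if_neg]
    intro h
    apply ht
    have h1 : t = s ∘ σ.symm := by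
      rw [h]
      funext i
      simp
    rw [h1]
    exact vm_comp hs _
  | zero => rw [map_zero]
  | add x y _ _ hx hy => rw [map_add, hx, hy, add_zero]
  | smul c x _ hx => rw [map_smul, hx, smul_zero]

theorem co_alt {d p : ℕ} {P : Finset α} {y : Lx K α} (hy : y ∈ Mt K d P p)
    (τ : Equiv.Perm (Fin p)) (t : Fin p → Finset α) :
    co p (t ∘ τ) y = ((Equiv.Perm.sign τ : ℤ) : K) * co p t y := by
  induction hy using Submodule.span_induction with
  | mem x hx =>
    obtain ⟨s, hs, rfl⟩ := hx
    rw [co_mo, co_mo, Finset.mul_sum]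
    refine Fintype.sum_equiv (Equiv.mulLeft τ) _ _ (fun σ => ?_)
    have h1 : (t ∘ ⇑τ) ∘ ⇑σ = t ∘ ⇑((Equiv.mulLeft τ) σ) := rfl
    rw [h1]
    split_ifs
    · show _ = ((Equiv.Perm.sign τ : ℤ) : K) * ((Equiv.Perm.sign (τ * σ) : ℤ) : K)
      rw [Equiv.Perm.sign_mul, Units.val_mul, Int.cast_mul, ← mul_assoc, sign_sq, one_mul]
    · rw [mul_zero]
  | zero => rw [map_zero, map_zero, mul_zero]
  | add x y _ _ hx hy => rw [map_add, map_add, hx, hy, mul_add]
  | smul c x _ hx =>
    rw [map_smul, map_smul, hx, smul_eq_mul, smul_eq_mul]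
    ring

theorem rep [CharZero K] [Fintype α] {d p : ℕ} {P : Finset α} {y : Lx K α}
    (hy : y ∈ Mt K d P p) :
    y = ((p.factorial : K)⁻¹) • ∑ t : Fin p → Finset α, co p t y • (mo t : Lx K α) := by
  have hp : (p.factorial : K) ≠ 0 := by exact_mod_cast (Nat.factorial_pos p).ne'
  let R : Lx K α →ₗ[K] Lx K α := ((p.factorial : K)⁻¹) •
    ∑ t : Fin p → Finset α, (co p t).smulRight (mo t)
  have hR : ∀ y, R y = ((p.factorial : K)⁻¹) •
      ∑ t : Fin p → Finset α, co p t y • (mo t : Lx K α) := by
    intro y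
    simp only [R, LinearMap.smul_apply, LinearMap.sum_apply, LinearMap.smulRight_apply]
  rw [← hR]
  induction hy using Submodule.span_induction with
  | mem x hx =>
    obtain ⟨s, hs, rfl⟩ := hx
    rw [hR]
    have h1 : ∑ t : Fin p → Finset α, co p t (mo s : Lx K α) • (mo t : Lx K α) =
        ∑ σ : Equiv.Perm (Fin p), (mo s : Lx K α) := by
      have h2 : ∀ t : Fin p → Finset α, co p t (mo s : Lx K α) • (mo t : Lx K α) =
          ∑ σ : Equiv.Perm (Fin p), if t = s ∘ σ.symm then
            ((Equiv.Perm.sign σ : ℤ) : K) • (mo t : Lx K α) else 0 := by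
        intro t
        rw [co_mo, Finset.sum_smul]
        refine Finset.sum_congr rfl (fun σ _ => ?_)
        have h3 : s = t ∘ σ ↔ t = s ∘ σ.symm := by
          constructor
          · intro h; rw [h]; funext i; simp
          · intro h; rw [h]; funext i; simp
        by_cases h : s = t ∘ σ
        · rw [if_pos h, if_pos (h3.1 h)]
        · rw [if_neg h, if_neg (fun h' => h (h3.2 h')), zero_smul]
      rw [Finset.sum_congr rfl (fun t _ => h2 t), Finset.sum_comm]
      refine Finset.sum_congr rfl (fun σ _ => ?_)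
      rw [Finset.sum_ite_eq' Finset.univ (s ∘ σ.symm), if_pos (Finset.mem_univ _), mo_perm,
        smul_smul, Equiv.Perm.sign_symm, sign_sq, one_smul]
    rw [h1, Finset.sum_const, Finset.card_univ, Fintype.card_perm, Fintype.card_fin,
      ← Nat.cast_smul_eq_nsmul K, smul_smul, inv_mul_cancel₀ hp, one_smul]
  | zero => rw [map_zero]
  | add x y _ _ hx hy => rw [map_add, ← hx, ← hy]
  | smul c x _ hx => rw [map_smul, ← hx]

end

end BrgX

open BrgX in
theorem prf_Brg : S_Brg := by
  intro K _ _ d T p hle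
  unfold ML rVan
  intro c hc hcyc
  obtain ⟨halt, hsup⟩ := hc
  have hp : (p.factorial : K) ≠ 0 := by exact_mod_cast (Nat.factorial_pos p).ne'
  set x : Lx K (Fin (p * d + T)) := ((p.factorial : K)⁻¹) •
    ∑ t : Fin p → Finset (Fin (p * d + T)), c t • (mo t : Lx K (Fin (p * d + T))) with hx
  have hxM : x ∈ Mt K d (univ : Finset (Fin (p * d + T))) p := by
    rw [hx]
    refine Submodule.smul_mem _ _ (Submodule.sum_mem _ (fun t _ => ?_))
    by_cases h : c t = 0
    · rw [h, zero_smul]
      exact Submodule.zero_mem _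
    · exact Submodule.smul_mem _ _ (mo_mem_Mt (hsup t h))
  have hcox : ∀ s : Fin p → Finset (Fin (p * d + T)), co p s x = c s := by
    intro s
    rw [hx, map_smul, map_sum, smul_eq_mul]
    have h1 : ∑ t : Fin p → Finset (Fin (p * d + T)), co p s (c t • (mo t : Lx K _)) =
        ∑ σ : Equiv.Perm (Fin p), c s := by
      have h2 : ∀ t : Fin p → Finset (Fin (p * d + T)), co p s (c t • (mo t : Lx K _)) =
          ∑ σ : Equiv.Perm (Fin p), if t = s ∘ σ then
            ((Equiv.Perm.sign σ : ℤ) : K) * c t else 0 := by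
        intro t
        rw [map_smul, co_mo, smul_eq_mul, Finset.mul_sum]
        refine Finset.sum_congr rfl (fun σ _ => ?_)
        split_ifs
        · ring
        · rw [mul_zero]
      rw [Finset.sum_congr rfl (fun t _ => h2 t), Finset.sum_comm]
      refine Finset.sum_congr rfl (fun σ _ => ?_)
      rw [Finset.sum_ite_eq' Finset.univ (s ∘ σ), if_pos (Finset.mem_univ _), halt σ s,
        ← mul_assoc, sign_sq, one_mul]
    rw [h1, Finset.sum_const, Finset.card_univ, Fintype.card_perm, Fintype.card_fin,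
      nsmul_eq_mul, ← mul_assoc, inv_mul_cancel₀ hp, one_mul]
  have hDx : Dx x = 0 := by
    cases p with
    | zero => exact Dx_zero_chain hxM
    | succ p =>
      have h1 := Dx_mem hxM
      rw [rep h1]
      have h2 : ∀ t : Fin p → Finset (Fin ((p + 1) * d + T)), co p t (Dx x) = 0 := by
        intro t
        by_cases ht : vm d univ p t
        · rw [co_Dx]
          have h3 := hcyc t ht
          unfold dd at h3
          rw [← h3]
          exact Finset.sum_congr rfl (fun e _ => hcox _)
        · exact co_supp h1 t ht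
      rw [Finset.sum_eq_zero (fun t _ => by rw [h2 t, zero_smul]), smul_zero]
  have hxB := hle (show x ∈ Cy K d univ p from ⟨hxM, hDx⟩)
  obtain ⟨y, hy, hyx⟩ := hxB
  refine ⟨fun t => co (p + 1) t y, ⟨fun σ t => co_alt hy σ t, fun t ht => ?_⟩, fun t _ => ?_⟩
  · by_contra h
    exact ht (co_supp hy t h)
  · unfold dd
    rw [← co_Dx, hyx]
    exact hcox t

end Pool.Agent.Work.MP_1233f5_ag.Y
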