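import Pool.Agent.Work.MP_1233f5_ag.Y.StmtsC

/-! MP_1233f5_ag, block Y: item EQ (expansion of `q_{b+1}` with respect to the last point). -/

set_option autoImplicit false

namespace Pool.Agent.Work.MP_1233f5_ag.Y

open Finset
open Pool.Agent.Work.MP_1233f5_ag.V (vm ML theta)
open Pool.Agent.Work.MP_1233f5_ag.Sec (Fk wd ct ee ff hh IsSec IsDeg swd brk)

namespace EQX

open Equiv

/-- the permutation with `last` at the place `k` and `ρ` at the other places. -/
def A {n : ℕ} (k : Fin (n + 1)) (ρ : Perm (Fin n)) : Perm (Fin (n + 1)) :=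
  (finRotate (n + 1))⁻¹ * (Equiv.Perm.decomposeFin.symm (0, ρ) * Fin.cycleRange k)

theorem rot_zero {n : ℕ} : (finRotate (n + 1))⁻¹ 0 = Fin.last n := by
  rw [Equiv.Perm.inv_eq_iff_eq, finRotate_last]

theorem rot_succ {n : ℕ} (j : Fin n) : (finRotate (n + 1))⁻¹ j.succ = j.castSucc := by
  rw [Equiv.Perm.inv_eq_iff_eq, finRotate_apply, Fin.coeSucc_eq_succ]

theorem A_self {n : ℕ} (k : Fin (n + 1)) (ρ : Perm (Fin n)) : A k ρ k = Fin.last n := by
  unfold A
  rw [Perm.mul_apply, Perm.mul_apply, Fin.cycleRange_self,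
    Equiv.Perm.decomposeFin_symm_apply_zero, rot_zero]

theorem A_succAbove {n : ℕ} (k : Fin (n + 1)) (ρ : Perm (Fin n)) (j : Fin n) :
    A k ρ (k.succAbove j) = (ρ j).castSucc := by
  unfold A
  rw [Perm.mul_apply, Perm.mul_apply, Fin.cycleRange_succAbove,
    Equiv.Perm.decomposeFin_symm_apply_succ, swap_self, Equiv.refl_apply, rot_succ]

theorem sign_A {n : ℕ} (k : Fin (n + 1)) (ρ : Perm (Fin n)) :
    Perm.sign (A k ρ) = (-1) ^ n * (Perm.sign ρ * (-1) ^ (k : ℕ)) := by
  unfold A
  rw [Perm.sign_mul, Perm.sign_mul, Perm.sign_inv, sign_finRotate, Fin.sign_cycleRange,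
    Equiv.Perm.decomposeFin.symm_sign, if_pos rfl, one_mul, Nat.add_sub_cancel]

theorem A_bij (n : ℕ) :
    Function.Bijective (fun q : Fin (n + 1) × Perm (Fin n) => A q.1 q.2) := by
  rw [Fintype.bijective_iff_injective_and_card]
  constructor
  · rintro ⟨k, ρ⟩ ⟨k', ρ'⟩ h
    simp only at h
    have hk : k = k' := by
      have h1 := A_self k ρ
      rw [h] at h1
      have h2 := A_self k' ρ'
      exact (A k' ρ').injective (h1.trans h2.symm)
    subst hk
    have hρ : ρ = ρ' := by
      ext j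
      have h1 := A_succAbove k ρ j
      rw [h, A_succAbove] at h1
      have := Fin.castSucc_injective _ h1
      rw [this]
    rw [hρ]
  · rw [Fintype.card_prod, Fintype.card_fin, Fintype.card_perm, Fintype.card_perm,
      Fintype.card_fin, Fintype.card_fin, Nat.factorial_succ]

variable {K : Type} [Field K] {α : Type}

/-- moving a generator to the end of a product. -/
theorem ed_mo {p : ℕ} (e : Finset α) (t : Fin p → Finset α) :
    (ed e * mo t : Lx K α) = ((-1 : K) ^ p) • (mo t * ed e) := by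
  induction p with
  | zero => rw [mo_zero, pow_zero, one_smul, mul_one, one_mul]
  | succ p ih =>
    rw [mo_succ, ← mul_assoc, ed_mul_ed, neg_mul, mul_assoc, ih, pow_succ, mul_smul_comm,
      mul_neg_one, neg_smul, mul_assoc]

/-- a product with `e` at the place `k`. -/
theorem mo_at {p : ℕ} (k : Fin (p + 1)) (T : Fin (p + 1) → Finset α) :
    (mo T : Lx K α) = ((-1 : K) ^ ((k : ℕ) + p)) •
      (mo (fun j => T (k.succAbove j)) * ed (T k)) := by
  have h : T = (Fin.cons (T k) (fun j => T (k.succAbove j)) : Fin (p + 1) → Finset α) ∘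
      (Fin.cycleRange k) := by
    funext i
    rw [Function.comp_apply]
    rcases Fin.eq_self_or_eq_succAbove k i with h | ⟨j, h⟩
    · rw [h, Fin.cycleRange_self, Fin.cons_zero]
    · rw [h, Fin.cycleRange_succAbove, Fin.cons_succ]
  conv_lhs => rw [h]
  rw [mo_perm, mo_cons, ed_mo, smul_smul, Fin.sign_cycleRange, pow_add]
  congr 1
  push_cast
  ring

end EQX

open EQX in
theorem prf_EQ : S_EQ := by
  intro K _ α _ b η x n
  set η' := Function.update η (b + 1) x with hη'
  have hη : ∀ i : Fin (b + 1), η' (i : ℕ) = η (i : ℕ) := by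
    intro i
    rw [hη', Function.update_of_ne]
    exact i.isLt.ne
  have hx : η' (b + 1) = x := by rw [hη', Function.update_self]
  rw [← Fin.sum_univ_eq_sum_range
      (fun k => (qn b η (skp k n) * ed (insert x (n k)) : Lx K α))]
  conv_lhs => unfold qn
  rw [← (A_bij (b + 1)).sum_comp, Fintype.sum_prod_type, Fin.sum_univ_castSucc, add_comm,
    sub_eq_add_neg]
  congr 1
  · -- `k = last`
    unfold En
    apply Finset.sum_congr rfl
    intro ρ _
    have h1 : ∀ i : Fin (b + 1), A (Fin.last (b + 1)) ρ i.castSucc = (ρ i).castSucc := by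
      intro i
      have := A_succAbove (Fin.last (b + 1)) ρ i
      rwa [Fin.succAbove_last] at this
    congr 1
    · rw [sign_A, Fin.val_last]
      have h2 : ((-1 : ℤˣ) ^ (b + 1)) * ((-1 : ℤˣ) ^ (b + 1)) = 1 := by
        rw [← mul_pow]; simp
      have h3 : (-1 : ℤˣ) ^ (b + 1) * (Equiv.Perm.sign ρ * (-1) ^ (b + 1)) = Equiv.Perm.sign ρ := by
        rw [mul_left_comm, h2, mul_one]
      rw [h3]
    · congr 1
      funext i
      rw [h1 i, Fin.val_castSucc, hη]
  · -- `k = k'.castSucc`
    rw [← Finset.sum_neg_distrib]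
    apply Finset.sum_congr rfl
    intro k _
    unfold qn
    rw [Finset.sum_mul, ← Finset.sum_neg_distrib]
    apply Finset.sum_congr rfl
    intro ρ _
    have h1 : A k.castSucc ρ k.castSucc = Fin.last (b + 1) := A_self _ _
    have h2 : ∀ j : Fin b, A k.castSucc ρ (k.succAbove j).castSucc = (ρ j.castSucc).castSucc := by
      intro j
      have h := A_succAbove k.castSucc ρ j.castSucc
      rwa [Fin.castSucc_succAbove_castSucc] at h
    have h3 : ∀ j : Fin b, n ((k.succAbove j : Fin (b + 1)) : ℕ) = skp (k : ℕ) n (j : ℕ) := by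
      intro j
      unfold skp
      rcases lt_or_ge (j.castSucc) k with h | h
      · rw [Fin.succAbove_of_castSucc_lt _ _ h, if_pos (by simpa [Fin.lt_def] using h),
          Fin.val_castSucc]
      · rw [Fin.succAbove_of_le_castSucc _ _ h,
          if_neg (by simpa [Fin.le_def] using h), Fin.val_succ]
    rw [mo_at k, sign_A]
    simp only [h1, h2, h3, Fin.val_last, Fin.val_castSucc, hη, hx]
    rw [smul_mul_assoc, smul_smul, ← neg_smul]
    congr 1
    push_cast
    have h4 : ((-1 : K) ^ b) * ((-1 : K) ^ b) = 1 := by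
      rw [← mul_pow]; simp
    have h5 : ((-1 : K) ^ (k : ℕ)) * ((-1 : K) ^ (k : ℕ)) = 1 := by
      rw [← mul_pow]; simp
    rw [pow_succ, pow_add]
    linear_combination (-(((Equiv.Perm.sign ρ : ℤ) : K)) * ((-1 : K) ^ (k : ℕ)) *
      ((-1 : K) ^ (k : ℕ))) * h4 - (((Equiv.Perm.sign ρ : ℤ) : K)) * h5

end Pool.Agent.Work.MP_1233f5_ag.Y
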