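import Pool.Agent.Work.MP_1233f5_ag.Y.StmtsC

/-! MP_1233f5_ag, block Y: item CfQ. -/

set_option autoImplicit false

namespace Pool.Agent.Work.MP_1233f5_ag.Y

open Finset

namespace CfQX

section gen
variable {K : Type} [Field K] {α : Type}

theorem ctr_mo {p : ℕ} (e : Finset α) (t : Fin p → Finset α) (h : ∀ i, t i ≠ e) (x : Lx K α)
    (hx : ctr (Finsupp.lapply e) x = 0) : ctr (Finsupp.lapply e) (mo t * x) = 0 := by
  induction p with
  | zero => rw [mo_zero, one_mul]; exact hx
  | succ p ih =>
    have h1 : (Finsupp.lapply e : (Finset α →₀ K) →ₗ[K] K) (Finsupp.single (t 0) 1) = 0 := by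
      classical
      rw [Finsupp.lapply_apply, Finsupp.single_apply, if_neg (h 0)]
    rw [mo_succ, mul_assoc, ctr_ed_mul, ih (Fin.tail t) (fun i => h i.succ), mul_zero, sub_zero,
      h1, zero_smul]

theorem cf_zero {m : ℕ} (e : ℕ → Finset α) {k : ℕ} (hk : k < m) (x : Lx K α)
    (h : ctr (Finsupp.lapply (e k)) x = 0) : cf m e x = 0 := by
  induction m generalizing e k x with
  | zero => omega
  | succ m ih =>
    show cf m (fun i => e (i + 1)) (ctr (Finsupp.lapply (e 0)) x) = 0
    rcases Nat.eq_zero_or_pos k with rfl | hk0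
    · rw [h, map_zero]
    · obtain ⟨k', rfl⟩ : ∃ k', k = k' + 1 := ⟨k - 1, by omega⟩
      refine ih (fun i => e (i + 1)) (k := k') (by omega) _ ?_
      show ctr (Finsupp.lapply (e (k' + 1))) (ctr (Finsupp.lapply (e 0)) x) = 0
      rw [ctr_ctr, h, map_zero, neg_zero]

theorem cf_self {m : ℕ} (e : ℕ → Finset α) (hinj : ∀ i < m, ∀ j < m, e i = e j → i = j)
    (x : Lx K α) (h : ∀ k < m, ctr (Finsupp.lapply (e k)) x = 0) :
    cf m e (mo (fun i : Fin m => e i) * x) = x := by
  induction m generalizing e with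
  | zero => rw [mo_zero, one_mul]; rfl
  | succ m ih =>
    show cf m (fun i => e (i + 1))
      (ctr (Finsupp.lapply (e 0)) (mo (fun i : Fin (m + 1) => e i) * x)) = x
    have h1 : ctr (Finsupp.lapply (e 0)) (mo (Fin.tail (fun i : Fin (m + 1) => e i)) * x) = 0 := by
      refine ctr_mo _ _ (fun i h' => ?_) x (h 0 (Nat.succ_pos m))
      have h2 : e ((i : ℕ) + 1) = e 0 := h'
      have := hinj _ (Nat.succ_lt_succ i.2) 0 (Nat.succ_pos m) h2
      omega
    have h3 : (Finsupp.lapply (e 0) : (Finset α →₀ K) →ₗ[K] K)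
        (Finsupp.single ((fun i : Fin (m + 1) => e i) 0) 1) = 1 := by
      rw [Finsupp.lapply_apply]
      exact Finsupp.single_eq_same
    rw [mo_succ, mul_assoc, ctr_ed_mul, h1, mul_zero, sub_zero, h3, one_smul]
    exact ih (fun i => e (i + 1)) (fun i hi j hj hij => by
      have := hinj (i + 1) (by omega) (j + 1) (by omega) hij
      omega) (fun k hk => h (k + 1) (by omega))

theorem ctr_Mt [DecidableEq α] {d p : ℕ} {P : Finset α} {e : Finset α} {a : α} (ha : a ∈ e)
    (haP : a ∉ P) {x : Lx K α} (hx : x ∈ Mt K d P p) : ctr (Finsupp.lapply e) x = 0 := by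
  induction hx using Submodule.span_induction with
  | mem x hx =>
    obtain ⟨t, ht, rfl⟩ := hx
    rw [← mul_one (mo t : Lx K α)]
    refine ctr_mo e t (fun i h => ?_) 1 (ctr_one _)
    rw [← h] at ha
    exact haP ((ht.1 i).2 ha)
  | zero => rw [map_zero]
  | add x y _ _ hx hy => rw [map_add, hx, hy, add_zero]
  | smul c x _ hx => rw [map_smul, hx, smul_zero]

end gen

/-- extension of a permutation. -/
noncomputable def ex {m : ℕ} (τ : Equiv.Perm (Fin m)) : Equiv.Perm (Fin (m + 1)) :=
  τ.extendDomain (finSuccAboveEquiv (Fin.last m))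

theorem ex_castSucc {m : ℕ} (τ : Equiv.Perm (Fin m)) (i : Fin m) :
    ex τ i.castSucc = (τ i).castSucc := by
  have h : ∀ j : Fin m, (((finSuccAboveEquiv (Fin.last m)) j : {x : Fin (m + 1) //
      x ≠ Fin.last m}) : Fin (m + 1)) = j.castSucc := by
    intro j
    show (Fin.last m).succAbove j = j.castSucc
    rw [Fin.succAbove_last]
  have := Equiv.Perm.extendDomain_apply_image τ (finSuccAboveEquiv (Fin.last m)) i
  rw [h, h] at this
  exact this

theorem sign_ex {m : ℕ} (τ : Equiv.Perm (Fin m)) : Equiv.Perm.sign (ex τ) = Equiv.Perm.sign τ :=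
  Equiv.Perm.sign_extendDomain _ _

end CfQX

open CfQX

theorem prf_CfQ : S_CfQ := by
  intro K _ α _ r m p P q f f0 hr hf h0 w hw
  -- the sets are different
  have hfinj : ∀ i < m, ∀ j < m, f i = f j → i = j := by
    intro i hi j hj hij
    by_contra hne
    have h1 := hf.dis i hi j hj hne
    rw [hij, Finset.disjoint_self_iff_empty] at h1
    have h2 := hf.card j hj
    rw [h1, Finset.card_empty] at h2
    omega
  have hkey : ∀ k < m, ∀ l ≤ m, ∀ i < m, insert (q l) (f0 i) = insert (q k) (f k) →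
      l = k ∧ f0 i = f k := by
    intro k hk l hl i hi h
    have h1 : q k ∈ insert (q l) (f0 i) := by rw [h]; exact Finset.mem_insert_self _ _
    rw [Finset.mem_insert] at h1
    rcases h1 with h1 | h1
    · have h2 := hf.inj k hk.le l hl h1
      refine ⟨h2.symm, ?_⟩
      rw [← h2] at h
      have h3 : (insert (q k) (f0 i)).erase (q k) = (insert (q k) (f k)).erase (q k) := by rw [h]
      rwa [Finset.erase_insert (h0.out k hk.le i hi), Finset.erase_insert (hf.out k hk.le k hk)]
        at h3
    · exact absurd h1 (h0.out k hk.le i hi)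
  have hinj : ∀ i < m, ∀ j < m, insert (q i) (f i) = insert (q j) (f j) → i = j := by
    intro i hi j hj h
    have h1 : q i ∈ insert (q j) (f j) := by rw [← h]; exact Finset.mem_insert_self _ _
    rw [Finset.mem_insert] at h1
    rcases h1 with h1 | h1
    · exact hf.inj i hi.le j hj.le h1
    · exact absurd h1 (hf.out i hi.le j hj)
  have hw0 : ∀ k < m, ctr (Finsupp.lapply (insert (q k) (f k))) w = 0 := by
    intro k hk
    refine ctr_Mt (Finset.mem_insert_self (q k) (f k)) ?_ hw
    rw [Finset.mem_sdiff]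
    rintro ⟨-, h⟩
    apply h
    unfold bs
    exact Finset.mem_union_left _ (Finset.mem_image_of_mem _ (Finset.mem_range.2 (by omega)))
  have hsum : cf m (fun i => insert (q i) (f i)) (qn m q f0 * w) =
      ∑ σ : Equiv.Perm (Fin (m + 1)), ((Equiv.Perm.sign σ : ℤ) : K) •
        cf m (fun i => insert (q i) (f i))
          (mo (fun i : Fin m => insert (q ((σ i.castSucc : Fin (m + 1)) : ℕ)) (f0 (i : ℕ))) * w) := by
    unfold qn
    rw [Finset.sum_mul, map_sum]
    refine Finset.sum_congr rfl fun σ _ => ?_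
    rw [smul_mul_assoc, map_smul]
  -- a term is zero unless all sets occur
  have hterm : ∀ σ : Equiv.Perm (Fin (m + 1)),
      (¬ ∀ k < m, ∃ i : Fin m, ((σ i.castSucc : Fin (m + 1)) : ℕ) = k ∧ f0 (i : ℕ) = f k) →
      cf m (fun i => insert (q i) (f i))
          (mo (fun i : Fin m => insert (q ((σ i.castSucc : Fin (m + 1)) : ℕ)) (f0 (i : ℕ))) * w)
        = 0 := by
    intro σ h
    push Not at h
    obtain ⟨k, hk, h⟩ := h
    refine cf_zero _ hk _ (ctr_mo _ _ (fun i hi => ?_) _ (hw0 k hk))
    have h1 := hkey k hk _ (Nat.lt_succ_iff.1 (σ i.castSucc).2) (i : ℕ) i.2 hi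
    exact h i h1.1 h1.2
  rw [hsum]
  by_cases hex : ∃ σ : Equiv.Perm (Fin m), ∀ i : Fin m, f0 (i : ℕ) = f ((σ i : Fin m) : ℕ)
  · rw [if_pos hex]
    obtain ⟨τ, hτ⟩ := hex
    rw [Finset.sum_eq_single (ex τ)]
    · have h1 : (fun i : Fin m => insert (q ((ex τ i.castSucc : Fin (m + 1)) : ℕ)) (f0 (i : ℕ))) =
          (fun i : Fin m => insert (q (i : ℕ)) (f (i : ℕ))) ∘ τ := by
        funext i
        rw [ex_castSucc, hτ i]
        rfl
      rw [h1, mo_perm, smul_mul_assoc, map_smul, sign_ex, smul_smul]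
      have h2 : ((Equiv.Perm.sign τ : ℤ) : K) * ((Equiv.Perm.sign τ : ℤ) : K) = 1 := by
        rw [← Int.cast_mul, ← Units.val_mul, Int.units_mul_self]
        simp
      rw [h2, one_smul]
      exact cf_self (fun i => insert (q i) (f i)) hinj w hw0
    · intro σ _ hσ
      rw [hterm σ, smul_zero]
      intro h
      apply hσ
      have h1 : ∀ i : Fin m, σ i.castSucc = ex τ i.castSucc := by
        intro i
        obtain ⟨i', h2, h3⟩ := h _ (τ i).2
        rw [hτ i'] at h3
        have h4 : τ i' = τ i := Fin.ext (hfinj _ (τ i').2 _ (τ i).2 h3)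
        have h5 : i' = i := τ.injective h4
        rw [h5] at h2
        rw [ex_castSucc]
        exact Fin.ext h2
      apply Equiv.ext
      intro j
      refine Fin.lastCases ?_ (fun i => h1 i) j
      by_contra hne
      obtain ⟨l, hl⟩ := (ex τ).surjective (σ (Fin.last m))
      induction l using Fin.lastCases with
      | last => exact hne hl.symm
      | cast i =>
        rw [← h1] at hl
        have := σ.injective hl
        exact (Fin.castSucc_lt_last i).ne this
    · intro h
      exact absurd (Finset.mem_univ _) h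
  · rw [if_neg hex]
    refine Finset.sum_eq_zero fun σ _ => ?_
    rw [hterm σ, smul_zero]
    intro h
    apply hex
    have h1 : ∀ k : Fin m, ∃ i : Fin m, ((σ i.castSucc : Fin (m + 1)) : ℕ) = (k : ℕ) ∧
        f0 (i : ℕ) = f (k : ℕ) := fun k => h _ k.2
    choose g hg1 hg2 using h1
    have hginj : Function.Injective g := by
      intro k k' hkk
      apply Fin.ext
      rw [← hg1 k, ← hg1 k', hkk]
    have hgb : Function.Bijective g := Finite.injective_iff_bijective.1 hginj
    refine ⟨(Equiv.ofBijective g hgb).symm, fun i => ?_⟩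
    obtain ⟨k, rfl⟩ := hgb.2 i
    rw [Equiv.ofBijective_symm_apply_apply]
    exact hg2 k

end Pool.Agent.Work.MP_1233f5_ag.Y
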