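import Pool.Agent.Work.MP_1233f5_ag.Y.StmtsC

/-! MP_1233f5_ag, block Y: symmetry of `q_b` in the sets. -/

set_option autoImplicit false

namespace Pool.Agent.Work.MP_1233f5_ag.Y

open Finset
open Pool.Agent.Work.MP_1233f5_ag.V (vm ML theta)
open Pool.Agent.Work.MP_1233f5_ag.Sec (Fk wd ct ee ff hh IsSec IsDeg swd brk)

namespace QSwX

/-- the extension of a permutation that fixes the last index. -/
def ext {b : ℕ} (τ : Equiv.Perm (Fin b)) : Equiv.Perm (Fin (b + 1)) :=
  finSuccEquivLast.symm.permCongr (Equiv.optionCongr τ)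

theorem ext_castSucc {b : ℕ} (τ : Equiv.Perm (Fin b)) (i : Fin b) :
    ext τ i.castSucc = (τ i).castSucc := by
  unfold ext
  rw [Equiv.permCongr_apply, Equiv.symm_symm, finSuccEquivLast_castSucc]
  simp

theorem sign_ext {b : ℕ} (τ : Equiv.Perm (Fin b)) :
    Equiv.Perm.sign (ext τ) = Equiv.Perm.sign τ := by
  unfold ext
  rw [Equiv.Perm.sign_permCongr, Equiv.optionCongr_sign]

theorem sgn_mul_sgn {K : Type} [Field K] {b : ℕ} (τ : Equiv.Perm (Fin b)) :
    ((Equiv.Perm.sign τ : ℤ) : K) * ((Equiv.Perm.sign τ : ℤ) : K) = 1 := by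
  rcases Int.units_eq_one_or (Equiv.Perm.sign τ) with h | h <;> rw [h] <;> simp

end QSwX

open QSwX in
theorem prf_QSw : S_QSw := by
  intro K _ α _ b η n n' τ h
  unfold qn
  refine (Equiv.sum_comp (Equiv.mulRight (ext τ)) _).symm.trans (Finset.sum_congr rfl ?_)
  intro σ _
  have h1 : (fun i : Fin b => insert (η (((σ * ext τ) i.castSucc : Fin (b + 1)) : ℕ)) (n' (i : ℕ))) =
      (fun i : Fin b => insert (η ((σ i.castSucc : Fin (b + 1)) : ℕ)) (n (i : ℕ))) ∘ τ := by
    funext i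
    simp only [Function.comp_apply, Equiv.Perm.mul_apply, ext_castSucc, h]
  rw [Equiv.coe_mulRight, h1, mo_perm, Equiv.Perm.sign_mul, sign_ext, smul_smul, Units.val_mul,
    Int.cast_mul, mul_assoc, sgn_mul_sgn, mul_one]

end Pool.Agent.Work.MP_1233f5_ag.Y
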