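import Pool.Agent.Work.MP_1233f5_ag.Y.StmtsC

/-! The exchange identity. -/

set_option autoImplicit false

namespace Pool.Agent.Work.MP_1233f5_ag.Y

open Finset

namespace QXX

/-- the cycle of the positions `k, ..., b - 1`. -/
def tf (b k : ℕ) (hk : k < b) (i : Fin b) : Fin b :=
  if (i : ℕ) < k then i else if h2 : (i : ℕ) + 1 < b then ⟨i + 1, h2⟩ else ⟨k, hk⟩

theorem tf_val (b k : ℕ) (hk : k < b) (i : Fin b) : ((tf b k hk i : Fin b) : ℕ) =
    if (i : ℕ) < k then (i : ℕ) else if (i : ℕ) + 1 < b then (i : ℕ) + 1 else k := by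
  unfold tf
  split_ifs <;> rfl

theorem tf_inj (b k : ℕ) (hk : k < b) : Function.Injective (tf b k hk) := by
  intro i j h
  have h1 := congrArg (fun x : Fin b => (x : ℕ)) h
  simp only [tf_val] at h1
  have hi := i.2
  have hj := j.2
  apply Fin.ext
  split_ifs at h1 <;> omega

/-- the permutation. -/
noncomputable def tau (b k : ℕ) (hk : k < b) : Equiv.Perm (Fin b) :=
  Equiv.ofBijective (tf b k hk) (Finite.injective_iff_bijective.1 (tf_inj b k hk))

theorem tau_val (b k : ℕ) (hk : k < b) (i : Fin b) : ((tau b k hk i : Fin b) : ℕ) =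
    if (i : ℕ) < k then (i : ℕ) else if (i : ℕ) + 1 < b then (i : ℕ) + 1 else k :=
  tf_val b k hk i

theorem skp_upd {β : Type} (b k : ℕ) (hk : k < b) (n : ℕ → β) (m : β) (i : Fin b) :
    skp k (Function.update n b m) (i : ℕ) =
      Function.update n k m ((tau b k hk i : Fin b) : ℕ) := by
  have hi := i.2
  rw [tau_val]
  unfold skp
  by_cases h1 : (i : ℕ) < k
  · rw [if_pos h1, if_pos h1, Function.update_of_ne (by omega), Function.update_of_ne (by omega)]
  · rw [if_neg h1, if_neg h1]
    by_cases h2 : (i : ℕ) + 1 < b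
    · rw [if_pos h2, Function.update_of_ne (by omega), Function.update_of_ne (by omega)]
    · rw [if_neg h2, Function.update_self]
      have h3 : (i : ℕ) + 1 = b := by omega
      rw [h3, Function.update_self]

end QXX

open QXX in
theorem prf_QX (hEQ : S_EQ) (hQSw : S_QSw) : S_QX := by
  intro K _ α _ b η u v n m
  have e1 := hEQ K α b η u (Function.update n b m)
  have e2 := hEQ K α b η v (Function.update n b m)
  have e3 : (qn b η (skp b (Function.update n b m)) : Lx K α) = qn b η n := by
    refine qn_congr (fun _ _ => rfl) fun i hi => ?_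
    unfold skp
    rw [if_pos hi, Function.update_of_ne (by omega)]
  have e4 : ∀ k ∈ range b, (qn b η (skp k (Function.update n b m)) : Lx K α) =
      qn b η (Function.update n k m) := fun k hk =>
    hQSw K α b η _ _ (tau b k (mem_range.1 hk)) fun i => skp_upd b k (mem_range.1 hk) n m i
  have e5 : ∀ x : α, ∑ k ∈ range (b + 1), (qn b η (skp k (Function.update n b m)) *
      ed (insert x (Function.update n b m k)) : Lx K α) =
      ∑ k ∈ range b, (qn b η (Function.update n k m) * ed (insert x (n k)) : Lx K α) +
        qn b η n * ed (insert x m) := by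
    intro x
    rw [sum_range_succ, e3, Function.update_self]
    congr 1
    refine sum_congr rfl fun k hk => ?_
    have := mem_range.1 hk
    rw [e4 k hk, Function.update_of_ne (by omega)]
  rw [e1, e2, e5, e5]
  simp only [mul_sub, sum_sub_distrib]
  abel

end Pool.Agent.Work.MP_1233f5_ag.Y
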