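import Pool.Agent.Work.MP_1233f5_ag.Y.StmtsC

/-! MP_1233f5_ag, block Y: the part of an antisymmetric cycle with all points of `Q` covered. -/

set_option autoImplicit false

namespace Pool.Agent.Work.MP_1233f5_ag.Y

open Finset
open Pool.Agent.Work.MP_1233f5_ag.V (vm ML theta)
open Pool.Agent.Work.MP_1233f5_ag.Sec (Fk wd ct ee ff hh IsSec IsDeg swd brk)

namespace RedABX

variable {α : Type}

/-- extension by the empty set -/
def ext (m : ℕ) (f : Fin (m + 1) → Finset α) : ℕ → Finset α := fun i =>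
  if h : i < m + 1 then f ⟨i, h⟩ else ∅

theorem ext_fin (m : ℕ) (f : Fin (m + 1) → Finset α) (i : Fin (m + 1)) :
    ext m f (i : ℕ) = f i := by
  unfold ext
  rw [dif_pos i.2]

theorem ext_le (m : ℕ) (f : Fin (m + 1) → Finset α) {i : ℕ} (h : i ≤ m) :
    ext m f i = f ⟨i, Nat.lt_succ_of_le h⟩ := by
  unfold ext
  rw [dif_pos (Nat.lt_succ_of_le h)]

variable [DecidableEq α]

open Classical in
/-- the valid functions -/
noncomputable def FF [Fintype α] (r : ℕ) (P : Finset α) (m : ℕ) (q : ℕ → α) :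
    Finset (Fin (m + 1) → Finset α) := univ.filter (fun f => EV r P m q (ext m f))

theorem mem_FF [Fintype α] {r : ℕ} {P : Finset α} {m : ℕ} {q : ℕ → α}
    {f : Fin (m + 1) → Finset α} : f ∈ FF r P m q ↔ EV r P m q (ext m f) := by
  simp only [FF, mem_filter, mem_univ, true_and]

theorem f0_inj {r : ℕ} (hr : 1 ≤ r) {P : Finset α} {m : ℕ} {q : ℕ → α} {f0 : ℕ → Finset α}
    (h0 : EV r P m q f0) {i j : ℕ} (hi : i ≤ m) (hj : j ≤ m) (h : f0 i = f0 j) : i = j := by
  by_contra hij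
  have h1 := h0.dis i hi j hj hij
  rw [h, Finset.disjoint_self_iff_empty] at h1
  have h2 := h0.card j hj
  rw [h1, card_empty] at h2
  omega

open Classical in
theorem count [Fintype α] {r : ℕ} (hr : 1 ≤ r) {P : Finset α} {m : ℕ} {q : ℕ → α}
    {f0 : ℕ → Finset α} (h0 : EV r P m q f0) :
    ((FF r P m q).filter (fun f => ∃ σ : Equiv.Perm (Fin (m + 1)), ∀ i : Fin (m + 1),
      f0 (i : ℕ) = ext m f ((σ i : Fin (m + 1)) : ℕ))).card = (m + 1).factorial := by
  have hle : ∀ i : Fin (m + 1), (i : ℕ) ≤ m := fun i => Nat.le_of_lt_succ i.2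
  have h1 : (FF r P m q).filter (fun f => ∃ σ : Equiv.Perm (Fin (m + 1)), ∀ i : Fin (m + 1),
      f0 (i : ℕ) = ext m f ((σ i : Fin (m + 1)) : ℕ)) =
      (univ : Finset (Equiv.Perm (Fin (m + 1)))).image
        (fun σ => fun i : Fin (m + 1) => f0 ((σ.symm i : Fin (m + 1)) : ℕ)) := by
    ext f
    rw [mem_filter, mem_image, mem_FF]
    constructor
    · rintro ⟨_, σ, hσ⟩
      refine ⟨σ, mem_univ _, ?_⟩
      funext i
      have h2 := hσ (σ.symm i)
      rw [Equiv.apply_symm_apply, ext_fin] at h2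
      exact h2
    · rintro ⟨σ, _, rfl⟩
      refine ⟨⟨h0.inj, h0.mem, ?_, ?_, ?_, ?_⟩, σ, fun i => ?_⟩
      · intro i hi
        rw [ext_le _ _ hi]
        exact h0.card _ (hle _)
      · intro i hi
        rw [ext_le _ _ hi]
        exact h0.sub _ (hle _)
      · intro i hi j hj hij
        rw [ext_le _ _ hi, ext_le _ _ hj]
        refine h0.dis _ (hle _) _ (hle _) fun h => hij ?_
        have h2 := σ.symm.injective (Fin.ext h)
        exact congrArg (fun x : Fin (m + 1) => (x : ℕ)) h2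
      · intro i hi j hj
        rw [ext_le _ _ hj]
        exact h0.out i hi _ (hle _)
      · rw [ext_fin, Equiv.symm_apply_apply]
  rw [h1, card_image_of_injective, card_univ, Fintype.card_perm, Fintype.card_fin]
  intro σ τ h
  have h2 : σ.symm = τ.symm := by
    ext i
    exact f0_inj hr h0 (hle _) (hle _) (congrFun h i)
  exact Equiv.symm_bijective.injective h2

variable (K : Type) [Field K]

/-- the projection -/
noncomputable def Pr [Fintype α] (r : ℕ) (P : Finset α) (m : ℕ) (q : ℕ → α) :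
    Lx K α →ₗ[K] Lx K α :=
  (((m + 1).factorial : K)⁻¹) • ∑ f ∈ FF r P m q, (LinearMap.mulLeft K (En m q (ext m f))).comp
    (cf (m + 1) (fun i => insert (q i) (ext m f i)))

theorem Pr_apply [Fintype α] (r : ℕ) (P : Finset α) (m : ℕ) (q : ℕ → α) (x : Lx K α) :
    Pr K r P m q x = (((m + 1).factorial : K)⁻¹) • ∑ f ∈ FF r P m q,
      En m q (ext m f) * cf (m + 1) (fun i => insert (q i) (ext m f i)) x := by
  unfold Pr
  rw [LinearMap.smul_apply, LinearMap.sum_apply]
  rfl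

theorem Pr_E (hCfE : S_CfE) (hESw : S_ESw) [CharZero K] [Fintype α] {r : ℕ} (hr : 1 ≤ r)
    {P : Finset α} {m : ℕ} {q : ℕ → α} {f0 : ℕ → Finset α} (h0 : EV r P m q f0) {p : ℕ}
    {w : Lx K α} (hw : w ∈ Mt K (r + 1) (P \ es m q f0) p) :
    Pr K r P m q (En m q f0 * w) = En m q f0 * w := by
  classical
  rw [Pr_apply]
  have h1 : ∀ f ∈ FF r P m q, En m q (ext m f) *
      cf (m + 1) (fun i => insert (q i) (ext m f i)) (En m q f0 * w) =
      if (∃ σ : Equiv.Perm (Fin (m + 1)), ∀ i : Fin (m + 1),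
        f0 (i : ℕ) = ext m f ((σ i : Fin (m + 1)) : ℕ)) then En m q f0 * w else 0 := by
    intro f hf
    rw [hCfE K α r m p P q (ext m f) f0 hr (mem_FF.1 hf) h0 w hw]
    split_ifs with h
    · obtain ⟨σ, hσ⟩ := h
      rw [hESw K α m q (ext m f) f0 σ hσ]
    · rw [mul_zero]
  rw [Finset.sum_congr rfl h1, ← Finset.sum_filter, Finset.sum_const, ← Nat.cast_smul_eq_nsmul K,
    smul_smul]
  have h2 := count hr h0
  have h3 : (((m + 1).factorial : K)⁻¹) * ((((FF r P m q).filter (fun f =>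
      ∃ σ : Equiv.Perm (Fin (m + 1)), ∀ i : Fin (m + 1),
      f0 (i : ℕ) = ext m f ((σ i : Fin (m + 1)) : ℕ))).card : ℕ) : K) = 1 := by
    convert inv_mul_cancel₀ (show ((m + 1).factorial : K) ≠ 0 from
      Nat.cast_ne_zero.2 (Nat.factorial_ne_zero _)) using 2
    rw [← h2]
  rw [h3, one_smul]

theorem Pr_Q (hCfQ0 : S_CfQ0) [Fintype α] {r : ℕ} (hr : 1 ≤ r)
    {P : Finset α} {m : ℕ} {q : ℕ → α} {f0 : ℕ → Finset α} (h0 : BV r P m q f0) {p : ℕ}
    {w : Lx K α} (hw : w ∈ Mt K (r + 1) (P \ bs m q f0) p) :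
    Pr K r P m q (qn m q f0 * w) = 0 := by
  rw [Pr_apply, Finset.sum_eq_zero, smul_zero]
  intro f hf
  rw [hCfQ0 K α r m p P q (ext m f) f0 hr (mem_FF.1 hf) h0 w hw, mul_zero]

theorem es_eq (m : ℕ) (q : ℕ → α) (f : ℕ → Finset α) :
    (range (m + 1)).biUnion (fun i => insert (q i) (f i)) = es m q f := by
  ext a
  unfold es
  simp only [mem_biUnion, mem_insert, mem_union, mem_image]
  constructor
  · rintro ⟨i, hi, h | h⟩
    · exact Or.inl ⟨i, hi, h.symm⟩
    · exact Or.inr ⟨i, hi, h⟩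
  · rintro (⟨i, hi, h⟩ | ⟨i, hi, h⟩)
    · exact ⟨i, hi, Or.inl h.symm⟩
    · exact ⟨i, hi, Or.inr h⟩

theorem Pr_mem (hCfD : S_CfD) (hCfM : S_CfM) [Fintype α] {r : ℕ} {P : Finset α} {m j : ℕ}
    (hmj : m + 1 ≤ j) {q : ℕ → α} {z : Lx K α} (hz : z ∈ Cy K (r + 1) P j) :
    Pr K r P m q z ∈ spE K r P m j q (Cy K (r + 1)) := by
  rw [Pr_apply]
  refine Submodule.smul_mem _ _ (Submodule.sum_mem _ fun f hf => ?_)
  refine Submodule.subset_span ⟨ext m f, _, mem_FF.1 hf, hmj, ⟨?_, ?_⟩, rfl⟩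
  · have h1 := hCfM K α (r + 1) (m + 1) j P (fun i => insert (q i) (ext m f i)) hmj z hz.1
    rwa [es_eq] at h1
  · have h1 : Dx z = 0 := hz.2
    show Dx (cf (m + 1) (fun i => insert (q i) (ext m f i)) z) = 0
    rw [hCfD, h1, map_zero, smul_zero]

variable {K}

theorem smul_z [Fintype α] {Q : Finset α} {z : Lx K α}
    (h : ∀ σ, Sup Q σ → act K α σ z = ((Equiv.Perm.sign σ : ℤ) : K) • z) :
    ∃ N : ℕ, N ≠ 0 ∧ asym (act K α) Q z = (N : K) • z := by
  classical
  have hI : ‹DecidableEq α› = fun a b => Classical.propDecidable (a = b) :=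
    Subsingleton.elim _ _
  subst hI
  refine ⟨(univ.filter (fun σ : Equiv.Perm α => Sup Q σ)).card, ?_, ?_⟩
  · rw [Finset.card_ne_zero]
    exact ⟨1, mem_filter.2 ⟨mem_univ _, fun _ _ => rfl⟩⟩
  · unfold asym
    rw [LinearMap.sum_apply]
    have h1 : ∀ σ ∈ univ.filter (fun σ : Equiv.Perm α => Sup Q σ),
        (((Equiv.Perm.sign σ : ℤ) : K) • (act K α σ : Lx K α →ₗ[K] Lx K α)) z = z := by
      intro σ hσ
      rw [LinearMap.smul_apply, h σ (mem_filter.1 hσ).2, smul_smul, ← Int.cast_mul,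
        ← Units.val_mul, Int.units_mul_self]
      simp
    have h2 : ∑ σ ∈ univ.filter (fun σ : Equiv.Perm α => Sup Q σ),
        (((Equiv.Perm.sign σ : ℤ) : K) • (act K α σ : Lx K α →ₗ[K] Lx K α)) z =
        ((univ.filter (fun σ : Equiv.Perm α => Sup Q σ)).card : K) • z := by
      rw [Finset.sum_congr rfl h1, Finset.sum_const, Nat.cast_smul_eq_nsmul]
    exact h2

end RedABX

open RedABX in
theorem prf_RedAB (hAnti : S_Anti) (hCfD : S_CfD) (hCfM : S_CfM) (hCfE : S_CfE)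
    (hCfQ0 : S_CfQ0) (hESw : S_ESw) : S_RedAB := by
  intro K _ _ α _ _ r m j P q hr hinj hmem z hz hanti
  obtain ⟨N, hN, hNz⟩ := smul_z hanti
  have hNK : (N : K) ≠ 0 := Nat.cast_ne_zero.2 hN
  have h1 := hAnti K α r m j P q hinj hmem z hz.1
  rw [hNz] at h1
  have h2 : z ∈ spE K r P m j q (Mt K (r + 1)) ⊔ spQ K r P m j q (Mt K (r + 1)) := by
    have := Submodule.smul_mem _ (N : K)⁻¹ h1
    rwa [smul_smul, inv_mul_cancel₀ hNK, one_smul] at this
  obtain ⟨x1, hx1, x2, hx2, hx⟩ := Submodule.mem_sup.1 h2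
  by_cases hmj : m + 1 ≤ j
  · have hP1 : Pr K r P m q x1 = x1 := by
      clear hx h1 h2
      unfold spE at hx1
      induction hx1 using Submodule.span_induction with
      | mem x hx =>
        obtain ⟨f, w, hf, _, hw, rfl⟩ := hx
        exact Pr_E K hCfE hESw hr hf hw
      | zero => rw [map_zero]
      | add x y _ _ hx hy => rw [map_add, hx, hy]
      | smul c x _ hx => rw [map_smul, hx]
    have hP2 : Pr K r P m q x2 = 0 := by
      clear hx h1 h2
      unfold spQ at hx2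
      induction hx2 using Submodule.span_induction with
      | mem x hx =>
        obtain ⟨f, w, hf, _, hw, rfl⟩ := hx
        exact Pr_Q K hCfQ0 hr hf hw
      | zero => rw [map_zero]
      | add x y _ _ hx hy => rw [map_add, hx, hy, add_zero]
      | smul c x _ hx => rw [map_smul, hx, smul_zero]
    have hPz : Pr K r P m q z = x1 := by
      rw [← hx, map_add, hP1, hP2, add_zero]
    refine ⟨x1, ?_, ?_⟩
    · rw [← hPz]
      exact Pr_mem K hCfD hCfM hmj hz
    · rw [← hx, add_sub_cancel_left]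
      exact hx2
  · have h3 : x1 = 0 := by
      have h4 : spE K r P m j q (Mt K (r + 1)) = ⊥ := by
        unfold spE
        rw [Submodule.span_eq_bot]
        rintro x ⟨f, w, _, h5, _⟩
        exact absurd h5 hmj
      rw [h4] at hx1
      exact (Submodule.mem_bot K).1 hx1
    refine ⟨0, Submodule.zero_mem _, ?_⟩
    rw [sub_zero, ← hx, h3, zero_add]
    exact hx2

end Pool.Agent.Work.MP_1233f5_ag.Y
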