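import Pool.Agent.Work.MP_1233f5_ag.Y.StmtsC

/-! MP_1233f5_ag, block Y: the part of an antisymmetric cycle with one uncovered point. -/

set_option autoImplicit false
set_option linter.unusedSectionVars false
set_option linter.unusedVariables false

namespace Pool.Agent.Work.MP_1233f5_ag.Y

open Finset
open Pool.Agent.Work.MP_1233f5_ag.V (vm ML theta)
open Pool.Agent.Work.MP_1233f5_ag.Sec (Fk wd ct ee ff hh IsSec IsDeg swd brk)

namespace RedCX

/-- extension by the empty set. -/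
def ex {α : Type} {m : ℕ} (g : Fin m → Finset α) : ℕ → Finset α :=
  fun i => if h : i < m then g ⟨i, h⟩ else ∅

theorem ex_val {α : Type} {m : ℕ} (g : Fin m → Finset α) (i : Fin m) : ex g (i : ℕ) = g i := by
  unfold ex
  rw [dif_pos i.2]

section perm
variable {α : Type} [DecidableEq α]

theorem bs_perm {m : ℕ} {q : ℕ → α} {f f0 : ℕ → Finset α} (σ : Equiv.Perm (Fin m))
    (h : ∀ i : Fin m, f0 (i : ℕ) = f ((σ i : Fin m) : ℕ)) : bs m q f0 = bs m q f := by
  unfold bs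
  congr 1
  ext a
  simp only [mem_biUnion, mem_range]
  constructor
  · rintro ⟨i, hi, ha⟩
    refine ⟨(σ ⟨i, hi⟩ : Fin m), (σ ⟨i, hi⟩).2, ?_⟩
    rw [← h ⟨i, hi⟩]
    exact ha
  · rintro ⟨i, hi, ha⟩
    refine ⟨(σ.symm ⟨i, hi⟩ : Fin m), (σ.symm ⟨i, hi⟩).2, ?_⟩
    rw [h, Equiv.apply_symm_apply]
    exact ha

theorem BV_perm {r m : ℕ} {P : Finset α} {q : ℕ → α} {f f0 : ℕ → Finset α}
    (σ : Equiv.Perm (Fin m)) (h : ∀ i : Fin m, f (i : ℕ) = f0 ((σ i : Fin m) : ℕ))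
    (h0 : BV r P m q f0) : BV r P m q f where
  inj := h0.inj
  mem := h0.mem
  card := fun i hi => by
    rw [h ⟨i, hi⟩]
    exact h0.card _ (σ ⟨i, hi⟩).2
  sub := fun i hi => by
    rw [h ⟨i, hi⟩]
    exact h0.sub _ (σ ⟨i, hi⟩).2
  dis := fun i hi j hj hij => by
    rw [h ⟨i, hi⟩, h ⟨j, hj⟩]
    refine h0.dis _ (σ ⟨i, hi⟩).2 _ (σ ⟨j, hj⟩).2 fun hc => hij ?_
    have h1 := σ.injective (Fin.ext hc)
    exact congrArg Fin.val h1
  out := fun i hi j hj => by
    rw [h ⟨j, hj⟩]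
    exact h0.out i hi _ (σ ⟨j, hj⟩).2

open Classical in
/-- the valid families. -/
noncomputable def G [Fintype α] (r : ℕ) (P : Finset α) (m : ℕ) (q : ℕ → α) :
    Finset (Fin m → Finset α) := univ.filter (fun g => BV r P m q (ex g))

open Classical in
theorem mem_G [Fintype α] {r : ℕ} {P : Finset α} {m : ℕ} {q : ℕ → α} {g : Fin m → Finset α} :
    g ∈ G r P m q ↔ BV r P m q (ex g) := by
  unfold G
  rw [mem_filter]
  exact ⟨fun h => h.2, fun h => ⟨mem_univ _, h⟩⟩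

theorem inj_perm {r m : ℕ} {P : Finset α} {q : ℕ → α} {f0 : ℕ → Finset α} (hr : 1 ≤ r)
    (h0 : BV r P m q f0) :
    Function.Injective (fun σ : Equiv.Perm (Fin m) => fun i : Fin m =>
      f0 ((σ i : Fin m) : ℕ)) := by
  intro σ τ hst
  apply Equiv.ext
  intro i
  have h1 : f0 ((σ i : Fin m) : ℕ) = f0 ((τ i : Fin m) : ℕ) := congrFun hst i
  by_contra hc
  have h2 := h0.dis _ (σ i).2 _ (τ i).2 fun h => hc (Fin.ext h)
  rw [h1, disjoint_self] at h2
  have h3 := h0.card _ (τ i).2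
  rw [h2, bot_eq_empty, card_empty] at h3
  omega

open Classical in
theorem count [Fintype α] {r m : ℕ} {P : Finset α} {q : ℕ → α} {f0 : ℕ → Finset α} (hr : 1 ≤ r)
    (h0 : BV r P m q f0) :
    ((G r P m q).filter (fun g => ∃ σ : Equiv.Perm (Fin m), ∀ i : Fin m,
      f0 (i : ℕ) = ex g ((σ i : Fin m) : ℕ))).card = m.factorial := by
  have h1 : (G r P m q).filter (fun g => ∃ σ : Equiv.Perm (Fin m), ∀ i : Fin m,
      f0 (i : ℕ) = ex g ((σ i : Fin m) : ℕ)) =
      univ.image (fun σ : Equiv.Perm (Fin m) => fun i : Fin m => f0 ((σ i : Fin m) : ℕ)) := by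
    ext g
    rw [mem_filter, mem_image]
    constructor
    · rintro ⟨_, σ, hσ⟩
      refine ⟨σ.symm, mem_univ _, ?_⟩
      funext i
      show f0 ((σ.symm i : Fin m) : ℕ) = g i
      rw [hσ, Equiv.apply_symm_apply, ex_val]
    · rintro ⟨σ, _, rfl⟩
      refine ⟨mem_G.2 (BV_perm σ (fun i => ex_val _ i) h0), σ.symm, fun i => ?_⟩
      rw [ex_val, Equiv.apply_symm_apply]
  rw [h1, card_image_of_injective _ (inj_perm hr h0), card_univ, Fintype.card_perm,
    Fintype.card_fin]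

end perm

section main
variable {K : Type} [Field K] {α : Type} [DecidableEq α]

/-- the contraction along a family. -/
noncomputable def C {m : ℕ} (q : ℕ → α) (g : Fin m → Finset α) : Lx K α →ₗ[K] Lx K α :=
  cf m (fun i => insert (q i) (ex g i))

theorem C_pos (hCfQ : S_CfQ) {r m p : ℕ} {P : Finset α} {q : ℕ → α} {g : Fin m → Finset α}
    {f0 : ℕ → Finset α} (hr : 1 ≤ r) (hg : BV r P m q (ex g)) (h0 : BV r P m q f0)
    {w : Lx K α} (hw : w ∈ Mt K (r + 1) (P \ bs m q f0) p)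
    (h : ∃ σ : Equiv.Perm (Fin m), ∀ i : Fin m, f0 (i : ℕ) = ex g ((σ i : Fin m) : ℕ)) :
    C q g (qn m q f0 * w) = w := by
  have h1 := hCfQ K α r m p P q (ex g) f0 hr hg h0 w hw
  rw [if_pos h] at h1
  exact h1

theorem C_neg (hCfQ : S_CfQ) {r m p : ℕ} {P : Finset α} {q : ℕ → α} {g : Fin m → Finset α}
    {f0 : ℕ → Finset α} (hr : 1 ≤ r) (hg : BV r P m q (ex g)) (h0 : BV r P m q f0)
    {w : Lx K α} (hw : w ∈ Mt K (r + 1) (P \ bs m q f0) p)
    (h : ¬ ∃ σ : Equiv.Perm (Fin m), ∀ i : Fin m, f0 (i : ℕ) = ex g ((σ i : Fin m) : ℕ)) :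
    C q g (qn m q f0 * w) = 0 := by
  have h1 := hCfQ K α r m p P q (ex g) f0 hr hg h0 w hw
  rw [if_neg h] at h1
  exact h1

/-- the contraction of an element of the span. -/
theorem C_mem (hCfQ : S_CfQ) {r m j : ℕ} {P : Finset α} {q : ℕ → α} {g : Fin m → Finset α}
    (hr : 1 ≤ r) (hg : BV r P m q (ex g)) {z : Lx K α}
    (hz : z ∈ spQ K r P m j q (Mt K (r + 1))) :
    C q g z ∈ Mt K (r + 1) (P \ bs m q (ex g)) (j - m) := by
  unfold spQ at hz
  induction hz using Submodule.span_induction with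
  | mem x hx =>
    obtain ⟨f0, w, h0, _, hw, rfl⟩ := hx
    by_cases h : ∃ σ : Equiv.Perm (Fin m), ∀ i : Fin m, f0 (i : ℕ) = ex g ((σ i : Fin m) : ℕ)
    · rw [C_pos hCfQ hr hg h0 hw h]
      obtain ⟨σ, hσ⟩ := h
      rw [← bs_perm (q := q) σ hσ]
      exact hw
    · rw [C_neg hCfQ hr hg h0 hw h]
      exact Submodule.zero_mem _
  | zero => rw [map_zero]; exact Submodule.zero_mem _
  | add x y _ _ hx hy => rw [map_add]; exact Submodule.add_mem _ hx hy
  | smul c x _ hx => rw [map_smul]; exact Submodule.smul_mem _ _ hx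

/-- the reconstruction formula. -/
theorem rec_eq [Fintype α] (hCfQ : S_CfQ) (hQSw : S_QSw) {r m j : ℕ} {P : Finset α} {q : ℕ → α}
    (hr : 1 ≤ r) {z : Lx K α} (hz : z ∈ spQ K r P m j q (Mt K (r + 1))) :
    ∑ g ∈ G r P m q, (qn m q (ex g) * C q g z : Lx K α) = (m.factorial : K) • z := by
  unfold spQ at hz
  induction hz using Submodule.span_induction with
  | mem x hx =>
    obtain ⟨f0, w, h0, _, hw, rfl⟩ := hx
    classical
    rw [← sum_filter_add_sum_filter_not (G r P m q) (fun g => ∃ σ : Equiv.Perm (Fin m),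
      ∀ i : Fin m, f0 (i : ℕ) = ex g ((σ i : Fin m) : ℕ))]
    have h1 : ∑ g ∈ (G r P m q).filter (fun g => ∃ σ : Equiv.Perm (Fin m),
        ∀ i : Fin m, f0 (i : ℕ) = ex g ((σ i : Fin m) : ℕ)),
        (qn m q (ex g) * C q g (qn m q f0 * w) : Lx K α) =
        ∑ g ∈ (G r P m q).filter (fun g => ∃ σ : Equiv.Perm (Fin m),
        ∀ i : Fin m, f0 (i : ℕ) = ex g ((σ i : Fin m) : ℕ)), (qn m q f0 * w : Lx K α) := by
      refine sum_congr rfl fun g hg => ?_
      rw [mem_filter] at hg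
      rw [C_pos hCfQ hr (mem_G.1 hg.1) h0 hw hg.2]
      obtain ⟨σ, hσ⟩ := hg.2
      rw [hQSw K α m q (ex g) f0 σ hσ]
    have h2 : ∑ g ∈ (G r P m q).filter (fun g => ¬ ∃ σ : Equiv.Perm (Fin m),
        ∀ i : Fin m, f0 (i : ℕ) = ex g ((σ i : Fin m) : ℕ)),
        (qn m q (ex g) * C q g (qn m q f0 * w) : Lx K α) = 0 := by
      refine sum_eq_zero fun g hg => ?_
      rw [mem_filter] at hg
      rw [C_neg hCfQ hr (mem_G.1 hg.1) h0 hw hg.2, mul_zero]
    rw [h1, h2, add_zero, sum_const, ← Nat.cast_smul_eq_nsmul K]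
    congr 2
    rw [← count hr h0]
  | zero =>
    rw [smul_zero]
    refine sum_eq_zero fun g _ => ?_
    rw [map_zero, mul_zero]
  | add x y _ _ hx hy =>
    rw [smul_add, ← hx, ← hy, ← sum_add_distrib]
    refine sum_congr rfl fun g _ => ?_
    rw [map_add, mul_add]
  | smul c x _ hx =>
    rw [smul_comm, ← hx, smul_sum]
    refine sum_congr rfl fun g _ => ?_
    rw [map_smul, mul_smul_comm]

end main

end RedCX

open RedCX in
theorem prf_RedC (hCfD : S_CfD) (hCfM : S_CfM) (hCfQ : S_CfQ) (hQSw : S_QSw) : S_RedC := by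
  intro K _ _ α _ _ r m j P q hr _ _ _ z hz hzs
  by_cases hmj : m ≤ j
  · have h1 := rec_eq hCfQ hQSw hr hzs
    have h2 : (m.factorial : K) ≠ 0 := Nat.cast_ne_zero.2 (Nat.factorial_ne_zero m)
    have h3 : z = (m.factorial : K)⁻¹ • ∑ g ∈ G r P m q, (qn m q (ex g) * C q g z : Lx K α) := by
      rw [h1, smul_smul, inv_mul_cancel₀ h2, one_smul]
    rw [h3]
    refine Submodule.smul_mem _ _ (Submodule.sum_mem _ fun g hg => ?_)
    have hg' := mem_G.1 hg
    refine Submodule.subset_span ⟨ex g, C q g z, hg', hmj, ⟨C_mem hCfQ hr hg' hzs, ?_⟩, rfl⟩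
    show Dx (C q g z) = 0
    have h4 : Dx z = 0 := hz.2
    unfold C
    rw [hCfD, h4, map_zero, smul_zero]
  · have h1 : z ∈ (⊥ : Submodule K (Lx K α)) := by
      unfold spQ at hzs
      refine Submodule.span_le.2 ?_ hzs
      rintro x ⟨_, _, _, h, _⟩
      exact absurd h hmj
    rw [Submodule.mem_bot] at h1
    rw [h1]
    exact Submodule.zero_mem _

end Pool.Agent.Work.MP_1233f5_ag.Y
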