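import Pool.Agent.Work.MP_1233f5_ag.Bdx.B04
import Pool.Agent.Work.MP_1233f5_ag.Bdx.B02
import Pool.Agent.Work.MP_1233f5_ag.Y.C_Brg
import Pool.Agent.Work.MP_1233f5_ag.Y.C_CfQ
import Pool.Agent.Work.MP_1233f5_ag.Y.C_EQ
import Pool.Agent.Work.MP_1233f5_ag.Y.C_QSw
import Pool.Agent.Work.MP_1233f5_ag.Y.C_QX
import Pool.Agent.Work.MP_1233f5_ag.Y.C_RedAB
import Pool.Agent.Work.MP_1233f5_ag.Y.C_RedC

/-! MP_1233f5_ag: assembly of block Y, part C. -/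

set_option autoImplicit false

namespace Pool.Agent.Work.MP_1233f5_ag.Y

theorem h_ERep : S_ERep := prf_ERep prf_ED prf_EQ prf_QCy
theorem h_RedAB : S_RedAB := prf_RedAB prf_Anti prf_CfD prf_CfM prf_CfE prf_CfQ0 prf_ESw
theorem h_RedC : S_RedC := prf_RedC prf_CfD prf_CfM prf_CfQ prf_QSw
theorem h_Red : S_Red := prf_Red h_RedAB h_RedC h_ERep prf_QCy
theorem h_ZzN : S_ZzN := prf_ZzN prf_Zz
theorem h_GH : S_GH := prf_GH prf_Zz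
theorem h_G1 : S_G1 := prf_G1 g_Rep1 prf_Inv1 h_Red prf_Zz prf_QZ h_GH prf_QCy
theorem h_G2 : S_G2 := prf_G2 h_G1 h_GH h_Red prf_QCy
theorem h_Pq : S_Pq := prf_Pq prf_QCy prf_QAct
theorem h_WTwo : S_WTwo := prf_WTwo h_G2 prf_Zz h_Pq prf_QCy
theorem h_QX : S_QX := prf_QX prf_EQ prf_QSw
theorem h_WX : S_WX := prf_WX h_QX prf_Zz h_Pq prf_QCy
theorem h_WAdm : S_WAdm :=
  prf_WAdm g_Core g_Csp prf_SwSc prf_ScAct prf_Zz h_ZzN h_Pq h_WTwo h_WX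
theorem h_WStep : S_WStep := prf_WStep g_LemL h_WAdm h_G1 h_Pq prf_Zz
theorem h_MLr : S_MLr := prf_MLr h_WStep prf_Brg
theorem h_Main3 : S_Main3 := prf_Main3 h_MLr Pool.Agent.Work.MP_1233f5_ag.V.h_Step

end Pool.Agent.Work.MP_1233f5_ag.Y
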