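import Pool.Agent.Work.MP_1233f5_ag.V.Stmts
import Pool.Agent.Work.MP_1233f5_ag.Sec.Wedge

/-! MP_1233f5_ag, block Y (captain helper98): second generation theorem
`K_p(2d-1) = 0` for all `p ≤ 2d-2`.  Paper proof: note 2055.  Here `d = r + 1`. -/

set_option autoImplicit false

namespace Pool.Agent.Work.MP_1233f5_ag.Y

open Finset
open Pool.Agent.Work.MP_1233f5_ag.V (vm ML)
open Pool.Agent.Work.MP_1233f5_ag.Sec (Fk wd ct ee ff hh IsSec IsDeg swd brk)

/-! ### permutations -/

section perm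
variable {α : Type}

/-- `σ` moves only points of `P`. -/
def Sup (P : Finset α) (σ : Equiv.Perm α) : Prop := ∀ a, a ∉ P → σ a = a

/-- the image of a set. -/
def im (σ : Equiv.Perm α) (Y : Finset α) : Finset α := Y.map σ.toEmbedding

theorem im_one (Y : Finset α) : im (1 : Equiv.Perm α) Y = Y := by
  ext a
  rw [im, Finset.mem_map_equiv]
  exact Iff.rfl

theorem im_mul (σ τ : Equiv.Perm α) (Y : Finset α) : im (σ * τ) Y = im σ (im τ Y) := by
  ext a
  rw [im, im, im, Finset.mem_map_equiv, Finset.mem_map_equiv, Finset.mem_map_equiv]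
  exact Iff.rfl

theorem mem_im (σ : Equiv.Perm α) (Y : Finset α) (a : α) : a ∈ im σ Y ↔ σ⁻¹ a ∈ Y := by
  rw [im, Finset.mem_map_equiv]
  exact Iff.rfl

theorem card_im (σ : Equiv.Perm α) (Y : Finset α) : (im σ Y).card = Y.card :=
  Finset.card_map _

/-- `σ` moves only points of `P` and preserves `Y`. -/
def StY (P Y : Finset α) (σ : Equiv.Perm α) : Prop := Sup P σ ∧ im σ Y = Y

variable {K : Type} [Field K] {H : Type} [AddCommGroup H] [Module K H]

open Classical in
/-- the sum over the permutations moving only points of `P` and preserving `Y`. -/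
noncomputable def symm [Fintype α] (ρ : Equiv.Perm α →* Module.End K H) (P Y : Finset α) :
    H →ₗ[K] H := ∑ σ ∈ univ.filter (fun σ : Equiv.Perm α => StY P Y σ), (ρ σ : H →ₗ[K] H)

open Classical in
/-- the alternating sum over the permutations moving only points of `Q`. -/
noncomputable def asym [Fintype α] (ρ : Equiv.Perm α →* Module.End K H) (Q : Finset α) :
    H →ₗ[K] H := ∑ σ ∈ univ.filter (fun σ : Equiv.Perm α => Sup Q σ),
      ((Equiv.Perm.sign σ : ℤ) : K) • (ρ σ : H →ₗ[K] H)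

end perm

/-! ### the exterior algebra on the sets -/

section complex

/-- the exterior algebra on the finite subsets of `α`. -/
abbrev Lx (K α : Type) [Field K] := ExteriorAlgebra K (Finset α →₀ K)

variable {K : Type} [Field K] {α : Type}

/-- the generator of a set. -/
noncomputable def ed (e : Finset α) : Lx K α := ExteriorAlgebra.ι K (Finsupp.single e (1 : K))

/-- the product of the generators of the sets `t 0, ..., t (p - 1)`. -/
noncomputable def mo {p : ℕ} (t : Fin p → Finset α) : Lx K α :=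
  ExteriorAlgebra.ιMulti K p (fun i => Finsupp.single (t i) (1 : K))

/-- contraction. -/
noncomputable def ctr (f : (Finset α →₀ K) →ₗ[K] K) : Lx K α →ₗ[K] Lx K α :=
  CliffordAlgebra.contractLeft (Q := (0 : QuadraticForm K (Finset α →₀ K))) f

/-- the differential. -/
noncomputable def Dx : Lx K α →ₗ[K] Lx K α :=
  ctr (Finsupp.linearCombination K (fun _ : Finset α => (1 : K)))

/-- the action of the permutations. -/
noncomputable def act (K : Type) [Field K] (α : Type) :
    Equiv.Perm α →* Module.End K (Lx K α) where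
  toFun σ := (ExteriorAlgebra.map
    (Finsupp.lmapDomain K K (im σ) : (Finset α →₀ K) →ₗ[K] (Finset α →₀ K))).toLinearMap
  map_one' := by
    have h1 : (im (1 : Equiv.Perm α)) = id := by
      funext e
      exact im_one e
    have h : (Finsupp.lmapDomain K K (im (1 : Equiv.Perm α)) :
        (Finset α →₀ K) →ₗ[K] (Finset α →₀ K)) = LinearMap.id := by
      rw [h1]
      exact Finsupp.lmapDomain_id K K
    rw [h, ExteriorAlgebra.map_id]
    rfl
  map_mul' := by
    intro σ τ
    have h : (Finsupp.lmapDomain K K (im (σ * τ)) :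
        (Finset α →₀ K) →ₗ[K] (Finset α →₀ K)) =
        (Finsupp.lmapDomain K K (im σ)).comp (Finsupp.lmapDomain K K (im τ)) := by
      apply Finsupp.lhom_ext'
      intro e
      ext
      simp only [LinearMap.coe_comp, Function.comp_apply, Finsupp.lsingle_apply,
        Finsupp.lmapDomain_apply, Finsupp.mapDomain_single, im, Finset.map_map]
      rfl
    rw [h, ← ExteriorAlgebra.map_comp_map]
    rfl

variable [DecidableEq α]

/-- chains: the span of the products of `p` disjoint `d`-subsets of `P`. -/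
noncomputable def Mt (K : Type) [Field K] (d : ℕ) (P : Finset α) (p : ℕ) : Submodule K (Lx K α) :=
  Submodule.span K {x | ∃ t : Fin p → Finset α, vm d P p t ∧ x = mo t}

/-- cycles. -/
noncomputable def Cy (K : Type) [Field K] (d : ℕ) (P : Finset α) (p : ℕ) : Submodule K (Lx K α) :=
  Mt K d P p ⊓ LinearMap.ker Dx

/-- boundaries. -/
noncomputable def Bd (K : Type) [Field K] (d : ℕ) (P : Finset α) (p : ℕ) : Submodule K (Lx K α) :=
  (Mt K d P (p + 1)).map Dx

/-- the cycle `q_b(η; n)`: `η` at `0, ..., b` and `n` at `0, ..., b - 1`. -/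
noncomputable def qn (b : ℕ) (η : ℕ → α) (n : ℕ → Finset α) : Lx K α :=
  ∑ σ : Equiv.Perm (Fin (b + 1)), ((Equiv.Perm.sign σ : ℤ) : K) •
    mo (fun i : Fin b => insert (η ((σ i.castSucc : Fin (b + 1)) : ℕ)) (n (i : ℕ)))

/-- the chain `E_b(η; n)`: `η` and `n` at `0, ..., b`. -/
noncomputable def En (b : ℕ) (η : ℕ → α) (n : ℕ → Finset α) : Lx K α :=
  ∑ σ : Equiv.Perm (Fin (b + 1)), ((Equiv.Perm.sign σ : ℤ) : K) •
    mo (fun i : Fin (b + 1) => insert (η ((σ i : Fin (b + 1)) : ℕ)) (n (i : ℕ)))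

/-- the points of a block. -/
def bs (b : ℕ) (η : ℕ → α) (n : ℕ → Finset α) : Finset α :=
  (range (b + 1)).image η ∪ (range b).biUnion n

/-- valid block inside `P`. -/
structure BV (r : ℕ) (P : Finset α) (b : ℕ) (η : ℕ → α) (n : ℕ → Finset α) : Prop where
  inj : ∀ i ≤ b, ∀ j ≤ b, η i = η j → i = j
  mem : ∀ i ≤ b, η i ∈ P
  card : ∀ i < b, (n i).card = r
  sub : ∀ i < b, n i ⊆ P
  dis : ∀ i < b, ∀ j < b, i ≠ j → Disjoint (n i) (n j)
  out : ∀ i ≤ b, ∀ j < b, η i ∉ n j

/-- the product of the cycles `[u_i m_i] - [v_i m_i]`, `i < a`. -/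
noncomputable def zz (a : ℕ) (u v : ℕ → α) (m : ℕ → Finset α) : Lx K α :=
  ExteriorAlgebra.ιMulti K a (fun i : Fin a =>
    Finsupp.single (insert (u i) (m i)) (1 : K) - Finsupp.single (insert (v i) (m i)) 1)

/-- valid configuration on `R`: `a` pairs of points and `q` disjoint `r`-sets, covering `R`. -/
structure VC (r : ℕ) (R : Finset α) (a q : ℕ) (u v : ℕ → α) (m : ℕ → Finset α) : Prop where
  card : ∀ i < q, (m i).card = r
  dis : ∀ i < q, ∀ j < q, i ≠ j → Disjoint (m i) (m j)
  uinj : ∀ i < a, ∀ j < a, u i = u j → i = j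
  vinj : ∀ i < a, ∀ j < a, v i = v j → i = j
  uv : ∀ i < a, ∀ j < a, u i ≠ v j
  uout : ∀ i < a, ∀ j < q, u i ∉ m j
  vout : ∀ i < a, ∀ j < q, v i ∉ m j
  cov : (range a).image u ∪ (range a).image v ∪ (range q).biUnion m = R

/-- the product of the blocks with labels in `L`; the label `j` has the points `η j i`, `i ≤ b j`
and the sets `n (j, i)`, `i < b j`. -/
noncomputable def pq (L : List ℕ) (b : ℕ → ℕ) (η : ℕ → ℕ → α) (n : ℕ × ℕ → Finset α) : Lx K α :=
  (L.map (fun j => (qn (b j) (η j) (fun i => n (j, i)) : Lx K α))).prod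

/-- the points of the blocks. -/
def ls (L : List ℕ) (b : ℕ → ℕ) (η : ℕ → ℕ → α) (n : ℕ × ℕ → Finset α) : Finset α :=
  L.toFinset.biUnion (fun j => bs (b j) (η j) (fun i => n (j, i)))

/-- valid product of blocks of size at least two inside `P`. -/
structure LV (r : ℕ) (P : Finset α) (L : List ℕ) (b : ℕ → ℕ) (η : ℕ → ℕ → α)
    (n : ℕ × ℕ → Finset α) : Prop where
  nod : L.Nodup
  two : ∀ j ∈ L, 2 ≤ b j
  blk : ∀ j ∈ L, BV r P (b j) (η j) (fun i => n (j, i))
  dis : ∀ j ∈ L, ∀ j' ∈ L, j ≠ j' →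
    Disjoint (bs (b j) (η j) (fun i => n (j, i))) (bs (b j') (η j') (fun i => n (j', i)))

/-- the statement of the induction (the point set is `univ`). -/
def Wd (K : Type) [Field K] (α : Type) [Fintype α] [DecidableEq α] (r p a : ℕ) : Prop :=
  ∀ (L : List ℕ) (b : ℕ → ℕ) (η : ℕ → ℕ → α) (n : ℕ × ℕ → Finset α),
    LV r univ L b η n → (L.map b).sum + a = p →
    ∀ κ ∈ Cy K (r + 1) (univ \ ls L b η n) a, pq L b η n * κ ∈ Bd K (r + 1) (univ : Finset α) p

end complex

/-! ### sections (values in the Fock space of `Sec/Fock.lean`) -/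

section sections
variable {K : Type} [Field K] {α : Type}

/-- the vacuum. -/
def vac : Fk K := fun S => if S = ∅ then 1 else 0

/-- the product `e_{t 0} ... e_{t (q-1)}`. -/
def mb : (q : ℕ) → (t : ℕ → ℕ) → Fk K
  | 0, _ => vac
  | q + 1, t => wd (t 0) (mb q (fun i => t (i + 1)))

variable [DecidableEq α]

/-- the sections over `R` with values in `Λ^q`. -/
def Sc (K : Type) [Field K] (r q : ℕ) (R : Finset α) : Submodule K (Finset α → Fk K) where
  carrier := {s | IsSec (ee K r) (ff K r) R s ∧ ∀ Y, IsDeg r q (s Y)}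
  add_mem' := by
    rintro s s' ⟨⟨h1, h2, h3⟩, h4⟩ ⟨⟨h1', h2', h3'⟩, h4'⟩
    refine ⟨⟨fun Y hY => ?_, fun Y hY => ?_, fun Y hY => ?_⟩, fun Y => ?_⟩
    · simp [h1 Y hY, h1' Y hY]
    · simp [h2 Y hY, h2' Y hY, Finset.sum_add_distrib]
    · simp [h3 Y hY, h3' Y hY, Finset.sum_add_distrib]
    · exact (h4 Y).add (h4' Y)
  zero_mem' := by
    refine ⟨⟨fun Y _ => rfl, fun Y _ => ?_, fun Y _ => ?_⟩, fun Y => IsDeg.zero r q⟩ <;> simp
  smul_mem' := by
    rintro c s ⟨⟨h1, h2, h3⟩, h4⟩
    refine ⟨⟨fun Y hY => ?_, fun Y hY => ?_, fun Y hY => ?_⟩, fun Y => ?_⟩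
    · simp [h1 Y hY]
    · simp [h2 Y hY, Finset.smul_sum]
    · simp [h3 Y hY, Finset.smul_sum]
    · exact (h4 Y).smul c

/-- the action of the permutations on the functions on subsets. -/
noncomputable def sact (K : Type) [Field K] (α : Type) :
    Equiv.Perm α →* Module.End K (Finset α → Fk K) where
  toFun σ := LinearMap.funLeft K (Fk K) (im σ⁻¹)
  map_one' := by
    apply LinearMap.ext
    intro s
    funext Y
    rw [LinearMap.funLeft_apply, Module.End.one_apply]
    rw [inv_one, im_one]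
  map_mul' := by
    intro σ τ
    apply LinearMap.ext
    intro s
    funext Y
    simp only [LinearMap.funLeft_apply, Module.End.mul_apply, im, mul_inv_rev, Finset.map_map]
    rfl

/-- the section of a configuration. -/
noncomputable def sc (a q : ℕ) (u v : ℕ → α) (m : ℕ → Finset α) : Finset α → Fk K := fun Y =>
  if Y ⊆ (range a).image u ∪ (range a).image v ∪ (range q).biUnion m then
    (∏ i ∈ range a, ((if v i ∈ Y then (1 : K) else 0) - (if u i ∈ Y then 1 else 0))) •
      mb q (fun i => (m i ∩ Y).card)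
  else 0

/-- valid family of `r`-subsets of `P`, indexed by the slots in `I`. -/
def Cf (r : ℕ) (I : Finset (ℕ × ℕ)) (P : Finset α) (n : ℕ × ℕ → Finset α) : Prop :=
  (∀ i ∈ I, (n i).card = r ∧ n i ⊆ P) ∧ ∀ i ∈ I, ∀ j ∈ I, i ≠ j → Disjoint (n i) (n j)

/-- the points of `P` not covered by the slots. -/
def rest (I : Finset (ℕ × ℕ)) (P : Finset α) (n : ℕ × ℕ → Finset α) : Finset α :=
  P \ I.biUnion n

/-- the slots of the block `j`. -/
def sl (I : Finset (ℕ × ℕ)) (j : ℕ) : Finset (ℕ × ℕ) := I.filter (fun i => i.1 = j)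

/-- admissible functionals. -/
structure Adm {H : Type} [AddCommGroup H] [Module K H] (ρ : Equiv.Perm α →* Module.End K H)
    (r k : ℕ) (I : Finset (ℕ × ℕ)) (P : Finset α)
    (Φ : (ℕ × ℕ → Finset α) → ((Finset α → Fk K) →ₗ[K] H)) : Prop where
  loc : ∀ n n', (∀ i ∈ I, n i = n' i) → Φ n = Φ n'
  eqv : ∀ σ, Sup P σ → ∀ n, Cf r I P n → ∀ s ∈ Sc K r (k + 1) (rest I P n),
    Φ (fun i => im σ (n i)) (sact K α σ s) = ρ σ (Φ n s)
  exch : ∀ j ∈ I.image Prod.fst, ∀ n, Cf r I P n → ∀ m ⊆ rest I P n, m.card = r →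
    ∀ x ∈ Sc K r k (rest I P n \ m),
      Φ n (swd m x) + ∑ i ∈ sl I j, Φ (Function.update n i m) (swd (n i) x) = 0

/-- the budget needed. -/
def need (I : Finset (ℕ × ℕ)) : ℕ :=
  (if ∃ j ∈ I.image Prod.fst, (sl I j).card = 1 then 1 else 2) +
    ∑ j ∈ I.image Prod.fst, ((sl I j).card - 2)

end sections

end Pool.Agent.Work.MP_1233f5_ag.Y
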