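import Pool.Agent.Work.MP_1233f5_ag.Y.StmtsC

/-! MP_1233f5_ag, block Y: closed forms of the new bound `bnd3`. -/

set_option autoImplicit false

namespace Pool.Agent.Work.MP_1233f5_ag.Y

/-- closed form below the bound. -/
def S_CF3a : Prop := ∀ q b d : ℕ, 2 ≤ q → q + b + 1 ≤ d → 6 ≤ d →
  (q * (q + 1) / 2 - 1) * (d - 1) + (q + 1) * (q + b + 1) - 5 ≤ bnd3 d (q * d + b)

/-- the second row. -/
def S_CF3b : Prop := ∀ b d : ℕ, 4 ≤ d → b + 3 ≤ d →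
  min (2 * d + 2 + 3 * b) ((d + 2).choose 2 - (d - b - 1).choose 2 - 2) ≤ bnd3 d (2 * d + b)

end Pool.Agent.Work.MP_1233f5_ag.Y
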